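import Pool.Agent.SqF9.Conv4
import Pool.Agent.Lib.Hadamard.RvM

/-!
# The exponent of the first mean of `Δ` is never below `1/12`
-/

open Complex Filter Topology Set MeasureTheory Pool.Agent.Hadamard Pool.Agent.ANT
  Pool.Agent.SqFull

namespace Pool.Agent.SqF9

/-- There is a nontrivial zero of `ζ`. -/
lemma exists_ntz : ∃ ρ : ℂ, ρ ∈ ntz := by
  by_contra hcon
  push Not at hcon
  have hE : IsEmpty ntz := ⟨fun ρ => hcon ρ.1 ρ.2⟩
  obtain ⟨C, hC, h⟩ := riemann_von_mangoldt
  set a : ℝ := 2 * Real.pi * Real.exp 1 with ha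
  have hpi := Real.pi_gt_three
  have ha1 : 1 < a := by
    rw [ha]
    have := Real.add_one_le_exp (1:ℝ)
    nlinarith
  have ha0 : 0 < a := by linarith
  set T : ℝ := max (a ^ 2) (4 * Real.pi * C + 1) with hT
  have hT1 : a ^ 2 ≤ T := le_max_left _ _
  have hT2 : 4 * Real.pi * C + 1 ≤ T := le_max_right _ _
  have haa : 2 ≤ a ^ 2 := by
    rw [ha]
    have := Real.add_one_le_exp (1:ℝ)
    nlinarith
  have hT0 : 0 < T := by linarith
  have h1 := h T (by linarith)
  have hz : zc T = 0 := by
    unfold zc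
    exact tsum_empty
  have hlog : Real.log T = Real.log (T / a) + Real.log a := by
    rw [Real.log_div hT0.ne' ha0.ne']
    ring
  have hla : 2 * Real.log a ≤ Real.log T := by
    have := Real.log_le_log (by positivity) hT1
    rwa [Real.log_pow, Nat.cast_ofNat] at this
  have hla0 : 0 < Real.log a := Real.log_pos ha1
  have h2 : Real.log T / 2 ≤ Real.log (T / a) := by linarith
  have hLT : 0 < Real.log T := by linarith
  rw [hz, zero_sub, abs_neg] at h1
  have h3 := (le_abs_self _).trans h1
  have h4 : T / (2 * Real.pi) * (Real.log T / 2) ≤ C * Real.log T := by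
    refine le_trans ?_ h3
    gcongr
  have h5 : T / (4 * Real.pi) ≤ C := by
    have h6 : T / (4 * Real.pi) * Real.log T ≤ C * Real.log T := by
      refine le_trans (le_of_eq ?_) h4
      field_simp
      ring
    exact le_of_mul_le_mul_right h6 hLT
  rw [div_le_iff₀ (by positivity)] at h5
  linarith

/-- The exponent of the first mean is at least `1/12`. -/
theorem not_mn {κ : ℝ} (hκ : κ < 1 / 12) : ¬ MN κ := by
  intro hM
  -- raise the exponent to a nonnegative one below `1/12`
  set τ := max κ 0 with hτ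
  have hτ0 : 0 ≤ τ := le_max_right _ _
  have hτ1 : τ < 1 / 12 := max_lt hκ (by norm_num)
  have up : ∀ τ' : ℝ, κ ≤ τ' → MN τ' := by
    intro τ' h ε hε
    obtain ⟨C, hC⟩ := hM ε hε
    refine ⟨|C|, fun X hX => (hC X hX).trans ?_⟩
    have hX0 : 0 < X := by linarith
    calc C * X ^ (1 + κ + ε) ≤ |C| * X ^ (1 + κ + ε) := by
          gcongr
          exact le_abs_self C
      _ ≤ |C| * X ^ (1 + τ' + ε) := by
          refine mul_le_mul_of_nonneg_left ?_ (abs_nonneg C)
          exact Real.rpow_le_rpow_of_exponent_le hX (by linarith)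
  have hRH := rh_of_mn (up (1 / 12) hκ.le)
  obtain ⟨ρ, hρ⟩ := exists_ntz
  have hre : ∀ z : ℂ, z ∈ ntz → z.re = 1 / 2 := by
    intro z hz
    refine hRH z hz.1 ?_ ?_
    · rintro ⟨n, rfl⟩
      have h1 := hz.2.1
      have h4 : (-2 * ((n:ℂ) + 1)).re = -2 * ((n:ℝ) + 1) := by simp
      rw [h4] at h1
      have : (0:ℝ) ≤ n := n.cast_nonneg
      linarith
    · rintro rfl
      have := hz.2.2
      simp at this
  have h1 := hre ρ hρ
  rcases zero_halvesf (up τ (le_max_left _ _)) hτ0 (by linarith) hρ (by rw [h1]; linarith)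
    with h2 | h2
  · have h3 := hre _ h2
    have : (ρ / 2).re = ρ.re / 2 := by simp
    rw [this, h1] at h3
    norm_num at h3
  · have h3 := hre _ h2
    have : (ρ / 3).re = ρ.re / 3 := by simp
    rw [this, h1] at h3
    norm_num at h3

end Pool.Agent.SqF9
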