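import Pool.Agent.SqF9.Conv4

/-!
# The first mean with exponent `b/6` forces a zero-free strip
-/

open Complex Filter Topology Set MeasureTheory Pool.Agent.Hadamard Pool.Agent.ANT
  Pool.Agent.SqFull

namespace Pool.Agent.SqF9

/-- No zeros in the strip `b < Re s < 2 (1 - b)`. -/
theorem two_sub_le {b : ℝ} (hb0 : 1 / 2 ≤ b) (hb1 : b ≤ 3 / 5) (hM : MN (b / 6)) {ρ : ℂ}
    (hρ : ρ ∈ ntz) (h : b < ρ.re) : 2 * (1 - b) ≤ ρ.re := by
  by_contra hlt
  push Not at hlt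
  set A : Set ntz := {σ : ntz | b < (σ:ℂ).re ∧ (σ:ℂ).re < 2 * (1 - b) ∧ |(σ:ℂ).im| ≤ |ρ.im|}
    with hA
  have hfin : A.Finite := by
    refine (finite_ntz (1 + |ρ.im|)).subset fun σ hσ => ?_
    obtain ⟨h1, h2, h3⟩ := hσ
    have h4 := Complex.norm_le_abs_re_add_abs_im (σ:ℂ)
    have h6 := σ.2.2.2
    have h5 : |(σ:ℂ).re| ≤ 1 := abs_le.mpr ⟨by linarith, by linarith⟩
    simp only [mem_ofPred_eq]
    linarith
  have hne : A.Nonempty := ⟨⟨ρ, hρ⟩, h, hlt, le_rfl⟩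
  obtain ⟨a, ha, hmin⟩ := Set.exists_min_image A (fun σ => |(σ:ℂ).im|) hfin hne
  obtain ⟨a1, a2, a3⟩ := ha
  have him : 0 < |(a:ℂ).im| := abs_pos.mpr (ntz_im_ne_zero a.2)
  have key : ∀ z : ℂ, z ∈ ntz → b < z.re → z.re < 2 * (1 - b) → |z.im| ≤ |(a:ℂ).im| / 2 →
      False := by
    intro z hz b1 b2 b3
    have h1 := hmin ⟨z, hz⟩ ⟨b1, b2, by simp only; linarith⟩
    simp only at h1
    linarith
  rcases zero_halvesf hM (by linarith) (by linarith) a.2 (by linarith) with h2 | h3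
  · refine key (1 - (a:ℂ) / 2) (ntz_one_sub.mpr h2) ?_ ?_ ?_
    · have : (1 - (a:ℂ) / 2).re = 1 - (a:ℂ).re / 2 := by simp
      rw [this]; linarith
    · have : (1 - (a:ℂ) / 2).re = 1 - (a:ℂ).re / 2 := by simp
      rw [this]; linarith
    · have : (1 - (a:ℂ) / 2).im = -((a:ℂ).im / 2) := by simp
      rw [this, abs_neg, abs_div, abs_of_pos (by norm_num : (0:ℝ) < 2)]
  · refine key (1 - (a:ℂ) / 3) (ntz_one_sub.mpr h3) ?_ ?_ ?_
    · have : (1 - (a:ℂ) / 3).re = 1 - (a:ℂ).re / 3 := by simp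
      rw [this]; linarith
    · have : (1 - (a:ℂ) / 3).re = 1 - (a:ℂ).re / 3 := by simp
      rw [this]; linarith
    · have : (1 - (a:ℂ) / 3).im = -((a:ℂ).im / 3) := by simp
      rw [this, abs_neg, abs_div, abs_of_pos (by norm_num : (0:ℝ) < 3)]
      linarith

/-- The zeros to the right of `b` are far to the right and twice a zero. -/
theorem zeros_of_mn_strip {b : ℝ} (hb0 : 1 / 2 ≤ b) (hb1 : b ≤ 3 / 5) (hM : MN (b / 6)) :
    ∀ s : ℂ, b < s.re → s.re < 1 → riemannZeta s = 0 →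
      2 * (1 - b) ≤ s.re ∧ riemannZeta (s / 2) = 0 := by
  intro s h1 h2 h3
  have hs : s ∈ ntz := ⟨h3, by linarith, h2⟩
  have h4 := two_sub_le hb0 hb1 hM hs h1
  refine ⟨h4, ?_⟩
  rcases zero_halvesf hM (by linarith) (by linarith) hs (by linarith) with h5 | h5
  · exact h5.1
  · exfalso
    have e : (1 - s / 3).re = 1 - s.re / 3 := by simp
    have h6 := two_sub_le hb0 hb1 hM (ntz_one_sub.mpr h5) (by rw [e]; linarith)
    rw [e] at h6
    linarith

end Pool.Agent.SqF9
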