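import Pool.Agent.SqF9.Conv2

/-!
# The mean square bound gives the bound for the first mean
-/

open Complex Filter Topology Set MeasureTheory Pool.Agent.Hadamard Pool.Agent.SqFull

namespace Pool.Agent.SqF9

lemma mean_of_mst {κ : ℝ} (hM : MSt κ) : ∀ ε : ℝ, 0 < ε → ∃ C : ℝ, ∀ X : ℝ, 1 ≤ X →
    |∫ x in (1:ℝ)..X, Delta x| ≤ C * X ^ (1 + κ + ε) := by
  intro ε hε
  obtain ⟨C, hC⟩ := hM ε hε
  refine ⟨|C| + 1, fun X hX => ?_⟩
  have hX0 : 0 < X := by linarith
  have hI2 := integrableOn_sq0_Ioc (a := 1) (b := X) le_rfl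
  set L : ℝ := X ^ (κ + ε / 2) with hL
  have hL0 : 0 < L := by rw [hL]; positivity
  have hpt : ∀ x : ℝ, |Delta x| ≤ 1 / (2 * L) * Delta x ^ 2 + L / 2 := by
    intro x
    have h1 : 0 ≤ (|Delta x| - L) ^ 2 / (2 * L) := by positivity
    have h2 : (|Delta x| - L) ^ 2 / (2 * L) =
        1 / (2 * L) * |Delta x| ^ 2 + L / 2 - |Delta x| := by
      field_simp
      ring
    rw [h2, sq_abs] at h1
    linarith
  have hcst : IntegrableOn (fun _ : ℝ => L / 2) (Ioc 1 X) := by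
    exact integrableOn_const (hs := by simp)
  have hb : IntegrableOn (fun x => 1 / (2 * L) * Delta x ^ 2 + L / 2) (Ioc 1 X) :=
    (hI2.const_mul _).add hcst
  have h1 : |∫ x in (1:ℝ)..X, Delta x| ≤
      ∫ x in Ioc (1:ℝ) X, (1 / (2 * L) * Delta x ^ 2 + L / 2) := by
    rw [intervalIntegral.integral_of_le hX, ← Real.norm_eq_abs]
    exact norm_integral_le_of_norm_le hb
      (Eventually.of_forall fun x => by rw [Real.norm_eq_abs]; exact hpt x)
  have h2 : ∫ x in Ioc (1:ℝ) X, (1 / (2 * L) * Delta x ^ 2 + L / 2) =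
      1 / (2 * L) * (∫ x in Ioc (1:ℝ) X, Delta x ^ 2) + (X - 1) * (L / 2) := by
    rw [integral_add (hI2.const_mul _) hcst, integral_const_mul, setIntegral_const, smul_eq_mul]
    have h3 : (volume.real (Ioc (1:ℝ) X)) = X - 1 := by simp [hX]
    rw [h3]
  have h3 := hC X hX
  rw [intervalIntegral.integral_of_le hX] at h3
  have h4 : ∫ x in Ioc (1:ℝ) X, Delta x ^ 2 ≤ |C| * X ^ (1 + 2 * κ + ε) :=
    h3.trans (by gcongr; exact le_abs_self C)
  have h5 : 1 / (2 * L) * (|C| * X ^ (1 + 2 * κ + ε)) = |C| / 2 * (X * L) := by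
    have e1 : X ^ (1 + 2 * κ + ε) = X * L * L := by
      rw [hL, mul_assoc, ← Real.rpow_add hX0]
      nth_rewrite 2 [← Real.rpow_one X]
      rw [← Real.rpow_add hX0]
      congr 1
      ring
    rw [e1]
    field_simp
  have h6 : X * L ≤ X ^ (1 + κ + ε) := by
    have e1 : X * L = X ^ (1 + (κ + ε / 2)) := by
      rw [Real.rpow_add hX0, Real.rpow_one]
    rw [e1]
    exact Real.rpow_le_rpow_of_exponent_le hX (by linarith)
  have hXL : 0 < X * L := by positivity
  calc |∫ x in (1:ℝ)..X, Delta x|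
      ≤ 1 / (2 * L) * (∫ x in Ioc (1:ℝ) X, Delta x ^ 2) + (X - 1) * (L / 2) := h1.trans h2.le
    _ ≤ 1 / (2 * L) * (|C| * X ^ (1 + 2 * κ + ε)) + X * (L / 2) := by
        gcongr
        linarith
    _ = (|C| + 1) / 2 * (X * L) := by rw [h5]; ring
    _ ≤ (|C| + 1) * (X * L) := by
        have := abs_nonneg C
        gcongr
        linarith
    _ ≤ (|C| + 1) * X ^ (1 + κ + ε) := by
        have := abs_nonneg C
        gcongr

end Pool.Agent.SqF9
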