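import Pool.Agent.SqFull.Main

/-!
# The Mellin transform of the first mean of `Δ`
-/

open Complex Filter Topology Set MeasureTheory Pool.Agent.SqFull

namespace Pool.Agent.SqF9

lemma measurable_set_integral {A : Set (ℝ × ℝ)} (hA : MeasurableSet A) (S : ℝ → Set ℝ)
    (hS : ∀ x, MeasurableSet (S x)) (h : ∀ x t, (x, t) ∈ A ↔ t ∈ S x) :
    Measurable (fun x : ℝ => ∫ t in S x, Delta t) := by
  have hD : Measurable (fun p : ℝ × ℝ => Delta p.2) := measurable_Delta.comp measurable_snd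
  have hm : Measurable (A.indicator (fun p : ℝ × ℝ => Delta p.2)) := hD.indicator hA
  have h2 := (hm.stronglyMeasurable.integral_prod_right' (ν := volume)).measurable
  have e : (fun x : ℝ => ∫ t in S x, Delta t) =
      fun x : ℝ => ∫ t, A.indicator (fun p : ℝ × ℝ => Delta p.2) (x, t) := by
    funext x
    rw [← integral_indicator (hS x)]
    refine integral_congr_ae (Eventually.of_forall fun t => ?_)
    show (S x).indicator Delta t = A.indicator (fun p : ℝ × ℝ => Delta p.2) (x, t)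
    by_cases ht : t ∈ S x
    · rw [indicator_of_mem ht, indicator_of_mem ((h x t).mpr ht)]
    · rw [indicator_of_notMem ht, indicator_of_notMem (fun h' => ht ((h x t).mp h'))]
  rw [e]
  exact h2

lemma measurable_D0 : Measurable (fun x : ℝ => ∫ t in (1:ℝ)..x, Delta t) := by
  have h1 : Measurable (fun x : ℝ => ∫ t in Ioc 1 x, Delta t) :=
    measurable_set_integral (A := {p : ℝ × ℝ | 1 < p.2 ∧ p.2 ≤ p.1})
      ((measurableSet_lt measurable_const measurable_snd).inter
        (measurableSet_le measurable_snd measurable_fst)) _ (fun x => measurableSet_Ioc)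
      (fun x t => Iff.rfl)
  have h2 : Measurable (fun x : ℝ => ∫ t in Ioc x 1, Delta t) :=
    measurable_set_integral (A := {p : ℝ × ℝ | p.1 < p.2 ∧ p.2 ≤ 1})
      ((measurableSet_lt measurable_fst measurable_snd).inter
        (measurableSet_le measurable_snd measurable_const)) _ (fun x => measurableSet_Ioc)
      (fun x t => Iff.rfl)
  exact h1.sub h2

lemma measurable_D1 : Measurable (fun x : ℝ => (∫ t in (1:ℝ)..x, Delta t) / x) :=
  measurable_D0.div measurable_id

/-- The kernel of the double integral. -/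
noncomputable def cesF (s : ℂ) (p : ℝ × ℝ) : ℂ :=
  indicator {p : ℝ × ℝ | p.2 ≤ p.1} (fun p => (Delta p.2 : ℂ) * (p.1 : ℂ) ^ (-(s + 2))) p

lemma integrable_cesF {s : ℂ} (hs : 1 < s.re) :
    Integrable (cesF s) ((volume.restrict (Ioi (1:ℝ))).prod (volume.restrict (Ioi (1:ℝ)))) := by
  obtain ⟨B, hB, hΔ⟩ := Delta_le
  have h1 : Integrable (fun x : ℝ => B * x ^ (-(5 / 4) : ℝ)) (volume.restrict (Ioi (1:ℝ))) :=
    ((integrableOn_Ioi_rpow_of_lt (by norm_num) one_pos).const_mul B)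
  have h2 : Integrable (fun t : ℝ => t ^ (-(6 / 5) : ℝ)) (volume.restrict (Ioi (1:ℝ))) :=
    integrableOn_Ioi_rpow_of_lt (by norm_num) one_pos
  have hm : Measurable (cesF s) := by
    unfold cesF
    refine Measurable.indicator ?_ (measurableSet_le measurable_snd measurable_fst)
    refine (Complex.measurable_ofReal.comp (measurable_Delta.comp measurable_snd)).mul ?_
    exact (Complex.measurable_ofReal.comp measurable_fst).pow_const _
  refine (h1.mul_prod h2).mono' hm.aestronglyMeasurable ?_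
  rw [Measure.prod_restrict]
  refine (ae_restrict_iff' (measurableSet_Ioi.prod measurableSet_Ioi)).mpr
    (Eventually.of_forall fun p hp => ?_)
  obtain ⟨hx, ht⟩ := hp
  have hx1 : (1:ℝ) < p.1 := hx
  have ht1 : (1:ℝ) < p.2 := ht
  have hx0 : (0:ℝ) < p.1 := by linarith
  have ht0 : (0:ℝ) < p.2 := by linarith
  unfold cesF
  by_cases hle : p.2 ≤ p.1
  · have hmem : p ∈ {p : ℝ × ℝ | p.2 ≤ p.1} := hle
    rw [indicator_of_mem hmem, norm_mul, Complex.norm_real, Real.norm_eq_abs,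
      Complex.norm_cpow_eq_rpow_re_of_pos hx0]
    have e1 : p.1 ^ (-(s + 2)).re ≤ p.1 ^ (-(5 / 4) : ℝ) * p.2 ^ (-(7 / 4) : ℝ) := by
      calc p.1 ^ (-(s + 2)).re ≤ p.1 ^ (-(5 / 4) + -(7 / 4) : ℝ) :=
            Real.rpow_le_rpow_of_exponent_le hx1.le (by simp; linarith)
        _ = p.1 ^ (-(5 / 4) : ℝ) * p.1 ^ (-(7 / 4) : ℝ) := Real.rpow_add hx0 _ _
        _ ≤ p.1 ^ (-(5 / 4) : ℝ) * p.2 ^ (-(7 / 4) : ℝ) := by
            refine mul_le_mul_of_nonneg_left ?_ (by positivity)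
            exact Real.rpow_le_rpow_of_nonpos ht0 hle (by norm_num)
    calc |Delta p.2| * p.1 ^ (-(s + 2)).re
        ≤ (B * p.2 ^ (11 / 20 : ℝ)) * (p.1 ^ (-(5 / 4) : ℝ) * p.2 ^ (-(7 / 4) : ℝ)) :=
          mul_le_mul (hΔ _ ht1.le) e1 (by positivity) (by positivity)
      _ = B * p.1 ^ (-(5 / 4) : ℝ) * (p.2 ^ (11 / 20 : ℝ) * p.2 ^ (-(7 / 4) : ℝ)) := by ring
      _ = B * p.1 ^ (-(5 / 4) : ℝ) * p.2 ^ (-(6 / 5) : ℝ) := by
          rw [← Real.rpow_add ht0]
          norm_num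
  · have hmem : p ∉ {p : ℝ × ℝ | p.2 ≤ p.1} := hle
    rw [indicator_of_notMem hmem, norm_zero]
    positivity

/-- The transform of the first mean. -/
lemma cesaro {s : ℂ} (hs : 1 < s.re) :
    ∫ x in Ioi (1:ℝ), (((∫ t in (1:ℝ)..x, Delta t) / x : ℝ) : ℂ) * (x:ℂ) ^ (-(s + 1)) =
      (∫ t in Ioi (1:ℝ), (Delta t : ℂ) * (t:ℂ) ^ (-(s + 1))) / (s + 1) := by
  have hswap := integral_integral_swap (f := fun x t : ℝ => cesF s (x, t))
    (μ := volume.restrict (Ioi (1:ℝ))) (ν := volume.restrict (Ioi (1:ℝ)))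
    (integrable_cesF hs)
  have hs1 : s + 1 ≠ 0 := by
    intro h
    have := congrArg Complex.re h
    simp at this
    linarith
  have hL : ∫ x in Ioi (1:ℝ), (((∫ t in (1:ℝ)..x, Delta t) / x : ℝ) : ℂ) * (x:ℂ) ^ (-(s + 1)) =
      ∫ x in Ioi (1:ℝ), ∫ t in Ioi (1:ℝ), cesF s (x, t) := by
    refine setIntegral_congr_fun measurableSet_Ioi fun x hx => ?_
    have hx1 : (1:ℝ) < x := hx
    have hx0 : (0:ℝ) < x := by linarith
    have hxc : (x:ℂ) ≠ 0 := by exact_mod_cast hx0.ne'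
    have e1 : ∀ t : ℝ, cesF s (x, t) =
        indicator (Iic x) (fun t : ℝ => (Delta t : ℂ) * (x:ℂ) ^ (-(s + 2))) t := fun t => rfl
    simp only [e1]
    rw [setIntegral_indicator measurableSet_Iic, Ioi_inter_Iic, integral_mul_const,
      integral_complex_ofReal, intervalIntegral.integral_of_le hx1.le]
    have e2 : (x:ℂ) ^ (-(s + 1)) = (x:ℂ) ^ (-(s + 2)) * x := by
      have : -(s + 1) = -(s + 2) + 1 := by ring
      rw [this, Complex.cpow_add _ _ hxc, Complex.cpow_one]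
    rw [e2]
    push_cast
    field_simp
  have hR : ∫ t in Ioi (1:ℝ), ∫ x in Ioi (1:ℝ), cesF s (x, t) =
      ∫ t in Ioi (1:ℝ), ((Delta t : ℂ) * (t:ℂ) ^ (-(s + 1))) / (s + 1) := by
    refine setIntegral_congr_fun measurableSet_Ioi fun t ht => ?_
    have ht1 : (1:ℝ) < t := ht
    have ht0 : (0:ℝ) < t := by linarith
    have e1 : ∀ x : ℝ, cesF s (x, t) =
        indicator (Ici t) (fun x : ℝ => (Delta t : ℂ) * (x:ℂ) ^ (-(s + 2))) x := fun x => rfl
    simp only [e1]
    have e3 : Ioi (1:ℝ) ∩ Ici t = Ici t := by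
      ext y
      simp only [mem_inter_iff, mem_Ioi, mem_Ici]
      exact ⟨fun h => h.2, fun h => ⟨lt_of_lt_of_le ht1 h, h⟩⟩
    rw [setIntegral_indicator measurableSet_Ici, e3, integral_const_mul,
      integral_Ici_eq_integral_Ioi, integral_Ioi_cpow_of_lt (by simp; linarith) ht0]
    have e4 : -(s + 2) + 1 = -(s + 1) := by ring
    rw [e4]
    field_simp
  rw [hL, hswap, hR, integral_div]

end Pool.Agent.SqF9
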