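import Pool.Agent.SqF9.Conv2
import Pool.Agent.SqF9.Ces

/-!
# From the first mean of `Δ` to the zeros of `ζ`
-/

open Complex Filter Topology Set MeasureTheory Pool.Agent.Hadamard Pool.Agent.ANT
  Pool.Agent.SqFull

namespace Pool.Agent.SqF9

/-- The first mean bound with exponent `κ`. -/
def MN (κ : ℝ) : Prop := ∀ ε : ℝ, 0 < ε → ∃ C : ℝ, ∀ X : ℝ, 1 ≤ X →
  |∫ x in (1:ℝ)..X, Delta x| ≤ C * X ^ (1 + κ + ε)

/-- The first mean. -/
noncomputable def D1 (x : ℝ) : ℝ := (∫ t in (1:ℝ)..x, Delta t) / x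

/-- The transform of a function. -/
noncomputable def TR (f : ℝ → ℝ) (s : ℂ) : ℂ := ∫ t in Ioi (1:ℝ), (f t : ℂ) * (t:ℂ) ^ (-(s + 1))

lemma norm_kernelf (f : ℝ → ℝ) {t : ℝ} (ht : 0 < t) (z : ℂ) :
    ‖(f t : ℂ) * (t:ℂ) ^ (-(z + 1))‖ = |f t| * t ^ (-(z.re + 1)) := by
  rw [norm_mul, Complex.norm_cpow_eq_rpow_re_of_pos ht, Complex.norm_real, Real.norm_eq_abs]
  congr 2

lemma measurable_kernelf {f : ℝ → ℝ} (hf : AEStronglyMeasurable f (volume.restrict (Ioi 1)))
    (z : ℂ) : AEStronglyMeasurable (fun t : ℝ => (f t : ℂ) * (t:ℂ) ^ (-(z + 1)))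
      (volume.restrict (Ioi 1)) := by
  refine AEStronglyMeasurable.mul (Complex.continuous_ofReal.comp_aestronglyMeasurable hf) ?_
  refine ContinuousOn.aestronglyMeasurable ?_ measurableSet_Ioi
  intro u hu
  have hu' : 0 < u := lt_trans zero_lt_one hu
  exact (continuousAt_ofReal_cpow_const _ _ (Or.inr hu'.ne')).continuousWithinAt

lemma TR_differentiableAt {f : ℝ → ℝ} (hf : AEStronglyMeasurable f (volume.restrict (Ioi 1)))
    {κ : ℝ} (hI : ∀ σ : ℝ, κ < σ → IntegrableOn (fun x : ℝ => |f x| * x ^ (-(σ + 1))) (Ioi 1))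
    {s : ℂ} (hs : κ < s.re) :
    DifferentiableAt ℂ (TR f) s := by
  set r := (s.re - κ) / 4 with hr
  have hr0 : 0 < r := by rw [hr]; linarith
  have hb := (hI (s.re - 2 * r) (by rw [hr]; linarith)).const_mul (1 / r)
  have key := hasDerivAt_integral_of_dominated_loc_of_deriv_le
    (μ := volume.restrict (Ioi (1:ℝ)))
    (F := fun (z : ℂ) (t : ℝ) => (f t : ℂ) * (t:ℂ) ^ (-(z + 1)))
    (F' := fun (z : ℂ) (t : ℝ) => (f t : ℂ) * (-(Real.log t : ℂ) * (t:ℂ) ^ (-(z + 1))))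
    (x₀ := s) (s := Metric.ball s r)
    (bound := fun t => 1 / r * (|f t| * t ^ (-(s.re - 2 * r + 1))))
    (Metric.ball_mem_nhds s hr0)
    (Eventually.of_forall fun z => measurable_kernelf hf z) ?_ ?_ ?_ hb ?_
  · exact key.2.differentiableAt
  · refine Integrable.mono' (hI s.re hs) (measurable_kernelf hf s) ?_
    refine (ae_restrict_iff' measurableSet_Ioi).mpr (Eventually.of_forall fun t ht => ?_)
    rw [norm_kernelf f (lt_trans zero_lt_one ht)]
  · have h1 := measurable_kernelf hf s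
    have h2 : (fun t : ℝ => (f t : ℂ) * (-(Real.log t : ℂ) * (t:ℂ) ^ (-(s + 1)))) =
        fun t : ℝ => (-(Real.log t : ℂ)) * ((f t : ℂ) * (t:ℂ) ^ (-(s + 1))) := by
      funext t; ring
    rw [h2]
    exact (Complex.measurable_ofReal.comp Real.measurable_log).neg.aestronglyMeasurable.mul h1
  · refine (ae_restrict_iff' measurableSet_Ioi).mpr (Eventually.of_forall fun t ht z hz => ?_)
    have ht1 : (1:ℝ) < t := ht
    have ht0 : 0 < t := lt_trans zero_lt_one ht
    have hz1 : s.re - r ≤ z.re := by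
      rw [Metric.mem_ball, dist_eq_norm] at hz
      have h3 := Complex.abs_re_le_norm (z - s)
      rw [sub_re] at h3
      have h4 := (abs_le.mp (h3.trans hz.le)).1
      linarith
    have hlog : Real.log t ≤ t ^ r / r := Real.log_le_rpow_div ht0.le hr0
    have hlog0 : 0 ≤ Real.log t := Real.log_nonneg ht1.le
    have e1 : ‖(f t : ℂ) * (-(Real.log t : ℂ) * (t:ℂ) ^ (-(z + 1)))‖ =
        Real.log t * (|f t| * t ^ (-(z.re + 1))) := by
      rw [← norm_kernelf f ht0 z, norm_mul, norm_mul, norm_mul, norm_neg, Complex.norm_real,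
        Complex.norm_real, Real.norm_eq_abs, Real.norm_eq_abs, abs_of_nonneg hlog0]
      ring
    rw [e1]
    calc Real.log t * (|f t| * t ^ (-(z.re + 1)))
        ≤ (t ^ r / r) * (|f t| * t ^ (-(s.re - r + 1))) := by
          have : t ^ (-(z.re + 1)) ≤ t ^ (-(s.re - r + 1)) :=
            Real.rpow_le_rpow_of_exponent_le ht1.le (by linarith)
          gcongr
      _ = 1 / r * (|f t| * (t ^ r * t ^ (-(s.re - r + 1)))) := by ring
      _ = 1 / r * (|f t| * t ^ (-(s.re - 2 * r + 1))) := by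
          rw [← Real.rpow_add ht0]
          congr 3
          ring
  · refine (ae_restrict_iff' measurableSet_Ioi).mpr (Eventually.of_forall fun t ht z _ => ?_)
    have ht0 : 0 < t := lt_trans zero_lt_one ht
    have htc : (t:ℂ) ≠ 0 := by exact_mod_cast ht0.ne'
    have h1 : HasDerivAt (fun z : ℂ => (t:ℂ) ^ (-(z + 1)))
        ((t:ℂ) ^ (-(z + 1)) * Complex.log t * (-1)) z := by
      have h2 : HasDerivAt (fun z : ℂ => -(z + 1)) (-1) z := by
        exact ((hasDerivAt_id z).add_const 1).neg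
      exact h2.const_cpow (Or.inl htc)
    have h3 := h1.const_mul (f t : ℂ)
    refine h3.congr_deriv ?_
    rw [← Complex.ofReal_log ht0.le]
    ring

lemma integrableOn_D1 {κ : ℝ} (hM : MN κ) {σ : ℝ} (hσ : κ < σ) :
    IntegrableOn (fun x : ℝ => |D1 x| * x ^ (-(σ + 1))) (Ioi 1) := by
  obtain ⟨C, hC⟩ := hM ((σ - κ) / 2) (by linarith)
  have h2 : IntegrableOn (fun x : ℝ => C * x ^ (κ + (σ - κ) / 2 - σ - 1)) (Ioi 1) :=
    (integrableOn_Ioi_rpow_of_lt (by linarith) zero_lt_one).const_mul C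
  refine Integrable.mono' h2 ?_ ?_
  · exact (continuous_abs.comp_aestronglyMeasurable measurable_D1.aestronglyMeasurable).mul
      (measurable_id.pow_const (-(σ + 1))).aestronglyMeasurable
  · refine (ae_restrict_iff' measurableSet_Ioi).mpr (Eventually.of_forall fun x hx => ?_)
    have hx1 : (1:ℝ) < x := hx
    have hx0 : 0 < x := lt_trans zero_lt_one hx
    rw [Real.norm_eq_abs, abs_of_nonneg (by positivity)]
    have h3 := hC x hx1.le
    have h4 : |D1 x| ≤ C * x ^ (κ + (σ - κ) / 2) := by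
      unfold D1
      rw [abs_div, abs_of_pos hx0, div_le_iff₀ hx0]
      refine h3.trans (le_of_eq ?_)
      rw [mul_assoc, ← Real.rpow_add_one hx0.ne']
      congr 2
      ring
    calc |D1 x| * x ^ (-(σ + 1)) ≤ C * x ^ (κ + (σ - κ) / 2) * x ^ (-(σ + 1)) := by gcongr
      _ = C * x ^ (κ + (σ - κ) / 2 - σ - 1) := by
          rw [mul_assoc, ← Real.rpow_add hx0]
          congr 2
          ring

lemma TR_D1_differentiableAt {κ : ℝ} (hM : MN κ) {s : ℂ} (hs : κ < s.re) :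
    DifferentiableAt ℂ (TR D1) s :=
  TR_differentiableAt measurable_D1.aestronglyMeasurable (fun _ h => integrableOn_D1 hM h) hs

/-- The functional identity between the transform of `Δ` and `ζ(2s)ζ(3s)/ζ(6s)`. -/
lemma identityf {κ : ℝ} (hM : MN κ) (h10 : 0 ≤ κ) (hκ : κ < 1) {s : ℂ} (hs : κ < s.re) :
    6 * s * ZZ (6 * s) * ((s + 1) * TR D1 s * (s - 1 / 2) * (s - 1 / 3) + c₁ * (s - 1 / 3) +
      c₂ * (s - 1 / 2)) = (6 * s - 1) * (ZZ (2 * s) * ZZ (3 * s)) := by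
  have hU : IsPreconnected {z : ℂ | κ < z.re} := (convex_halfSpace_re_gt _).isPreconnected
  have hO : IsOpen {z : ℂ | κ < z.re} := isOpen_lt continuous_const Complex.continuous_re
  have hZ : ∀ (k : ℝ), 0 < k → ∀ z ∈ {z : ℂ | κ < z.re},
      DifferentiableAt ℂ (fun z => ZZ (k * z)) z := by
    intro k hk z hz
    have hz' : κ < z.re := hz
    have h1 : 0 < ((k:ℂ) * z).re := by
      rw [Complex.re_ofReal_mul]
      exact mul_pos hk (by linarith)
    exact (ZZ_differentiableAt h1).comp z (by fun_prop : DifferentiableAt ℂ (fun z => (k:ℂ) * z) z)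
  have hf : AnalyticOnNhd ℂ (fun s => 6 * s * ZZ (6 * s) * ((s + 1) * TR D1 s * (s - 1 / 2) * (s - 1 / 3) +
      c₁ * (s - 1 / 3) + c₂ * (s - 1 / 2))) {z : ℂ | κ < z.re} := by
    refine DifferentiableOn.analyticOnNhd (fun z hz => ?_) hO
    have h6 := hZ 6 (by norm_num) z hz
    push_cast at h6
    have hG : DifferentiableAt ℂ (fun s => (s + 1) * TR D1 s) z :=
      DifferentiableAt.mul (by fun_prop) (TR_D1_differentiableAt hM hz)
    exact (DifferentiableAt.mul (DifferentiableAt.mul (by fun_prop) h6)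
      (DifferentiableAt.add (DifferentiableAt.add (DifferentiableAt.mul
        (DifferentiableAt.mul hG (by fun_prop)) (by fun_prop)) (by fun_prop))
        (by fun_prop))).differentiableWithinAt
  have hg : AnalyticOnNhd ℂ (fun s => (6 * s - 1) * (ZZ (2 * s) * ZZ (3 * s)))
      {z : ℂ | κ < z.re} := by
    refine DifferentiableOn.analyticOnNhd (fun z hz => ?_) hO
    have h2 := hZ 2 (by norm_num) z hz
    have h3 := hZ 3 (by norm_num) z hz
    push_cast at h2 h3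
    exact (DifferentiableAt.mul (by fun_prop) (h2.mul h3)).differentiableWithinAt
  have h2 : (2:ℂ) ∈ {z : ℂ | κ < z.re} := by
    simp only [mem_ofPred_eq, Complex.re_ofNat]
    linarith
  refine hf.eqOn_of_preconnected_of_eventuallyEq hg hU h2 ?_ hs
  have h3 : ∀ᶠ z : ℂ in 𝓝 2, 1 < z.re := by
    refine (isOpen_lt continuous_const Complex.continuous_re).mem_nhds ?_
    simp
  filter_upwards [h3] with z hz
  have hz0 : z ≠ 0 := by rintro rfl; simp at hz; linarith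
  have hz2 : z - 1 / 2 ≠ 0 := by
    intro h
    have := congrArg Complex.re h
    norm_num at this
    linarith
  have hz3 : z - 1 / 3 ≠ 0 := by
    intro h
    have := congrArg Complex.re h
    norm_num at this
    linarith
  have n : ∀ k : ℝ, 2 ≤ k → ((k:ℂ) * z) ≠ 1 ∧ 1 < ((k:ℂ) * z).re := by
    intro k hk
    have h1 : 1 < ((k:ℂ) * z).re := by
      rw [Complex.re_ofReal_mul]
      nlinarith
    exact ⟨fun h => by rw [h] at h1; simp at h1, h1⟩
  have n2 := n 2 le_rfl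
  have n3 := n 3 (by norm_num)
  have n6 := n 6 (by norm_num)
  push_cast at n2 n3 n6
  have hzeta6 : riemannZeta (6 * z) ≠ 0 := riemannZeta_ne_zero_of_one_lt_re n6.2
  have hG : GG z = riemannZeta (2 * z) * riemannZeta (3 * z) / riemannZeta (6 * z) / z -
        c₁ / (z - 1 / 2) - c₂ / (z - 1 / 3) := mellin_Delta (by linarith)
  have hT : (z + 1) * TR D1 z = GG z := by
    have h1 : z + 1 ≠ 0 := by
      intro h
      have := congrArg Complex.re h
      simp at this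
      linarith
    have h2 : TR D1 z = GG z / (z + 1) := cesaro hz
    rw [h2]
    field_simp
  rw [hT, hG, ZZ_eq (by linarith [n2.2]) n2.1, ZZ_eq (by linarith [n3.2]) n3.1,
    ZZ_eq (by linarith [n6.2]) n6.1]
  generalize riemannZeta (6 * z) = z6 at hzeta6 ⊢
  generalize riemannZeta (2 * z) = z2
  generalize riemannZeta (3 * z) = z3
  have e2 : 2 * z - 1 = 2 * (z - 1 / 2) := by ring
  have e3 : 3 * z - 1 = 3 * (z - 1 / 3) := by ring
  rw [e2, e3]
  generalize z - 1 / 2 = u at hz2 ⊢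
  generalize z - 1 / 3 = v at hz3 ⊢
  field_simp
  ring

/-- A zero of `ζ` to the right of `6 κ` gives a zero at one half or one third of it. -/
lemma zero_halvesf {κ : ℝ} (hM : MN κ) (h10 : 0 ≤ κ) (hκ : κ < 1) {ρ : ℂ} (hρ : ρ ∈ ntz)
    (h : 6 * κ < ρ.re) :
    ρ / 2 ∈ ntz ∨ ρ / 3 ∈ ntz := by
  have hxi : xiF ρ = 0 := xiF_eq_zero_iff.mpr hρ
  have hZ : ZZ ρ = 0 := by unfold ZZ; rw [hxi, zero_div]
  have hs : κ < (ρ / 6).re := by
    have : (ρ / 6).re = ρ.re / 6 := by simp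
    rw [this]; linarith
  have h1 := identityf hM h10 hκ hs
  have e6 : 6 * (ρ / 6) = ρ := by ring
  have e2 : 2 * (ρ / 6) = ρ / 3 := by ring
  have e3 : 3 * (ρ / 6) = ρ / 2 := by ring
  rw [e6, e2, e3, hZ, mul_zero, zero_mul] at h1
  have hne : ρ - 1 ≠ 0 := by
    intro h2
    have : ρ = 1 := by linear_combination h2
    have h3 := hρ.2.2
    rw [this] at h3
    simp at h3
  have h4 := (mul_eq_zero.mp h1.symm).resolve_left hne
  have key : ∀ z : ℂ, 0 < z.re → ZZ z = 0 → z ∈ ntz := by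
    intro z hz h5
    rw [← xiF_eq_zero_iff]
    unfold ZZ at h5
    have h0 : z ≠ 0 := by rintro rfl; simp at hz
    exact (div_eq_zero_iff.mp h5).resolve_right (mul_ne_zero h0 (Gammaℝ_ne_zero_of_re_pos hz))
  have r2 : (ρ / 2).re = ρ.re / 2 := by simp
  have r3 : (ρ / 3).re = ρ.re / 3 := by simp
  rcases mul_eq_zero.mp h4 with h5 | h5
  · exact Or.inr (key _ (by rw [r3]; linarith) h5)
  · exact Or.inl (key _ (by rw [r2]; linarith) h5)

/-- The converse: with no zeros far to the right there are none to the right of `6 κ`. -/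
theorem nzb_of_mn {κ : ℝ} (hM : MN κ) (h10 : 1 / 10 ≤ κ)
    (hR : ∀ s : ℂ, 2 * (1 - 6 * κ) ≤ s.re → s.re < 1 → riemannZeta s ≠ 0) :
    ∀ s : ℂ, 6 * κ < s.re → s.re < 1 → riemannZeta s ≠ 0 := by
  intro ρ h h1 h0
  have hρ : ρ ∈ ntz := ⟨h0, by linarith, h1⟩
  set A : Set ntz := {σ : ntz | 6 * κ < (σ:ℂ).re ∧ |(σ:ℂ).im| ≤ |ρ.im|} with hA
  have hfin : A.Finite := by
    refine (finite_ntz (1 + |ρ.im|)).subset fun σ hσ => ?_
    obtain ⟨h1, h3⟩ := hσ
    have h4 := Complex.norm_le_abs_re_add_abs_im (σ:ℂ)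
    have h6 := σ.2.2.2
    have h5 : |(σ:ℂ).re| ≤ 1 := abs_le.mpr ⟨by linarith, by linarith⟩
    simp only [mem_ofPred_eq]
    linarith
  have hne : A.Nonempty := ⟨⟨ρ, hρ⟩, h, le_rfl⟩
  obtain ⟨a, ha, hmin⟩ := Set.exists_min_image A (fun σ => |(σ:ℂ).im|) hfin hne
  obtain ⟨a1, a3⟩ := ha
  have a2 : (a:ℂ).re < 2 * (1 - 6 * κ) := by
    by_contra hcon
    push Not at hcon
    exact hR a hcon a.2.2.2 a.2.1
  have him : 0 < |(a:ℂ).im| := abs_pos.mpr (ntz_im_ne_zero a.2)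
  have key : ∀ b : ℂ, b ∈ ntz → 6 * κ < b.re → |b.im| ≤ |(a:ℂ).im| / 2 → False := by
    intro b hb b1 b3
    have h1 := hmin ⟨b, hb⟩ ⟨b1, by simp only; linarith⟩
    simp only at h1
    linarith
  rcases zero_halvesf hM (by linarith) (by linarith) a.2 a1 with h2 | h3
  · refine key (1 - (a:ℂ) / 2) (ntz_one_sub.mpr h2) ?_ ?_
    · have : (1 - (a:ℂ) / 2).re = 1 - (a:ℂ).re / 2 := by simp
      rw [this]; linarith
    · have : (1 - (a:ℂ) / 2).im = -((a:ℂ).im / 2) := by simp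
      rw [this, abs_neg, abs_div, abs_of_pos (by norm_num : (0:ℝ) < 2)]
  · refine key (1 - (a:ℂ) / 3) (ntz_one_sub.mpr h3) ?_ ?_
    · have : (1 - (a:ℂ) / 3).re = 1 - (a:ℂ).re / 3 := by simp
      rw [this]; linarith
    · have : (1 - (a:ℂ) / 3).im = -((a:ℂ).im / 3) := by simp
      rw [this, abs_neg, abs_div, abs_of_pos (by norm_num : (0:ℝ) < 3)]
      linarith

/-- No zeros between `3/5` and `4/5`. -/
theorem four_fifths_lef (hM : MN (1 / 10)) {ρ : ℂ} (hρ : ρ ∈ ntz) (h : 3 / 5 < ρ.re) : 4 / 5 ≤ ρ.re := by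
  by_contra hlt
  push Not at hlt
  set A : Set ntz := {σ : ntz | 3 / 5 < (σ:ℂ).re ∧ (σ:ℂ).re < 4 / 5 ∧ |(σ:ℂ).im| ≤ |ρ.im|} with hA
  have hfin : A.Finite := by
    refine (finite_ntz (1 + |ρ.im|)).subset fun σ hσ => ?_
    obtain ⟨h1, h2, h3⟩ := hσ
    have h4 := Complex.norm_le_abs_re_add_abs_im (σ:ℂ)
    have h5 : |(σ:ℂ).re| ≤ 1 := abs_le.mpr ⟨by linarith, by linarith⟩
    simp only [mem_ofPred_eq]
    linarith
  have hne : A.Nonempty := ⟨⟨ρ, hρ⟩, h, hlt, le_rfl⟩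
  obtain ⟨a, ha, hmin⟩ := Set.exists_min_image A (fun σ => |(σ:ℂ).im|) hfin hne
  obtain ⟨a1, a2, a3⟩ := ha
  have him : 0 < |(a:ℂ).im| := abs_pos.mpr (ntz_im_ne_zero a.2)
  have key : ∀ b : ℂ, b ∈ ntz → 3 / 5 < b.re → b.re < 4 / 5 → |b.im| ≤ |(a:ℂ).im| / 2 → False := by
    intro b hb b1 b2 b3
    have h1 := hmin ⟨b, hb⟩ ⟨b1, b2, by simp only; linarith⟩
    simp only at h1
    linarith
  rcases zero_halvesf hM (by norm_num) (by norm_num) a.2 (by linarith) with h2 | h3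
  · refine key (1 - (a:ℂ) / 2) (ntz_one_sub.mpr h2) ?_ ?_ ?_
    · have : (1 - (a:ℂ) / 2).re = 1 - (a:ℂ).re / 2 := by simp
      rw [this]; linarith
    · have : (1 - (a:ℂ) / 2).re = 1 - (a:ℂ).re / 2 := by simp
      rw [this]; linarith
    · have : (1 - (a:ℂ) / 2).im = -((a:ℂ).im / 2) := by simp
      rw [this, abs_neg, abs_div, abs_of_pos (by norm_num : (0:ℝ) < 2)]
  · refine key (1 - (a:ℂ) / 3) (ntz_one_sub.mpr h3) ?_ ?_ ?_
    · have : (1 - (a:ℂ) / 3).re = 1 - (a:ℂ).re / 3 := by simp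
      rw [this]; linarith
    · have : (1 - (a:ℂ) / 3).re = 1 - (a:ℂ).re / 3 := by simp
      rw [this]; linarith
    · have : (1 - (a:ℂ) / 3).im = -((a:ℂ).im / 3) := by simp
      rw [this, abs_neg, abs_div, abs_of_pos (by norm_num : (0:ℝ) < 3)]
      linarith

/-- A zero to the right of `3/5` is twice a zero. -/
theorem half_memf (hM : MN (1 / 10)) {ρ : ℂ} (hρ : ρ ∈ ntz) (h : 3 / 5 < ρ.re) : ρ / 2 ∈ ntz := by
  rcases zero_halvesf hM (by norm_num) (by norm_num) hρ (by linarith) with h2 | h3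
  · exact h2
  · exfalso
    have e : (1 - ρ / 3).re = 1 - ρ.re / 3 := by simp
    have h4 := four_fifths_lef hM (ntz_one_sub.mpr h3) (by rw [e]; linarith [hρ.2.2])
    rw [e] at h4
    linarith

/-- The conclusion for the zeta function. -/
theorem zeros_of_mn (hM : MN (1 / 10)) : ∀ s : ℂ, 3 / 5 < s.re → s.re < 1 → riemannZeta s = 0 →
    4 / 5 ≤ s.re ∧ riemannZeta (s / 2) = 0 := by
  intro s h1 h2 h3
  have hs : s ∈ ntz := ⟨h3, by linarith, h2⟩
  exact ⟨four_fifths_lef hM hs h1, (half_memf hM hs h1).1⟩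

/-- Every zero to the right of `6 κ` is twice or three times a zero. -/
theorem halves_of_mn {κ : ℝ} (hM : MN κ) (h10 : 0 ≤ κ) (hκ : κ < 1) : ∀ s : ℂ,
    6 * κ < s.re → s.re < 1 → riemannZeta s = 0 →
    riemannZeta (s / 2) = 0 ∨ riemannZeta (s / 3) = 0 := by
  intro s h1 h2 h3
  have hs : s ∈ ntz := ⟨h3, by linarith, h2⟩
  rcases zero_halvesf hM h10 hκ hs h1 with h | h
  · exact Or.inl h.1
  · exact Or.inr h.1

/-- The pointwise bound implies the bound for the first mean. -/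
theorem mn_of_pointwise {κ : ℝ} (h0 : 0 ≤ κ) (hP : ∀ ε : ℝ, 0 < ε → ∃ C : ℝ, ∀ x : ℝ, 1 ≤ x →
    |Delta x| ≤ C * x ^ (κ + ε)) : MN κ := by
  intro ε hε
  obtain ⟨C, hC⟩ := hP ε hε
  have hC0 : 0 ≤ C := by
    have h := hC 1 le_rfl
    rw [Real.one_rpow, mul_one] at h
    exact (abs_nonneg _).trans h
  refine ⟨C, fun X hX => ?_⟩
  have hX0 : 0 < X := by linarith
  have h1 : ‖∫ x in (1:ℝ)..X, Delta x‖ ≤ C * X ^ (κ + ε) * |X - 1| := by
    refine intervalIntegral.norm_integral_le_of_norm_le_const fun x hx => ?_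
    rw [uIoc_of_le hX] at hx
    have hx0 : 0 < x := lt_trans zero_lt_one hx.1
    refine (hC x hx.1.le).trans ?_
    gcongr
    exact hx.2
  rw [Real.norm_eq_abs] at h1
  refine h1.trans ?_
  rw [abs_of_nonneg (by linarith)]
  calc C * X ^ (κ + ε) * (X - 1) ≤ C * X ^ (κ + ε) * X := by
        gcongr
        linarith
    _ = C * X ^ (1 + κ + ε) := by
        rw [mul_assoc, ← Real.rpow_add_one hX0.ne']
        congr 2
        ring

/-- The mean square bound gives a small exceptional set. -/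
theorem exc2_of_mst {κ : ℝ} (hM : MSt κ) (h10 : 1 / 10 ≤ κ) {ε δ : ℝ} (hε1 : ε ≤ 1 / 2)
    (hδ : 0 < δ) :
    ∃ C : ℝ, ∀ X : ℝ, 1 ≤ X →
      (volume {x : ℝ | 1 ≤ x ∧ x ≤ X ∧ x ^ (κ + ε) < |Delta x|}).toReal ≤ C * X ^ (1 - 2 * ε + δ) := by
  have hI := integrableOn_sqt hM h10 (p := 1 + 2 * κ + δ) (by linarith)
  set J := ∫ x in Ioi (1:ℝ), Delta x ^ 2 * x ^ (-(1 + 2 * κ + δ)) with hJ
  have hnn : ∀ x : ℝ, x ∈ Ioi (1:ℝ) → 0 ≤ Delta x ^ 2 * x ^ (-(1 + 2 * κ + δ)) := by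
    intro x hx
    have : (0:ℝ) < x := lt_trans zero_lt_one hx
    positivity
  refine ⟨J, fun X hX => ?_⟩
  have hX0 : 0 < X := by linarith
  set E := {x : ℝ | 1 ≤ x ∧ x ≤ X ∧ x ^ (κ + ε) < |Delta x|} with hE
  have hmeasE : MeasurableSet E := by
    have h1 : MeasurableSet {x : ℝ | x ^ (κ + ε) < |Delta x|} :=
      measurableSet_lt (measurable_id.pow_const _) (measurable_Delta.abs)
    exact (measurableSet_le measurable_const measurable_id).inter
      ((measurableSet_le measurable_id measurable_const).inter h1)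
  have hEE : (volume E).toReal = (volume (E ∩ Ioc 1 X)).toReal := by
    congr 1
    refine measure_congr ?_
    have h1 : ∀ᵐ x : ℝ, x ≠ 1 := by
      rw [ae_iff]
      simp
    filter_upwards [h1] with x hx
    refine propext ⟨fun h => ⟨h, ?_⟩, fun h => h.1⟩
    exact ⟨lt_of_le_of_ne h.1 (Ne.symm hx), h.2.1⟩
  have hfin : volume (E ∩ Ioc 1 X) ≠ ⊤ :=
    measure_ne_top_of_subset inter_subset_right (by simp)
  have h1 : X ^ (2 * ε - 1 - δ) * (volume (E ∩ Ioc 1 X)).toReal ≤ J := by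
    have h2 : X ^ (2 * ε - 1 - δ) * (volume (E ∩ Ioc 1 X)).toReal =
        ∫ x in E ∩ Ioc 1 X, X ^ (2 * ε - 1 - δ) := by
      rw [setIntegral_const, smul_eq_mul, mul_comm]
      rfl
    rw [h2]
    have h3 : ∫ x in E ∩ Ioc 1 X, X ^ (2 * ε - 1 - δ) ≤
        ∫ x in E ∩ Ioc 1 X, Delta x ^ 2 * x ^ (-(1 + 2 * κ + δ)) := by
      refine setIntegral_mono_on ?_ ?_ (hmeasE.inter measurableSet_Ioc) ?_
      · exact integrableOn_const hfin
      · exact hI.mono_set fun x hx => hx.2.1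
      · rintro x ⟨hxE, hx⟩
        have hx0 : 0 < x := lt_trans zero_lt_one hx.1
        have h4 : (x ^ (κ + ε)) ^ 2 ≤ Delta x ^ 2 := by
          rw [← sq_abs (Delta x)]
          exact pow_le_pow_left₀ (by positivity) hxE.2.2.le 2
        have h5 : X ^ (2 * ε - 1 - δ) ≤ x ^ (2 * ε - 1 - δ) :=
          Real.rpow_le_rpow_of_nonpos hx0 hx.2 (by linarith)
        have h6 : x ^ (2 * ε - 1 - δ) ≤ (x ^ (κ + ε)) ^ 2 * x ^ (-(1 + 2 * κ + δ)) := by
          rw [← Real.rpow_natCast, ← Real.rpow_mul hx0.le, ← Real.rpow_add hx0]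
          refine Real.rpow_le_rpow_of_exponent_le hx.1.le ?_
          push_cast
          linarith
        exact h5.trans (h6.trans (mul_le_mul_of_nonneg_right h4 (by positivity)))
    refine h3.trans (setIntegral_mono_set hI ?_ (Eventually.of_forall fun x hx => hx.2.1))
    exact (ae_restrict_iff' measurableSet_Ioi).mpr (Eventually.of_forall hnn)
  rw [hEE]
  have h7 : X ^ (2 * ε - 1 - δ) * X ^ (1 - 2 * ε + δ) = 1 := by
    rw [← Real.rpow_add hX0]
    have : 2 * ε - 1 - δ + (1 - 2 * ε + δ) = 0 := by ring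
    rw [this, Real.rpow_zero]
  calc (volume (E ∩ Ioc 1 X)).toReal
      = (X ^ (2 * ε - 1 - δ) * (volume (E ∩ Ioc 1 X)).toReal) * X ^ (1 - 2 * ε + δ) := by
        linear_combination (-(volume (E ∩ Ioc 1 X)).toReal) * h7
    _ ≤ J * X ^ (1 - 2 * ε + δ) := mul_le_mul_of_nonneg_right h1 (by positivity)

end Pool.Agent.SqF9
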