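import Pool.Agent.SqF9.Chi

/-!
# The factor of the functional equation in the strip `0 < Re s ≤ 1 / 2`, from below
-/

set_option autoImplicit false

open Complex Filter Topology Set Pool.Agent.Hadamard Pool.Agent.ANT Pool.Agent.SqFull

namespace Pool.Agent.SqF9

lemma norm_Gamma_sq_low {t : ℝ} (ht : t ≠ 0) : ‖Complex.Gamma (1 + t * I)‖ ^ 2 =
    |t| * (Real.pi / (2 * |Real.sinh (Real.pi * t / 2)| * Real.cosh (Real.pi * t / 2))) := by
  have h1 := Complex.Gamma_mul_Gamma_one_sub (t * I)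
  have h2 : Complex.sin (Real.pi * (t * I)) = (Real.sinh (Real.pi * t) : ℂ) * I := by
    rw [← mul_assoc, Complex.sin_mul_I]
    push_cast
    rfl
  have h3 : ‖Complex.Gamma (1 + t * I)‖ = |t| * ‖Complex.Gamma (t * I)‖ := by
    rw [add_comm, Complex.Gamma_add_one _ (by simpa using ht), norm_mul]
    simp
  have h3' : ‖Complex.Gamma (1 - t * I)‖ = ‖Complex.Gamma (1 + t * I)‖ := by
    have e1 : (1 - t * I : ℂ) = (starRingEnd ℂ) (1 + t * I) := by
      simp [Complex.conj_I]; ring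
    rw [e1, Complex.Gamma_conj, Complex.norm_conj]
  set S := |Real.sinh (Real.pi * t / 2)| with hS
  set Ch := Real.cosh (Real.pi * t / 2) with hCh
  have hCp : 0 < Ch := Real.cosh_pos _
  have h4 : |Real.sinh (Real.pi * t)| = 2 * S * Ch := by
    have : Real.pi * t = 2 * (Real.pi * t / 2) := by ring
    rw [this, Real.sinh_two_mul, abs_mul, abs_mul, abs_of_pos hCp,
      abs_of_pos (by norm_num : (0:ℝ) < 2)]
  have h5 : ‖Complex.Gamma (t * I)‖ * ‖Complex.Gamma (1 - t * I)‖ = Real.pi / (2 * S * Ch) := by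
    rw [← norm_mul, h1, h2, norm_div, norm_mul, Complex.norm_I, mul_one, Complex.norm_real,
      Complex.norm_real, Real.norm_eq_abs, Real.norm_eq_abs, h4, abs_of_pos Real.pi_pos]
  rw [← h5, sq, h3']
  nth_rewrite 1 [h3]
  ring

/-- the line `Re s = 0` -/
theorem low_zero (t : ℝ) :
    ‖Complex.Gamma (1 + t * I)‖ * ‖Complex.cos (Real.pi * (t * I) / 2)‖ ≤
      2 * (|t| + 2) ^ (1 / 2 : ℝ) := by
  have e1 : ((Real.pi:ℂ) * (t * I) / 2) = (((Real.pi * t / 2 : ℝ) : ℂ)) * I := by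
    push_cast; ring
  have e2 : ‖Complex.cos ((Real.pi:ℂ) * (t * I) / 2)‖ = Real.cosh (Real.pi * t / 2) := by
    rw [e1, Complex.cos_mul_I, ← Complex.ofReal_cosh, Complex.norm_real, Real.norm_eq_abs,
      abs_of_pos (Real.cosh_pos _)]
  rw [e2]
  have hR : 2 * (|t| + 2) ^ (1 / 2 : ℝ) = √(4 * (|t| + 2)) := by
    rw [Real.sqrt_mul (by norm_num), ← Real.sqrt_eq_rpow,
      show (4 : ℝ) = 2 ^ 2 by norm_num, Real.sqrt_sq (by norm_num)]
  rw [hR]
  refine Real.le_sqrt_of_sq_le ?_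
  rcases eq_or_ne t 0 with rfl | ht
  · simp
    norm_num
  rw [mul_pow, norm_Gamma_sq_low ht]
  set x := Real.pi * t / 2 with hx
  set S := |Real.sinh x| with hS
  set Ch := Real.cosh x with hCh
  have hCp : 0 < Ch := Real.cosh_pos _
  have hx0 : x ≠ 0 := by
    have := Real.pi_pos
    rw [hx]
    positivity
  have hSx : |x| ≤ S := by
    rw [hS, Real.abs_sinh]
    exact Real.self_le_sinh_iff.mpr (abs_nonneg x)
  have hSp : 0 < S := lt_of_lt_of_le (abs_pos.mpr hx0) hSx
  have hC1 : Ch ≤ S + 1 := by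
    have h1 : Ch ^ 2 = S ^ 2 + 1 := by
      rw [hCh, hS, sq_abs, Real.cosh_sq]
    nlinarith
  have h7 : |t| * (Real.pi / (2 * S * Ch)) * Ch ^ 2 = |x| * Ch / S := by
    rw [hx, abs_div, abs_mul, abs_of_pos Real.pi_pos, abs_of_pos (by norm_num : (0:ℝ) < 2)]
    field_simp
  rw [h7, div_le_iff₀ hSp]
  have h8 : |x| ≤ 2 * |t| := by
    rw [hx, abs_div, abs_mul, abs_of_pos Real.pi_pos, abs_of_pos (by norm_num : (0:ℝ) < 2)]
    have := Real.pi_lt_four
    nlinarith [abs_nonneg t]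
  calc |x| * Ch ≤ |x| * (S + 1) := by gcongr
    _ = |x| * S + |x| := by ring
    _ ≤ 2 * |t| * S + S := by gcongr
    _ ≤ 4 * (|t| + 2) * S := by nlinarith [abs_nonneg t]

/-- the line `Re s = 1 / 2` -/
theorem low_half (t : ℝ) :
    ‖Complex.Gamma (1 + (1 / 2 + t * I))‖ * ‖Complex.cos (Real.pi * (1 / 2 + t * I) / 2)‖ ≤
      2 * (|t| + 2) := by
  have h1 := chi_half (-t)
  have e1 : (1 - (1 / 2 + ((-t : ℝ) : ℂ) * I) : ℂ) = 1 / 2 + t * I := by push_cast; ring
  rw [e1] at h1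
  have hne : (1 / 2 + t * I : ℂ) ≠ 0 := by
    intro h
    have := congrArg Complex.re h
    norm_num at this
  have h2 : ‖Complex.Gamma (1 + (1 / 2 + t * I))‖ =
      ‖(1 / 2 + t * I : ℂ)‖ * ‖Complex.Gamma (1 / 2 + t * I)‖ := by
    rw [add_comm, Complex.Gamma_add_one _ hne, norm_mul]
  have h3 : ‖(1 / 2 + t * I : ℂ)‖ ≤ |t| + 2 := by
    refine (norm_add_le _ _).trans ?_
    rw [norm_mul, Complex.norm_I, mul_one, Complex.norm_real, Real.norm_eq_abs]
    norm_num
    linarith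
  rw [h2]
  calc ‖(1 / 2 + t * I : ℂ)‖ * ‖Complex.Gamma (1 / 2 + t * I)‖ *
        ‖Complex.cos (Real.pi * (1 / 2 + t * I) / 2)‖
      = ‖(1 / 2 + t * I : ℂ)‖ * (‖Complex.Gamma (1 / 2 + t * I)‖ *
        ‖Complex.cos (Real.pi * (1 / 2 + t * I) / 2)‖) := by ring
    _ ≤ (|t| + 2) * 2 := by gcongr
    _ = _ := by ring

/-- The factor of the functional equation to the left of the critical line, from below. -/
theorem chi_ge : ∃ c : ℝ, 0 < c ∧ ∀ s : ℂ, 0 < s.re → s.re ≤ 1 / 2 → 1 ≤ |s.im| →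
    c * (|s.im| + 2) ^ (1 / 2 - s.re) ≤
      2 * (2 * Real.pi) ^ (s.re - 1) * ‖Complex.Gamma (1 - s)‖ *
        ‖Complex.cos (Real.pi * (1 - s) / 2)‖ := by
  obtain ⟨G, hG⟩ := isCompact_Icc.exists_bound_of_continuousOn (s := Icc (1:ℝ) 2)
    (f := Real.Gamma) (fun x hx => (Real.differentiableAt_Gamma (fun m => by
      have h3 : (0:ℝ) ≤ m := Nat.cast_nonneg m
      intro h
      linarith [hx.1])).continuousAt.continuousWithinAt)
  have hG0 : 0 ≤ G := (norm_nonneg _).trans (hG 1 ⟨le_rfl, by norm_num⟩)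
  set g : ℂ → ℂ := fun s => Complex.Gamma (1 + s) * Complex.cos (Real.pi * s / 2) with hg
  have hng : ∀ s, ‖g s‖ = ‖Complex.Gamma (1 + s)‖ * ‖Complex.cos (Real.pi * s / 2)‖ :=
    fun s => norm_mul _ _
  -- a priori
  have hap : ∀ s : ℂ, 0 ≤ s.re → s.re ≤ 1 / 2 → ‖g s‖ ≤ (G + 1) * Real.exp (4 * |s.im|) := by
    intro s h0 h1
    rw [hng]
    have h2 : ‖Complex.Gamma (1 + s)‖ ≤ G := by
      refine (norm_Gamma_le (by simp; linarith)).trans ?_
      refine (le_abs_self _).trans (hG _ ⟨?_, ?_⟩) <;> simp <;> linarith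
    have h4 : ‖Complex.cos (Real.pi * s / 2)‖ ≤ Real.exp (4 * |s.im|) := by
      refine (norm_cos_le _).trans (Real.exp_le_exp.mpr ?_)
      have h5 : (Real.pi * s / 2 : ℂ).im = Real.pi / 2 * s.im := by
        have : (Real.pi * s / 2 : ℂ) = ((Real.pi / 2 : ℝ) : ℂ) * s := by
          push_cast; ring
        rw [this, Complex.im_ofReal_mul]
      rw [h5, abs_mul, abs_of_pos (by positivity)]
      have := Real.pi_lt_four
      nlinarith [abs_nonneg s.im]
    calc ‖Complex.Gamma (1 + s)‖ * ‖Complex.cos (Real.pi * s / 2)‖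
        ≤ (G + 1) * Real.exp (4 * |s.im|) := by
          gcongr
          linarith
      _ = _ := rfl
  set D : ℝ := 4 * Real.exp 1 * 2 with hD
  have hD0 : 0 < D := by positivity
  have key : ∀ z : ℂ, 0 ≤ z.re → z.re ≤ 1 / 2 → ‖g z‖ ≤ D * (|z.im| + 2) ^ (1 / 2 + z.re) := by
    intro z hz0 hzb
    set τ := z.im with hτ
    set T := |τ| + 2 with hT
    have hT1 : 1 ≤ T := by linarith [abs_nonneg τ]
    have hT0 : 0 < T := by linarith
    set f : ℂ → ℂ := fun s => g s * Complex.exp ((s - τ * I) ^ 2) with hf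
    have hnexp : ∀ s : ℂ, ‖Complex.exp ((s - τ * I) ^ 2)‖ =
        Real.exp (s.re ^ 2 - (s.im - τ) ^ 2) := by
      intro s
      rw [Complex.norm_exp]
      congr 1
      simp [sq]
    have hd : DiffContOnCl ℂ f (HadamardThreeLines.verticalStrip 0 (1 / 2)) := by
      have hdiff : ∀ s : ℂ, 0 ≤ s.re → DifferentiableAt ℂ f s := by
        intro s hs
        have h1 : DifferentiableAt ℂ (fun s : ℂ => Complex.Gamma (1 + s)) s := by
          have h2 : DifferentiableAt ℂ Complex.Gamma (1 + s) :=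
            Complex.differentiableAt_Gamma _ (fun m h => by
              have h3 := congrArg Complex.re h
              simp at h3
              have h4 : (0:ℝ) ≤ m := Nat.cast_nonneg m
              linarith)
          exact h2.comp s (by fun_prop)
        have h5 : DifferentiableAt ℂ (fun s : ℂ => Complex.cos (Real.pi * s / 2)) s := by
          fun_prop
        exact (h1.mul h5).mul (by fun_prop)
      refine DifferentiableOn.diffContOnCl fun s hs => (hdiff s ?_).differentiableWithinAt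
      have hcl : IsClosed {s : ℂ | 0 ≤ s.re} :=
        isClosed_le continuous_const Complex.continuous_re
      exact (closure_minimal (fun (s : ℂ) (hs : s ∈ HadamardThreeLines.verticalStrip 0 (1 / 2)) =>
        (le_of_lt hs.1 : (0 : ℝ) ≤ s.re)) hcl) hs
    have hB : BddAbove ((norm ∘ f) '' HadamardThreeLines.verticalClosedStrip 0 (1 / 2)) := by
      refine ⟨(G + 1) * Real.exp (4 * |τ| + 5), ?_⟩
      rintro _ ⟨s, hs, rfl⟩
      have hs0 : 0 ≤ s.re := hs.1
      have hsb : s.re ≤ 1 / 2 := hs.2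
      simp only [Function.comp, hf, norm_mul, hnexp]
      calc ‖g s‖ * Real.exp (s.re ^ 2 - (s.im - τ) ^ 2)
          ≤ ((G + 1) * Real.exp (4 * |s.im|)) * Real.exp (s.re ^ 2 - (s.im - τ) ^ 2) := by
            gcongr
            exact hap s hs0 hsb
        _ = (G + 1) * Real.exp (4 * |s.im| + (s.re ^ 2 - (s.im - τ) ^ 2)) := by
            rw [Real.exp_add]; ring
        _ ≤ (G + 1) * Real.exp (4 * |τ| + 5) := by
            refine mul_le_mul_of_nonneg_left (Real.exp_le_exp.mpr ?_) (by linarith)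
            have h4 : |s.im| ≤ |τ| + |s.im - τ| := by
              have : s.im = τ + (s.im - τ) := by ring
              calc |s.im| = |τ + (s.im - τ)| := by rw [← this]
                _ ≤ _ := abs_add_le _ _
            have h5 : s.re ^ 2 ≤ 1 := by nlinarith
            have h6 : (s.im - τ) ^ 2 = |s.im - τ| ^ 2 := (sq_abs _).symm
            nlinarith [sq_nonneg (|s.im - τ| - 2)]
    have hleft : ∀ s ∈ re ⁻¹' {(0:ℝ)}, ‖f s‖ ≤ D * T ^ (1 / 2 : ℝ) := by
      intro s hs
      have hs0 : s.re = 0 := hs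
      have e1 : s = s.im * I := by
        apply Complex.ext <;> simp [hs0]
      have h4 := low_zero s.im
      rw [← e1, ← hng] at h4
      simp only [hf, norm_mul, hnexp, hs0]
      calc ‖g s‖ * Real.exp (0 ^ 2 - (s.im - τ) ^ 2)
          ≤ (2 * (|s.im| + 2) ^ (1 / 2 : ℝ)) * Real.exp (-(s.im - τ) ^ 2) := by
            have : (0:ℝ) ^ 2 - (s.im - τ) ^ 2 = -(s.im - τ) ^ 2 := by ring
            rw [this]
            gcongr
        _ = 2 * ((|s.im| + 2) ^ (1 / 2 : ℝ) * Real.exp (-(s.im - τ) ^ 2)) := by ring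
        _ ≤ 2 * (4 * T ^ (1 / 2 : ℝ)) :=
            mul_le_mul_of_nonneg_left (rpow_gauss_le (by norm_num) (by norm_num) _ _) (by norm_num)
        _ = (4 * 1 * 2) * T ^ (1 / 2 : ℝ) := by ring
        _ ≤ D * T ^ (1 / 2 : ℝ) := by
            rw [hD]
            gcongr
            exact Real.one_le_exp zero_le_one
    have hright : ∀ s ∈ re ⁻¹' {(1 / 2 : ℝ)}, ‖f s‖ ≤ D * T ^ (1 : ℝ) := by
      intro s hs
      have hs0 : s.re = 1 / 2 := hs
      have e1 : s = 1 / 2 + s.im * I := by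
        apply Complex.ext <;> simp [hs0]
      have h4 := low_half s.im
      rw [← e1, ← hng] at h4
      simp only [hf, norm_mul, hnexp, hs0]
      calc ‖g s‖ * Real.exp ((1 / 2) ^ 2 - (s.im - τ) ^ 2)
          ≤ (2 * (|s.im| + 2) ^ (1 : ℝ)) * (Real.exp 1 * Real.exp (-(s.im - τ) ^ 2)) := by
            rw [Real.rpow_one, ← Real.exp_add]
            gcongr
            norm_num
        _ = 2 * Real.exp 1 * ((|s.im| + 2) ^ (1 : ℝ) * Real.exp (-(s.im - τ) ^ 2)) := by ring
        _ ≤ 2 * Real.exp 1 * (4 * T ^ (1 : ℝ)) :=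
            mul_le_mul_of_nonneg_left (rpow_gauss_le (by norm_num) (by norm_num) _ _)
              (by positivity)
        _ = D * T ^ (1 : ℝ) := by rw [hD]; ring
    have hz : z ∈ HadamardThreeLines.verticalClosedStrip 0 (1 / 2) := ⟨hz0, hzb⟩
    have hmain := HadamardThreeLines.norm_le_interp_of_mem_verticalClosedStrip'
      (by norm_num : (0:ℝ) < 1 / 2) hz hd hB hleft hright
    have e2 : ‖g z‖ ≤ ‖f z‖ := by
      simp only [hf, norm_mul, hnexp]
      have : 1 ≤ Real.exp (z.re ^ 2 - (z.im - τ) ^ 2) := by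
        apply Real.one_le_exp
        rw [← hτ]; nlinarith [sq_nonneg z.re]
      exact le_mul_of_one_le_right (norm_nonneg _) this
    refine e2.trans (hmain.trans (le_of_eq ?_))
    simp only [sub_zero]
    set θ := z.re / (1 / 2) with hθ
    rw [Real.mul_rpow hD0.le (by positivity), Real.mul_rpow hD0.le (by positivity),
      ← Real.rpow_mul hT0.le, ← Real.rpow_mul hT0.le]
    have e3 : D ^ (1 - θ) * T ^ ((1 / 2) * (1 - θ)) * (D ^ θ * T ^ (1 * θ)) =
        (D ^ (1 - θ) * D ^ θ) * (T ^ ((1 / 2) * (1 - θ)) * T ^ (1 * θ)) := by ring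
    rw [e3, ← Real.rpow_add hD0, ← Real.rpow_add hT0]
    have e4 : (1 - θ) + θ = 1 := by ring
    have e5 : (1 / 2) * (1 - θ) + 1 * θ = 1 / 2 + z.re := by rw [hθ]; ring
    rw [e4, e5, Real.rpow_one]
  refine ⟨1 / (6 * D), by positivity, fun s h0 h1 ht => ?_⟩
  have h2 := key s h0.le h1
  rw [hng] at h2
  set T := |s.im| + 2 with hT
  have hT0 : 0 < T := by linarith
  have hs0 : s ≠ 0 := by
    rintro rfl
    simp at h0
  have hns : T / 3 ≤ ‖s‖ := by
    have := Complex.abs_im_le_norm s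
    linarith
  have hG1 : Complex.Gamma s ≠ 0 := Complex.Gamma_ne_zero_of_re_pos h0
  have hG2 : Complex.Gamma (1 - s) ≠ 0 := Complex.Gamma_ne_zero_of_re_pos (by simp; linarith)
  have hrefl := Complex.Gamma_mul_Gamma_one_sub s
  have hsin : Complex.sin (Real.pi * s) ≠ 0 := by
    intro h
    rw [h, div_zero] at hrefl
    exact mul_ne_zero hG1 hG2 hrefl
  have hsin2 : Complex.sin (Real.pi * s) =
      2 * Complex.cos (Real.pi * (1 - s) / 2) * Complex.cos (Real.pi * s / 2) := by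
    have e1 : (Real.pi * s : ℂ) = 2 * (Real.pi * s / 2) := by ring
    have e2 : (Real.pi * (1 - s) / 2 : ℂ) = Real.pi / 2 - Real.pi * s / 2 := by ring
    rw [e2, Complex.cos_pi_div_two_sub]
    nth_rewrite 1 [e1]
    rw [Complex.sin_two_mul]
  have hpi := Real.pi_pos
  -- the product of the two factors is one
  have hprod : ‖Complex.Gamma s‖ * ‖Complex.Gamma (1 - s)‖ * (2 *
      ‖Complex.cos (Real.pi * (1 - s) / 2)‖ * ‖Complex.cos (Real.pi * s / 2)‖) = Real.pi := by
    have e1 : Complex.Gamma s * Complex.Gamma (1 - s) * Complex.sin (Real.pi * s) = Real.pi := by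
      rw [hrefl, div_mul_cancel₀ _ hsin]
    have e2 := congrArg norm e1
    rw [norm_mul, norm_mul, hsin2, norm_mul, norm_mul, Complex.norm_real, Real.norm_eq_abs,
      abs_of_pos hpi, Complex.norm_ofNat] at e2
    exact e2
  have hGs : ‖Complex.Gamma (1 + s)‖ = ‖s‖ * ‖Complex.Gamma s‖ := by
    rw [add_comm, Complex.Gamma_add_one _ hs0, norm_mul]
  -- bound for the other factor
  have hY : ‖Complex.Gamma s‖ * ‖Complex.cos (Real.pi * s / 2)‖ ≤ 3 * D * T ^ (s.re - 1 / 2) := by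
    rw [hGs] at h2
    have h3 : T / 3 * (‖Complex.Gamma s‖ * ‖Complex.cos (Real.pi * s / 2)‖) ≤
        T / 3 * (3 * D * T ^ (s.re - 1 / 2)) := by
      calc T / 3 * (‖Complex.Gamma s‖ * ‖Complex.cos (Real.pi * s / 2)‖)
          ≤ ‖s‖ * (‖Complex.Gamma s‖ * ‖Complex.cos (Real.pi * s / 2)‖) := by gcongr
        _ = ‖s‖ * ‖Complex.Gamma s‖ * ‖Complex.cos (Real.pi * s / 2)‖ := by ring
        _ ≤ D * T ^ (1 / 2 + s.re) := h2
        _ = T / 3 * (3 * D * T ^ (s.re - 1 / 2)) := by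
            have e1 : (1 / 2 + s.re : ℝ) = 1 + (s.re - 1 / 2) := by ring
            rw [e1, Real.rpow_add hT0, Real.rpow_one]
            ring
    exact le_of_mul_le_mul_left h3 (by positivity)
  set a := ‖Complex.Gamma (1 - s)‖ * ‖Complex.cos (Real.pi * (1 - s) / 2)‖ with ha
  set y := ‖Complex.Gamma s‖ * ‖Complex.cos (Real.pi * s / 2)‖ with hy
  have hay : a * y = Real.pi / 2 := by
    rw [ha, hy]
    linarith
  have ha0 : 0 ≤ a := by positivity
  have hTT : T ^ (1 / 2 - s.re) * T ^ (s.re - 1 / 2) = 1 := by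
    rw [← Real.rpow_add hT0]
    have : (1 / 2 - s.re + (s.re - 1 / 2) : ℝ) = 0 := by ring
    rw [this, Real.rpow_zero]
  have h5 : Real.pi / 2 * T ^ (1 / 2 - s.re) ≤ 3 * D * a := by
    calc Real.pi / 2 * T ^ (1 / 2 - s.re) = a * y * T ^ (1 / 2 - s.re) := by rw [hay]
      _ ≤ a * (3 * D * T ^ (s.re - 1 / 2)) * T ^ (1 / 2 - s.re) := by gcongr
      _ = 3 * D * a * (T ^ (1 / 2 - s.re) * T ^ (s.re - 1 / 2)) := by ring
      _ = 3 * D * a := by rw [hTT, mul_one]
  have h6 : 1 / (2 * Real.pi) ≤ (2 * Real.pi) ^ (s.re - 1) := by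
    rw [one_div, ← Real.rpow_neg_one]
    refine Real.rpow_le_rpow_of_exponent_le (by linarith [Real.pi_gt_three]) (by linarith)
  have h7 : T ^ (1 / 2 - s.re) ≤ 6 * D * a / Real.pi := by
    rw [le_div_iff₀ hpi]
    linarith
  calc 1 / (6 * D) * T ^ (1 / 2 - s.re) ≤ 1 / (6 * D) * (6 * D * a / Real.pi) := by gcongr
    _ = 2 * (1 / (2 * Real.pi)) * a := by field_simp
    _ ≤ 2 * (2 * Real.pi) ^ (s.re - 1) * a := by gcongr
    _ = _ := by rw [ha]; ring

end Pool.Agent.SqF9
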