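import Pool.Agent.SqF9.Main3
import Pool.Agent.SqF9.Conv3
import Pool.Agent.SqF9.ChiLow

/-!
# The exponent `1/10` of the mean square cannot be lowered
-/

open Complex Filter Topology Set MeasureTheory Pool.Agent.Hadamard Pool.Agent.ANT
  Pool.Agent.SqFull

namespace Pool.Agent.SqF9

/-! ### The weighted integrals -/

lemma integrableOn_sqp_Ioc {p : ℝ} (hp : 0 ≤ p) {a b : ℝ} (ha : 1 ≤ a) :
    IntegrableOn (fun x : ℝ => Delta x ^ 2 * x ^ (-p)) (Ioc a b) := by
  refine Integrable.mono' (integrableOn_sq0_Ioc (a := a) (b := b) ha) ?_ ?_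
  · exact ((measurable_Delta.pow_const 2).mul
      (measurable_id.pow_const (-p))).aestronglyMeasurable
  · refine (ae_restrict_iff' measurableSet_Ioc).mpr (Eventually.of_forall fun x hx => ?_)
    have hx1 : 1 ≤ x := ha.trans hx.1.le
    have hx0 : 0 < x := by linarith
    rw [Real.norm_eq_abs, abs_of_nonneg (by positivity)]
    exact mul_le_of_le_one_right (sq_nonneg _)
      (Real.rpow_le_one_of_one_le_of_nonpos hx1 (by linarith))

/-- The mean square bound gives the convergence of the weighted integral. -/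
lemma integrableOn_sqG {κ : ℝ} (hM : MSt κ) (h10 : 0 ≤ κ) {p : ℝ} (hp : 1 + 2 * κ < p) :
    IntegrableOn (fun x : ℝ => Delta x ^ 2 * x ^ (-p)) (Ioi 1) := by
  have hp' : 0 ≤ p := by linarith
  set e := (p - (1 + 2 * κ)) / 2 with he
  have he0 : 0 < e := by rw [he]; linarith
  obtain ⟨C, hC⟩ := hM e he0
  have hC0 : 0 ≤ C := by
    have := hC 1 le_rfl
    simpa using this
  set q := 1 + 2 * κ + e with hq
  have hqp : q + e = p := by rw [hq, he]; ring
  set r : ℝ := (2:ℝ) ^ (-e) with hr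
  have hr0 : 0 < r := by rw [hr]; positivity
  have hr1 : r < 1 := by
    rw [hr]
    exact Real.rpow_lt_one_of_one_lt_of_neg (by norm_num) (by linarith)
  set f : ℝ → ℝ := fun x => Delta x ^ 2 * x ^ (-p) with hf
  have hint : ∀ a b : ℝ, 1 ≤ a → a ≤ b → IntervalIntegrable f volume a b := by
    intro a b ha hab
    rw [intervalIntegrable_iff_integrableOn_Ioc_of_le hab]
    exact integrableOn_sqp_Ioc hp' ha
  have hblock : ∀ n : ℕ, ∫ x in (2:ℝ) ^ n..2 ^ (n + 1), f x ≤ C * 2 ^ q * r ^ n := by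
    intro n
    set y : ℝ := 2 ^ n with hy
    have hy1 : 1 ≤ y := one_le_pow₀ (by norm_num)
    have hy0 : 0 < y := by linarith
    have hy2 : (2:ℝ) ^ (n + 1) = 2 * y := by rw [hy, pow_succ]; ring
    rw [hy2]
    have h1 : ∫ x in y..2 * y, f x ≤ ∫ x in y..2 * y, y ^ (-p) * Delta x ^ 2 := by
      refine intervalIntegral.integral_mono_on (by linarith) (hint y (2 * y) hy1 (by linarith)) ?_ ?_
      · rw [intervalIntegrable_iff_integrableOn_Ioc_of_le (by linarith)]
        exact (integrableOn_sq0_Ioc hy1).const_mul _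
      · intro x hx
        have hx0 : 0 < x := lt_of_lt_of_le hy0 hx.1
        have h2 : x ^ (-p) ≤ y ^ (-p) :=
          Real.rpow_le_rpow_of_nonpos hy0 hx.1 (by linarith)
        rw [hf]
        simp only
        rw [mul_comm]
        gcongr
    rw [intervalIntegral.integral_const_mul] at h1
    have h3 : ∫ x in y..2 * y, Delta x ^ 2 ≤ ∫ x in (1:ℝ)..2 * y, Delta x ^ 2 := by
      rw [intervalIntegral.integral_of_le (by linarith), intervalIntegral.integral_of_le (by linarith)]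
      exact setIntegral_mono_set (integrableOn_sq0_Ioc le_rfl)
        (Eventually.of_forall fun x => sq_nonneg _)
        (Ioc_subset_Ioc_left hy1).eventuallyLE
    have h4 := hC (2 * y) (by linarith)
    calc ∫ x in y..2 * y, f x ≤ y ^ (-p) * ∫ x in y..2 * y, Delta x ^ 2 := h1
      _ ≤ y ^ (-p) * (C * (2 * y) ^ q) := by
          gcongr
          exact h3.trans h4
      _ = C * 2 ^ q * (y ^ (-p) * y ^ q) := by
          rw [Real.mul_rpow (by norm_num) hy0.le]; ring
      _ = C * 2 ^ q * r ^ n := by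
          rw [← Real.rpow_add hy0]
          congr 1
          have : -p + q = -e := by linarith
          rw [this, hr, hy, ← Real.rpow_natCast, ← Real.rpow_natCast, ← Real.rpow_mul (by norm_num),
            ← Real.rpow_mul (by norm_num)]
          congr 1
          ring
  have hsum : ∀ n : ℕ, ∫ x in (1:ℝ)..2 ^ n, f x ≤ C * 2 ^ q * ∑ k ∈ Finset.range n, r ^ k := by
    intro n
    induction n with
    | zero => simp
    | succ n ih =>
      have hy1 : (1:ℝ) ≤ 2 ^ n := one_le_pow₀ (by norm_num)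
      have hy2 : (2:ℝ) ^ n ≤ 2 ^ (n + 1) := by
        rw [pow_succ]; linarith
      rw [← intervalIntegral.integral_add_adjacent_intervals (hint 1 _ le_rfl hy1)
        (hint _ _ hy1 hy2), Finset.sum_range_succ, mul_add]
      exact add_le_add ih (hblock n)
  refine integrableOn_Ioi_of_intervalIntegral_norm_bounded (C * 2 ^ q * (1 - r)⁻¹) 1
    (b := fun n : ℕ => (2:ℝ) ^ n) (l := atTop) (fun n => integrableOn_sqp_Ioc hp' le_rfl)
    (tendsto_pow_atTop_atTop_of_one_lt (by norm_num)) (Eventually.of_forall fun n => ?_)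
  have h1 : ∫ x in (1:ℝ)..2 ^ n, ‖f x‖ = ∫ x in (1:ℝ)..2 ^ n, f x := by
    refine intervalIntegral.integral_congr fun x hx => ?_
    have hy1 : (1:ℝ) ≤ 2 ^ n := one_le_pow₀ (by norm_num)
    rw [uIcc_of_le hy1] at hx
    have hx0 : 0 < x := by linarith [hx.1]
    simp only [hf]
    rw [Real.norm_eq_abs, abs_of_nonneg (by positivity)]
  rw [h1]
  refine (hsum n).trans ?_
  gcongr
  rw [← tsum_geometric_of_lt_one hr0.le hr1]
  exact (summable_geometric_of_lt_one hr0.le hr1).sum_le_tsum _ (fun _ _ => by positivity)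

lemma integrableOn_absG {κ : ℝ} (hM : MSt κ) (h10 : 0 ≤ κ) {σ : ℝ} (hσ : κ < σ) :
    IntegrableOn (fun x : ℝ => |Delta x| * x ^ (-(σ + 1))) (Ioi 1) := by
  set τ := (σ + κ) / 2 with hτ
  have h1 := integrableOn_sqG hM h10 (p := 2 * τ + 1) (by rw [hτ]; linarith)
  have h2 : IntegrableOn (fun x : ℝ => x ^ (2 * τ - 2 * σ - 1)) (Ioi 1) :=
    integrableOn_Ioi_rpow_of_lt (by rw [hτ]; linarith) zero_lt_one
  refine Integrable.mono' (h1.add h2) ?_ ?_
  · exact ((measurable_Delta.abs).mul (measurable_id.pow_const (-(σ + 1)))).aestronglyMeasurable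
  · refine (ae_restrict_iff' measurableSet_Ioi).mpr (Eventually.of_forall fun x hx => ?_)
    have hx0 : 0 < x := lt_trans zero_lt_one hx
    rw [Real.norm_eq_abs, abs_of_nonneg (by positivity)]
    simp only [Pi.add_apply]
    have e1 : x ^ (-(2 * τ + 1)) = (x ^ (-(τ + 1 / 2))) ^ 2 := by
      rw [← Real.rpow_natCast, ← Real.rpow_mul hx0.le]
      congr 1
      push_cast; ring
    have e2 : x ^ (2 * τ - 2 * σ - 1) = (x ^ (τ - σ - 1 / 2)) ^ 2 := by
      rw [← Real.rpow_natCast, ← Real.rpow_mul hx0.le]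
      congr 1
      push_cast; ring
    have e3 : x ^ (-(σ + 1)) = x ^ (-(τ + 1 / 2)) * x ^ (τ - σ - 1 / 2) := by
      rw [← Real.rpow_add hx0]
      congr 1
      ring
    rw [e1, e2, e3, ← sq_abs (Delta x), ← mul_pow]
    set a := |Delta x| * x ^ (-(τ + 1 / 2)) with ha
    set b := x ^ (τ - σ - 1 / 2) with hb
    have : |Delta x| * (x ^ (-(τ + 1 / 2)) * b) = a * b := by rw [ha]; ring
    rw [this]
    nlinarith [sq_nonneg (a - b), sq_nonneg (a + b)]

/-! ### The transform -/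

/-- The transform of `Δ` is `K` as far as the mean square bound and the zero-free half plane
reach. -/
lemma TR_eq_KK {b κ : ℝ} (hb0 : 1 / 2 ≤ b) (hb1 : b < 1) (h : NZb b) (hM : MSt κ) (h0 : 0 ≤ κ)
    (hκ : κ < 1) {s : ℂ} (hs1 : κ < s.re) (hs2 : b / 6 < s.re) : TR Delta s = KK s := by
  set m := max κ (b / 6) with hm
  have hm1 : m < 1 := max_lt hκ (by linarith)
  have hU : IsPreconnected {z : ℂ | m < z.re} := (convex_halfSpace_re_gt _).isPreconnected
  have hO : IsOpen {z : ℂ | m < z.re} := isOpen_lt continuous_const Complex.continuous_re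
  have hf : AnalyticOnNhd ℂ (TR Delta) {z : ℂ | m < z.re} := by
    refine DifferentiableOn.analyticOnNhd (fun z hz => ?_) hO
    have hz' : m < z.re := hz
    exact (TR_differentiableAt measurable_Delta.aestronglyMeasurable
      (fun _ hσ => integrableOn_absG hM h0 hσ)
      (lt_of_le_of_lt (le_max_left _ _) hz')).differentiableWithinAt
  have hg : AnalyticOnNhd ℂ KK {z : ℂ | m < z.re} := by
    refine DifferentiableOn.analyticOnNhd (fun z hz => ?_) hO
    have hz' : m < z.re := hz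
    exact (KK_differentiableAt9 hb0 hb1 h
      (lt_of_le_of_lt (le_max_right _ _) hz')).differentiableWithinAt
  have h2 : (2:ℂ) ∈ {z : ℂ | m < z.re} := by
    simp only [mem_ofPred_eq, Complex.re_ofNat]
    linarith
  refine hf.eqOn_of_preconnected_of_eventuallyEq hg hU h2 ?_ (max_lt hs1 hs2)
  have h3 : ∀ᶠ z : ℂ in 𝓝 2, 1 < z.re := by
    refine (isOpen_lt continuous_const Complex.continuous_re).mem_nhds ?_
    simp
  filter_upwards [h3] with z hz
  have hne : ∀ x : ℝ, x ≤ 1 → z ≠ (x : ℂ) := by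
    rintro x hx rfl
    simp at hz
    linarith
  have n2 : z ≠ 1 / 2 := by have := hne (1 / 2) (by norm_num); push_cast at this; exact this
  have n3 : z ≠ 1 / 3 := by have := hne (1 / 3) (by norm_num); push_cast at this; exact this
  have n6 : z ≠ 1 / 6 := by have := hne (1 / 6) (by norm_num); push_cast at this; exact this
  rw [KK_eq9 hb0 hb1 h (by linarith) n2 n3 n6]
  exact mellin_Delta (by linarith)

/-- The function in logarithmic variables, with any weight. -/
noncomputable def wws (σ : ℝ) (v : ℝ) : ℂ :=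
  indicator (Ioi (0:ℝ)) (fun v => ((Delta (Real.exp v) * Real.exp (-σ * v) : ℝ) : ℂ)) v

lemma measurable_wws (σ : ℝ) : Measurable (wws σ) := by
  unfold wws
  refine Measurable.indicator ?_ measurableSet_Ioi
  refine Complex.measurable_ofReal.comp ?_
  refine (measurable_Delta.comp Real.measurable_exp).mul ?_
  exact Real.measurable_exp.comp (measurable_const.mul measurable_id)

lemma integrable_wws {σ : ℝ}
    (hI : IntegrableOn (fun x : ℝ => |Delta x| * x ^ (-(σ + 1))) (Ioi 1)) :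
    Integrable (wws σ) := by
  rw [← image_exp_Ioi, integrableOn_image_iff_integrableOn_abs_deriv_smul (f' := Real.exp)
    measurableSet_Ioi (fun x _ => (Real.hasDerivAt_exp x).hasDerivWithinAt)
    Real.exp_injective.injOn] at hI
  have h1 : Integrable (indicator (Ioi (0:ℝ)) (fun v : ℝ =>
      |Real.exp v| • (|Delta (Real.exp v)| * Real.exp v ^ (-(σ + 1))))) := by
    rw [integrable_indicator_iff measurableSet_Ioi]
    exact hI
  refine h1.mono' (measurable_wws σ).aestronglyMeasurable (Eventually.of_forall fun v => ?_)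
  unfold wws
  by_cases hv : v ∈ Ioi (0:ℝ)
  · rw [indicator_of_mem hv, indicator_of_mem hv, Complex.norm_real, Real.norm_eq_abs, abs_mul,
      abs_of_pos (Real.exp_pos _), abs_of_pos (Real.exp_pos _), smul_eq_mul, ← Real.exp_mul]
    have e1 : Real.exp v * (|Delta (Real.exp v)| * Real.exp (v * -(σ + 1))) =
        |Delta (Real.exp v)| * (Real.exp v * Real.exp (v * -(σ + 1))) := by ring
    rw [e1, ← Real.exp_add]
    refine le_of_eq ?_
    congr 2
    ring
  · rw [indicator_of_notMem hv, indicator_of_notMem hv]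
    simp

lemma integrable_wws_sq {σ : ℝ}
    (hI : IntegrableOn (fun x : ℝ => Delta x ^ 2 * x ^ (-(2 * σ + 1))) (Ioi 1)) :
    Integrable (fun v => ‖wws σ v‖ ^ 2) := by
  rw [← image_exp_Ioi, integrableOn_image_iff_integrableOn_abs_deriv_smul (f' := Real.exp)
    measurableSet_Ioi (fun x _ => (Real.hasDerivAt_exp x).hasDerivWithinAt)
    Real.exp_injective.injOn] at hI
  have h1 : Integrable (indicator (Ioi (0:ℝ)) (fun v : ℝ =>
      |Real.exp v| • (Delta (Real.exp v) ^ 2 * Real.exp v ^ (-(2 * σ + 1))))) := by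
    rw [integrable_indicator_iff measurableSet_Ioi]
    exact hI
  refine h1.mono' ((measurable_wws σ).norm.pow_const 2).aestronglyMeasurable
    (Eventually.of_forall fun v => ?_)
  unfold wws
  rw [Real.norm_eq_abs, abs_of_nonneg (by positivity)]
  by_cases hv : v ∈ Ioi (0:ℝ)
  · rw [indicator_of_mem hv, indicator_of_mem hv, Complex.norm_real, Real.norm_eq_abs, sq_abs,
      abs_of_pos (Real.exp_pos _), smul_eq_mul, ← Real.exp_mul, mul_pow]
    have e1 : Real.exp v * (Delta (Real.exp v) ^ 2 * Real.exp (v * -(2 * σ + 1))) =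
        Delta (Real.exp v) ^ 2 * (Real.exp v * Real.exp (v * -(2 * σ + 1))) := by ring
    rw [e1, ← Real.exp_add, sq (Real.exp (-σ * v)), ← Real.exp_add]
    refine le_of_eq ?_
    congr 2
    ring
  · rw [indicator_of_notMem hv, indicator_of_notMem hv]
    simp

lemma wws_transform (σ t : ℝ) :
    ∫ v : ℝ, cexp (2 * Real.pi * I * t * v) * wws σ v =
      TR Delta ((σ : ℂ) + ((-(2 * Real.pi * t) : ℝ) : ℂ) * I) := by
  have h1 : ∫ v : ℝ, cexp (2 * Real.pi * I * t * v) * wws σ v =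
      ∫ v in Ioi (0:ℝ), cexp (2 * Real.pi * I * t * v) *
      ((Delta (Real.exp v) * Real.exp (-σ * v) : ℝ) : ℂ) := by
    rw [← integral_indicator measurableSet_Ioi]
    refine integral_congr_ae (Eventually.of_forall fun v => ?_)
    unfold wws
    by_cases hv : v ∈ Ioi (0:ℝ)
    · simp only [indicator_of_mem hv]
    · simp only [indicator_of_notMem hv, mul_zero]
  unfold TR
  rw [h1, ← image_exp_Ioi, integral_image_eq_integral_abs_deriv_smul (f' := Real.exp)
    measurableSet_Ioi (fun x _ => (Real.hasDerivAt_exp x).hasDerivWithinAt)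
    Real.exp_injective.injOn]
  refine setIntegral_congr_fun measurableSet_Ioi fun v _ => ?_
  have hne : ((Real.exp v : ℝ) : ℂ) ≠ 0 := by exact_mod_cast (Real.exp_pos v).ne'
  have e1 : ((Real.exp v : ℝ) : ℂ) ^ (-(((σ : ℂ) + ((-(2 * Real.pi * t) : ℝ) : ℂ) * I) + 1)) =
      cexp (v * (-(((σ : ℂ) + ((-(2 * Real.pi * t) : ℝ) : ℂ) * I) + 1))) := by
    rw [Complex.cpow_def_of_ne_zero hne, ← Complex.ofReal_log (Real.exp_pos v).le, Real.log_exp]
  simp only [abs_of_pos (Real.exp_pos v), Complex.real_smul]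
  rw [e1]
  push_cast
  have e2 : cexp (v:ℂ) * ((Delta (Real.exp v) : ℂ) *
      cexp (v * (-((σ + -(2 * Real.pi * t) * I : ℂ) + 1)))) =
      (Delta (Real.exp v) : ℂ) * (cexp (v:ℂ) *
        cexp (v * (-((σ + -(2 * Real.pi * t) * I : ℂ) + 1)))) := by ring
  rw [e2, ← Complex.exp_add]
  have e3 : cexp (2 * Real.pi * I * t * v) * ((Delta (Real.exp v) : ℂ) * cexp (-σ * v)) =
      (Delta (Real.exp v) : ℂ) * (cexp (2 * Real.pi * I * t * v) * cexp (-σ * v)) := by ring
  rw [e3, ← Complex.exp_add]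
  congr 2
  ring

/-! ### Lower bounds -/

/-- `ζ` to the left of the critical line, from below. -/
lemma zeta_left_low {b : ℝ} (hb0 : 1 / 2 ≤ b) (hb1 : b < 1) (h : NZb b) {x0 ε : ℝ}
    (h0 : 0 < x0) (h1 : x0 ≤ 1 / 2) (h2 : b < 1 - x0) (hε : 0 < ε) :
    ∃ c : ℝ, 0 < c ∧ ∀ s : ℂ, s.re = x0 → 1 ≤ |s.im| →
      c * (|s.im| + 2) ^ (1 / 2 - x0 - ε) ≤ ‖riemannZeta s‖ := by
  obtain ⟨c, hc, H⟩ := chi_ge
  obtain ⟨C, hC, H6⟩ := zeta_lower9 hb0 hb1 h (x1 := 1 - x0) (ε := ε) h2 hε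
  refine ⟨c / C, by positivity, fun s hs ht => ?_⟩
  set T := |s.im| + 2 with hT
  have hT0 : 0 < T := by linarith
  have hs0 : s ≠ 0 := by
    rintro rfl; simp at ht; linarith
  have him : |(1 - s).im| = |s.im| := by simp
  have h3 := H s (by linarith) (by linarith) ht
  have h4 := H6 (1 - s) (by simp [hs]) (by rw [him]; exact ht)
  rw [him, ← hT] at h4
  have hz : riemannZeta (1 - s) ≠ 0 := by
    refine h (1 - s) ?_ ?_
    · simp only [sub_re, one_re, hs]; linarith
    · simp only [sub_re, one_re, hs]; linarith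
  have hz0 : 0 < ‖riemannZeta (1 - s)‖ := norm_pos_iff.mpr hz
  have h5 : 1 ≤ C * T ^ ε * ‖riemannZeta (1 - s)‖ := by
    calc (1:ℝ) = ‖riemannZeta (1 - s)‖⁻¹ * ‖riemannZeta (1 - s)‖ := by
          rw [inv_mul_cancel₀ hz0.ne']
      _ ≤ C * T ^ ε * ‖riemannZeta (1 - s)‖ := by gcongr
  rw [norm_zeta_fe hs0 (by linarith)]
  set X := 2 * (2 * Real.pi) ^ (s.re - 1) * ‖Complex.Gamma (1 - s)‖ *
    ‖Complex.cos (Real.pi * (1 - s) / 2)‖ with hX
  have hX0 : 0 ≤ X := by positivity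
  have e1 : T ^ (1 / 2 - x0 - ε) * T ^ ε = T ^ (1 / 2 - s.re) := by
    rw [← Real.rpow_add hT0, hs]
    congr 1
    ring
  have h6 : c * T ^ (1 / 2 - x0 - ε) * T ^ ε ≤ (C * X * ‖riemannZeta (1 - s)‖) * T ^ ε := by
    calc c * T ^ (1 / 2 - x0 - ε) * T ^ ε = c * T ^ (1 / 2 - s.re) := by rw [← e1]; ring
      _ ≤ X := h3
      _ = X * 1 := (mul_one _).symm
      _ ≤ X * (C * T ^ ε * ‖riemannZeta (1 - s)‖) := by gcongr
      _ = _ := by ring
  have h7 : c * T ^ (1 / 2 - x0 - ε) ≤ C * X * ‖riemannZeta (1 - s)‖ :=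
    le_of_mul_le_mul_right h6 (by positivity)
  rw [div_mul_eq_mul_div, div_le_iff₀ hC]
  linarith

/-- The transform is not small on the lines to the left of `1/10`. -/
lemma KK_low {b : ℝ} (hb0 : 1 / 2 ≤ b) (hb1 : b < 3 / 5) (h : NZb b) {σ : ℝ}
    (h1 : b / 6 < σ) (h2 : σ < 1 / 10) :
    ∃ c T0 : ℝ, 0 < c ∧ 1 ≤ T0 ∧ ∀ s : ℂ, s.re = σ → T0 ≤ |s.im| →
      c / |s.im| ≤ ‖KK s‖ ^ 2 := by
  have hb1' : b < 1 := by linarith
  set ε := (1 / 2 - 5 * σ) / 4 with hε
  have hε0 : 0 < ε := by rw [hε]; linarith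
  have hε1 : ε ≤ 1 / 48 := by rw [hε]; linarith
  obtain ⟨c2, hc2, H2⟩ := zeta_left_low hb0 hb1' h (x0 := 2 * σ) (ε := ε) (by linarith)
    (by linarith) (by linarith) hε0
  obtain ⟨c3, hc3, H3⟩ := zeta_left_low hb0 hb1' h (x0 := 3 * σ) (ε := ε) (by linarith)
    (by linarith) (by linarith) hε0
  obtain ⟨C6, hC6, H6⟩ := zeta_upper9 hb0 hb1' h (x0 := 6 * σ) (μ := 0) (ε := ε) (by linarith)
    le_rfl (by linarith) (by linarith) hε0 (by linarith)
  set a := c2 * c3 / (C6 * 6 ^ ε) with ha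
  have ha0 : 0 < a := by positivity
  set A := 3 * (‖c₁‖ + ‖c₂‖) with hA
  have hA0 : 0 ≤ A := by positivity
  refine ⟨a ^ 2 / 12, (2 * A / a) ^ 2 + 1, by positivity,
    by nlinarith [sq_nonneg (2 * A / a)], fun s hs hts => ?_⟩
  have ht : 1 ≤ |s.im| := by nlinarith [sq_nonneg (2 * A / a)]
  set T := |s.im| + 2 with hT
  have hT0 : 0 < T := by linarith
  have hT1 : 1 ≤ T := by linarith
  have i2 : |(2 * s).im| = 2 * |s.im| := by simp [abs_mul]
  have i3 : |(3 * s).im| = 3 * |s.im| := by simp [abs_mul]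
  have i6 : |(6 * s).im| = 6 * |s.im| := by simp [abs_mul]
  have b2 := H2 (2 * s) (by simp [hs]) (by rw [i2]; linarith)
  have b3 := H3 (3 * s) (by simp [hs]) (by rw [i3]; linarith)
  have b6 := H6 (6 * s) (by simp [hs]) (by rw [i6]; linarith)
  rw [i2] at b2
  rw [i3] at b3
  rw [i6, zero_add] at b6
  have g2 : c2 * T ^ (1 / 2 - 2 * σ - ε) ≤ ‖riemannZeta (2 * s)‖ := by
    refine le_trans ?_ b2
    exact mul_le_mul_of_nonneg_left (Real.rpow_le_rpow hT0.le (by rw [hT]; linarith)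
      (by linarith)) hc2.le
  have g3 : c3 * T ^ (1 / 2 - 3 * σ - ε) ≤ ‖riemannZeta (3 * s)‖ := by
    refine le_trans ?_ b3
    exact mul_le_mul_of_nonneg_left (Real.rpow_le_rpow hT0.le (by rw [hT]; linarith)
      (by linarith)) hc3.le
  have g6 : ‖riemannZeta (6 * s)‖ ≤ C6 * 6 ^ ε * T ^ ε := by
    refine b6.trans ?_
    rw [mul_assoc, ← Real.mul_rpow (by norm_num) hT0.le]
    gcongr
    rw [hT]; linarith
  have him : s.im ≠ 0 := by
    intro h'; rw [h'] at ht; simp at ht; linarith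
  have hne : ∀ x : ℝ, s ≠ (x : ℂ) := by
    rintro x rfl
    exact him (by simp)
  have n2 : s ≠ 1 / 2 := by have := hne (1 / 2); push_cast at this; exact this
  have n3 : s ≠ 1 / 3 := by have := hne (1 / 3); push_cast at this; exact this
  have n6 : s ≠ 1 / 6 := by have := hne (1 / 6); push_cast at this; exact this
  have hz6 : 0 < ‖riemannZeta (6 * s)‖ := by
    refine norm_pos_iff.mpr (h (6 * s) ?_ ?_)
    · simp only [mul_re, re_ofNat, im_ofNat, zero_mul, sub_zero, hs]; linarith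
    · simp only [mul_re, re_ofNat, im_ofNat, zero_mul, sub_zero, hs]; linarith
  have hnorm : ∀ x : ℝ, T / 3 ≤ ‖s - x‖ := by
    intro x
    have := Complex.abs_im_le_norm (s - x)
    simp only [sub_im, ofReal_im, sub_zero] at this
    linarith
  have hn2 : T / 3 ≤ ‖s - 1 / 2‖ := by have := hnorm (1 / 2); push_cast at this; exact this
  have hn3 : T / 3 ≤ ‖s - 1 / 3‖ := by have := hnorm (1 / 3); push_cast at this; exact this
  have hsT : ‖s‖ ≤ T := by
    refine (Complex.norm_le_abs_re_add_abs_im s).trans ?_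
    rw [hs, abs_of_pos (by linarith)]
    linarith
  have hs0 : 0 < ‖s‖ := by
    have := Complex.abs_im_le_norm s
    linarith
  -- the main term
  have hmain : a * T ^ (-(1 / 2) : ℝ) ≤
      ‖riemannZeta (2 * s) * riemannZeta (3 * s) / riemannZeta (6 * s) / s‖ := by
    rw [norm_div, norm_div, norm_mul, le_div_iff₀ hs0, le_div_iff₀ hz6]
    calc a * T ^ (-(1 / 2) : ℝ) * ‖s‖ * ‖riemannZeta (6 * s)‖
        ≤ a * T ^ (-(1 / 2) : ℝ) * T * (C6 * 6 ^ ε * T ^ ε) := by gcongr
      _ = c2 * c3 * (T ^ (-(1 / 2) : ℝ) * T ^ (1 : ℝ) * T ^ ε) := by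
          rw [Real.rpow_one, ha]
          field_simp
      _ ≤ c2 * c3 * (T ^ (1 / 2 - 2 * σ - ε) * T ^ (1 / 2 - 3 * σ - ε)) := by
          rw [← Real.rpow_add hT0, ← Real.rpow_add hT0, ← Real.rpow_add hT0]
          refine mul_le_mul_of_nonneg_left (Real.rpow_le_rpow_of_exponent_le hT1 ?_)
            (by positivity)
          linarith
      _ = (c2 * T ^ (1 / 2 - 2 * σ - ε)) * (c3 * T ^ (1 / 2 - 3 * σ - ε)) := by ring
      _ ≤ ‖riemannZeta (2 * s)‖ * ‖riemannZeta (3 * s)‖ := by gcongr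
  have hpole : ∀ (a z : ℂ), T / 3 ≤ ‖z‖ → ‖a / z‖ ≤ 3 * ‖a‖ * T ^ (-1 : ℝ) := by
    intro a z hz
    rw [norm_div]
    calc ‖a‖ / ‖z‖ ≤ ‖a‖ / (T / 3) := by gcongr
      _ = 3 * ‖a‖ * T ^ (-1 : ℝ) := by
          rw [Real.rpow_neg_one]
          field_simp
  have m2 := hpole c₁ _ hn2
  have m3 := hpole c₂ _ hn3
  have hK : a * T ^ (-(1 / 2) : ℝ) - A * T ^ (-1 : ℝ) ≤ ‖KK s‖ := by
    rw [KK_eq9 hb0 hb1' h (by rw [hs]; exact h1) n2 n3 n6]
    have h5 := norm_sub_norm_le (riemannZeta (2 * s) * riemannZeta (3 * s) /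
      riemannZeta (6 * s) / s - c₁ / (s - 1 / 2)) (c₂ / (s - 1 / 3))
    have h6 := norm_sub_norm_le (riemannZeta (2 * s) * riemannZeta (3 * s) /
      riemannZeta (6 * s) / s) (c₁ / (s - 1 / 2))
    rw [hA]
    linarith
  -- for large `T` the main term wins
  have hTs : T ^ (-1 : ℝ) = T ^ (-(1 / 2) : ℝ) * T ^ (-(1 / 2) : ℝ) := by
    rw [← Real.rpow_add hT0]
    norm_num
  have hhalf : A * T ^ (-(1 / 2) : ℝ) ≤ a / 2 := by
    have h5 : T ^ (-(1 / 2) : ℝ) = (√T)⁻¹ := by
      rw [Real.rpow_neg hT0.le, Real.sqrt_eq_rpow]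
    have hsq : 0 < √T := Real.sqrt_pos.mpr hT0
    have h6 : 2 * A / a ≤ √T := by
      refine Real.le_sqrt_of_sq_le ?_
      linarith
    rw [h5, ← div_eq_mul_inv, div_le_iff₀ hsq]
    have h7 : 2 * A ≤ √T * a := by
      rwa [div_le_iff₀ ha0] at h6
    linarith
  have hP : 0 < T ^ (-(1 / 2) : ℝ) := by positivity
  have hK2 : a / 2 * T ^ (-(1 / 2) : ℝ) ≤ ‖KK s‖ := by
    refine le_trans ?_ hK
    rw [hTs]
    nlinarith
  have hK3 : (a / 2 * T ^ (-(1 / 2) : ℝ)) ^ 2 ≤ ‖KK s‖ ^ 2 := by gcongr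
  refine le_trans ?_ hK3
  have e5 : (a / 2 * T ^ (-(1 / 2) : ℝ)) ^ 2 = a ^ 2 / 4 * T ^ (-1 : ℝ) := by
    rw [hTs]; ring
  rw [e5, Real.rpow_neg_one]
  have hT3 : T ≤ 3 * |s.im| := by rw [hT]; linarith
  have hi0 : 0 < |s.im| := by linarith
  rw [div_le_iff₀ hi0, ← div_eq_mul_inv, div_mul_eq_mul_div, le_div_iff₀ hT0]
  nlinarith [sq_nonneg a, mul_le_mul_of_nonneg_left hT3 (sq_nonneg a)]

/-- **The mean square exponent is at least `1/10`**, if `ζ` has no zeros to the right of some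
`b < 3/5`. -/
theorem mst_sharp {b κ : ℝ} (hb : b < 3 / 5) (h : NZb b) (hκ : κ < 1 / 10) : ¬ MSt κ := by
  intro hM
  -- normalisation
  set b' := max b (1 / 2) with hb'
  have hb0 : 1 / 2 ≤ b' := le_max_right _ _
  have hb1 : b' < 3 / 5 := max_lt hb (by norm_num)
  have h' : NZb b' := fun s hs1 hs2 => h s (lt_of_le_of_lt (le_max_left _ _) hs1) hs2
  set κ' := max κ (1 / 12) with hκ'
  have k0 : 0 ≤ κ' := le_trans (by norm_num) (le_max_right _ _)
  have k1 : κ' < 1 / 10 := max_lt hκ (by norm_num)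
  have hM' : MSt κ' := by
    intro ε hε
    obtain ⟨C, hC⟩ := hM ε hε
    have hC0 : 0 ≤ C := by
      have := hC 1 le_rfl
      simpa using this
    refine ⟨C, fun X hX => (hC X hX).trans ?_⟩
    gcongr
    exact le_max_left _ _
  set m := max κ' (b' / 6) with hm
  have hm1 : m < 1 / 10 := max_lt k1 (by linarith)
  set σ := (m + 1 / 10) / 2 with hσ
  have s1 : m < σ := by rw [hσ]; linarith
  have s2 : σ < 1 / 10 := by rw [hσ]; linarith
  have s3 : κ' < σ := lt_of_le_of_lt (le_max_left _ _) s1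
  have s4 : b' / 6 < σ := lt_of_le_of_lt (le_max_right _ _) s1
  obtain ⟨c, T0, hc, hT0, hlow⟩ := KK_low hb0 hb1 h' s4 s2
  have hPl := lintegral_fourier_sq_le
    (integrable_wws (integrableOn_absG hM' k0 s3))
    (integrable_wws_sq (integrableOn_sqG hM' k0 (p := 2 * σ + 1) (by linarith)))
  have hpi := Real.pi_pos
  -- on `v > T0` the transform is at least `c / (2 π v)`
  have hge : ∀ v ∈ Ioi T0, ENNReal.ofReal (c / (2 * Real.pi) * v⁻¹) ≤
      ENNReal.ofReal (‖∫ t : ℝ, cexp (2 * Real.pi * I * v * t) * wws σ t‖ ^ 2) := by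
    intro v hv
    have hv' : T0 < v := hv
    have hv0 : 0 < v := by linarith
    refine ENNReal.ofReal_le_ofReal ?_
    rw [wws_transform, TR_eq_KK hb0 (by linarith) h' hM' k0 (by linarith) (by simpa using s3)
      (by simpa using s4)]
    have him : |((σ : ℂ) + ((-(2 * Real.pi * v) : ℝ) : ℂ) * I).im| = 2 * Real.pi * v := by
      simp only [add_im, ofReal_im, mul_im, ofReal_re, I_im, I_re, mul_one, mul_zero, add_zero,
        zero_add]
      rw [abs_neg, abs_of_pos (by positivity)]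
    have h5 := hlow ((σ : ℂ) + ((-(2 * Real.pi * v) : ℝ) : ℂ) * I) (by simp) (by
      rw [him]
      have : 1 ≤ 2 * Real.pi := by linarith [Real.pi_gt_three]
      nlinarith)
    rw [him] at h5
    refine le_trans (le_of_eq ?_) h5
    field_simp
  have hfin : ∫⁻ v in Ioi T0, ENNReal.ofReal (c / (2 * Real.pi) * v⁻¹) < ⊤ := by
    calc ∫⁻ v in Ioi T0, ENNReal.ofReal (c / (2 * Real.pi) * v⁻¹)
        ≤ ∫⁻ v in Ioi T0, ENNReal.ofReal
          (‖∫ t : ℝ, cexp (2 * Real.pi * I * v * t) * wws σ t‖ ^ 2) :=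
          setLIntegral_mono' measurableSet_Ioi hge
      _ ≤ ∫⁻ v : ℝ, ENNReal.ofReal
          (‖∫ t : ℝ, cexp (2 * Real.pi * I * v * t) * wws σ t‖ ^ 2) :=
          setLIntegral_le_lintegral _ _
      _ ≤ _ := hPl
      _ < ⊤ := ENNReal.ofReal_lt_top
  have hint : IntegrableOn (fun v : ℝ => c / (2 * Real.pi) * v⁻¹) (Ioi T0) := by
    refine ⟨(measurable_inv.const_mul _).aestronglyMeasurable, ?_⟩
    rw [hasFiniteIntegral_iff_ofReal]
    · exact hfin
    · refine (ae_restrict_iff' measurableSet_Ioi).mpr (Eventually.of_forall fun v hv => ?_)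
      have hv' : T0 < v := hv
      have hv0 : 0 < v := by linarith
      show 0 ≤ c / (2 * Real.pi) * v⁻¹
      positivity
  have hint2 : IntegrableOn (fun v : ℝ => v⁻¹) (Ioi T0) := by
    have h6 := hint.const_mul ((2 * Real.pi) / c)
    refine h6.congr (Eventually.of_forall fun v => ?_)
    show 2 * Real.pi / c * (c / (2 * Real.pi) * v⁻¹) = v⁻¹
    field_simp
  exact not_integrableOn_Ioi_inv hint2

end Pool.Agent.SqF9
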