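import Pool.Agent.SqF9.Main3

/-!
# The transform of the first mean of `Δ` in the strip
-/

open Complex Filter Topology Set MeasureTheory Pool.Agent.Hadamard Pool.Agent.SqFull

namespace Pool.Agent.SqF9

/-- The bound for the transform of `Δ` in the strip. -/
lemma KK_bound0 {b : ℝ} (hb0 : 1 / 2 ≤ b) (hb1 : b < 1) (h : NZb b) {σ c μ2 μ3 : ℝ}
    (h1 : b / 6 < σ) (p2 : 0 ≤ μ2) (p3 : 0 ≤ μ3) (a2 : 1 / 2 - 2 * σ ≤ μ2)
    (a2' : (b - 2 * σ) / 2 ≤ μ2) (a3 : 1 / 2 - 3 * σ ≤ μ3) (a3' : (b - 3 * σ) / 2 ≤ μ3)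
    (hμ : μ2 + μ3 < 1) :
    ∃ C κ : ℝ, 0 < κ ∧ ∀ s : ℂ, σ ≤ s.re → s.re ≤ c →
      ‖KK s‖ ≤ C * (|s.im| + 2) ^ (-κ) := by
  set ε := (1 - μ2 - μ3) / 6 with hε
  have hε0 : 0 < ε := by rw [hε]; linarith
  have hε1 : ε ≤ 1 / 6 := by rw [hε]; linarith
  set κ := 3 * ε with hκ
  have hκσ : κ = 1 - μ2 - μ3 - 3 * ε := by rw [hκ, hε]; ring
  obtain ⟨C2, hC2, H2⟩ := zeta_upper9 hb0 hb1 h (x0 := 2 * σ) (ε := ε) (by linarith) p2 a2 a2'
    hε0 (by linarith)
  obtain ⟨C3, hC3, H3⟩ := zeta_upper9 hb0 hb1 h (x0 := 3 * σ) (ε := ε) (by linarith) p3 a3 a3'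
    hε0 (by linarith)
  obtain ⟨C6, hC6, H6⟩ := zeta_lower9 hb0 hb1 h (x1 := 6 * σ) (ε := ε) (by linarith) hε0
  obtain ⟨M, hM⟩ := ((isCompact_Icc (a := σ) (b := c)).reProdIm
    (isCompact_Icc (a := (-1:ℝ)) (b := 1))).exists_bound_of_continuousOn (f := KK) (fun z hz =>
      (KK_differentiableAt9 hb0 hb1 h (by
        have h' : σ ≤ z.re := hz.1.1
        linarith)).continuousAt.continuousWithinAt)
  set A := C2 * 2 ^ (μ2 + ε) * (C3 * 3 ^ (μ3 + ε)) * (C6 * 6 ^ ε) * 3 +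
    3 * (‖c₁‖ + ‖c₂‖) with hA
  have hA0 : 0 ≤ A := by positivity
  refine ⟨A + 3 * |M|, κ, by positivity, fun s hs hsc => ?_⟩
  set T := |s.im| + 2 with hT
  have hT2 : 2 ≤ T := by rw [hT]; linarith [abs_nonneg s.im]
  have hT0 : 0 < T := by linarith
  rcases le_total |s.im| 1 with ht | ht
  · have h3 := hM s ⟨⟨hs, hsc⟩, ⟨(abs_le.mp ht).1, (abs_le.mp ht).2⟩⟩
    have h4 : 1 ≤ 3 * T ^ (-κ) := by
      have h5 : T ^ (-1 : ℝ) ≤ T ^ (-κ) :=
        Real.rpow_le_rpow_of_exponent_le (by linarith) (by rw [hκ]; linarith)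
      have h6 : (1:ℝ) / 3 ≤ T ^ (-1 : ℝ) := by
        rw [Real.rpow_neg_one, ← one_div]
        exact one_div_le_one_div_of_le hT0 (by rw [hT]; linarith)
      linarith
    calc ‖KK s‖ ≤ M := h3
      _ ≤ |M| * 1 := by rw [mul_one]; exact le_abs_self M
      _ ≤ |M| * (3 * T ^ (-κ)) := by gcongr
      _ = 3 * |M| * T ^ (-κ) := by ring
      _ ≤ (A + 3 * |M|) * T ^ (-κ) := by
        gcongr
        linarith
  · have him : s.im ≠ 0 := by
      intro h; rw [h] at ht; simp at ht; linarith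
    have hne : ∀ x : ℝ, s ≠ (x : ℂ) := by
      rintro x rfl
      exact him (by simp)
    have n2 : s ≠ 1 / 2 := by have := hne (1 / 2); push_cast at this; exact this
    have n3 : s ≠ 1 / 3 := by have := hne (1 / 3); push_cast at this; exact this
    have n6 : s ≠ 1 / 6 := by have := hne (1 / 6); push_cast at this; exact this
    rw [KK_eq9 hb0 hb1 h (by linarith) n2 n3 n6]
    have hnorm : ∀ x : ℝ, T / 3 ≤ ‖s - x‖ := by
      intro x
      have := Complex.abs_im_le_norm (s - x)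
      simp only [sub_im, ofReal_im, sub_zero] at this
      linarith
    have hn0 : T / 3 ≤ ‖s‖ := by simpa using hnorm 0
    have hn2 : T / 3 ≤ ‖s - 1 / 2‖ := by have := hnorm (1 / 2); push_cast at this; exact this
    have hn3 : T / 3 ≤ ‖s - 1 / 3‖ := by have := hnorm (1 / 3); push_cast at this; exact this
    have b2 := H2 (2 * s) (by simp; linarith) (by
      have : |(2 * s).im| = 2 * |s.im| := by simp [abs_mul]
      rw [this]; linarith)
    have b3 := H3 (3 * s) (by simp; linarith) (by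
      have : |(3 * s).im| = 3 * |s.im| := by simp [abs_mul]
      rw [this]; linarith)
    have b6 := H6 (6 * s) (by simp; linarith) (by
      have : |(6 * s).im| = 6 * |s.im| := by simp [abs_mul]
      rw [this]; linarith)
    have r2 : (|(2 * s).im| + 2) ^ (μ2 + ε) ≤
        2 ^ (μ2 + ε) * T ^ (μ2 + ε) := by
      have : |(2 * s).im| = 2 * |s.im| := by simp [abs_mul]
      rw [this, ← Real.mul_rpow (by norm_num) hT0.le]
      exact Real.rpow_le_rpow (by positivity) (by rw [hT]; linarith) (by linarith)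
    have r3 : (|(3 * s).im| + 2) ^ (μ3 + ε) ≤
        3 ^ (μ3 + ε) * T ^ (μ3 + ε) := by
      have : |(3 * s).im| = 3 * |s.im| := by simp [abs_mul]
      rw [this, ← Real.mul_rpow (by norm_num) hT0.le]
      exact Real.rpow_le_rpow (by positivity) (by rw [hT]; linarith) (by linarith)
    have r6 : (|(6 * s).im| + 2) ^ ε ≤ 6 ^ ε * T ^ ε := by
      have : |(6 * s).im| = 6 * |s.im| := by simp [abs_mul]
      rw [this, ← Real.mul_rpow (by norm_num) hT0.le]
      exact Real.rpow_le_rpow (by positivity) (by rw [hT]; linarith) hε0.le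
    have m1 : ‖riemannZeta (2 * s) * riemannZeta (3 * s) / riemannZeta (6 * s) / s‖ ≤
        (C2 * 2 ^ (μ2 + ε) * (C3 * 3 ^ (μ3 + ε)) * (C6 * 6 ^ ε) * 3) *
          T ^ (-κ) := by
      rw [norm_div, norm_div, norm_mul, div_eq_mul_inv, div_eq_mul_inv]
      have hinv : ‖s‖⁻¹ ≤ 3 * T ^ (-1 : ℝ) := by
        rw [Real.rpow_neg_one, ← div_eq_mul_inv]
        have : (3:ℝ) / T = (T / 3)⁻¹ := by field_simp
        rw [this]
        exact inv_anti₀ (by positivity) hn0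
      calc ‖riemannZeta (2 * s)‖ * ‖riemannZeta (3 * s)‖ * ‖riemannZeta (6 * s)‖⁻¹ * ‖s‖⁻¹
          ≤ (C2 * (2 ^ (μ2 + ε) * T ^ (μ2 + ε))) *
            (C3 * (3 ^ (μ3 + ε) * T ^ (μ3 + ε))) *
            (C6 * (6 ^ ε * T ^ ε)) * (3 * T ^ (-1 : ℝ)) := by
            refine mul_le_mul (mul_le_mul (mul_le_mul (b2.trans ?_) (b3.trans ?_) (norm_nonneg _)
              (by positivity)) (b6.trans ?_) (by positivity) (by positivity)) hinv (by positivity)
              (by positivity)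
            · exact mul_le_mul_of_nonneg_left r2 hC2.le
            · exact mul_le_mul_of_nonneg_left r3 hC3.le
            · exact mul_le_mul_of_nonneg_left r6 hC6.le
        _ = (C2 * 2 ^ (μ2 + ε) * (C3 * 3 ^ (μ3 + ε)) * (C6 * 6 ^ ε) * 3) *
          (T ^ (μ2 + ε) * T ^ (μ3 + ε) * T ^ ε * T ^ (-1 : ℝ)) := by ring
        _ = _ := by
            rw [← Real.rpow_add hT0, ← Real.rpow_add hT0, ← Real.rpow_add hT0]
            congr 2
            rw [hκσ]; ring
    have hTm : T ^ (-1 : ℝ) ≤ T ^ (-κ) :=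
      Real.rpow_le_rpow_of_exponent_le (by linarith) (by rw [hκ]; linarith)
    have hpole : ∀ (a z : ℂ), T / 3 ≤ ‖z‖ → ‖a / z‖ ≤ 3 * ‖a‖ * T ^ (-κ) := by
      intro a z hz
      rw [norm_div]
      calc ‖a‖ / ‖z‖ ≤ ‖a‖ / (T / 3) := by gcongr
        _ = 3 * ‖a‖ * T ^ (-1 : ℝ) := by
            rw [Real.rpow_neg_one]
            field_simp
        _ ≤ _ := by gcongr
    have m2 := hpole c₁ _ hn2
    have m3 := hpole c₂ _ hn3
    calc ‖riemannZeta (2 * s) * riemannZeta (3 * s) / riemannZeta (6 * s) / s -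
          c₁ / (s - 1 / 2) - c₂ / (s - 1 / 3)‖
        ≤ ‖riemannZeta (2 * s) * riemannZeta (3 * s) / riemannZeta (6 * s) / s‖ +
          ‖c₁ / (s - 1 / 2)‖ + ‖c₂ / (s - 1 / 3)‖ :=
          (norm_sub_le _ _).trans (add_le_add_left (norm_sub_le _ _) _)
      _ ≤ (C2 * 2 ^ (μ2 + ε) * (C3 * 3 ^ (μ3 + ε)) * (C6 * 6 ^ ε) * 3) *
          T ^ (-κ) + 3 * ‖c₁‖ * T ^ (-κ) + 3 * ‖c₂‖ * T ^ (-κ) :=
          add_le_add (add_le_add m1 m2) m3
      _ = A * T ^ (-κ) := by rw [hA]; ring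
      _ ≤ (A + 3 * |M|) * T ^ (-κ) := by
          gcongr
          linarith [abs_nonneg M]



/-- The bound for the transform of the first mean. -/
lemma KK_bound_mean {b : ℝ} (hb0 : 1 / 2 ≤ b) (hb1 : b < 1) (h : NZb b) {σ c : ℝ}
    (h1 : b / 6 < σ) : ∃ C κ : ℝ, 0 < κ ∧ ∀ s : ℂ, σ ≤ s.re → s.re ≤ c →
      ‖KK s / (s + 1)‖ ≤ C * (|s.im| + 2) ^ (-1 - κ) := by
  have hσ : 0 < σ := by linarith
  have hμ : max (max (1 / 2 - 2 * σ) ((b - 2 * σ) / 2)) 0 +
      max (max (1 / 2 - 3 * σ) ((b - 3 * σ) / 2)) 0 < 1 := by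
    have e2 : max (max (1 / 2 - 2 * σ) ((b - 2 * σ) / 2)) 0 < 1 / 2 :=
      max_lt (max_lt (by linarith) (by linarith)) (by norm_num)
    have e3 : max (max (1 / 2 - 3 * σ) ((b - 3 * σ) / 2)) 0 < 1 / 2 :=
      max_lt (max_lt (by linarith) (by linarith)) (by norm_num)
    linarith
  obtain ⟨C, κ, hκ, hb⟩ := KK_bound0 hb0 hb1 h (c := c) h1
    (le_max_right _ _) (le_max_right _ _) ((le_max_left _ _).trans (le_max_left _ _))
    ((le_max_right _ _).trans (le_max_left _ _)) ((le_max_left _ _).trans (le_max_left _ _))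
    ((le_max_right _ _).trans (le_max_left _ _)) hμ
  refine ⟨3 * |C|, κ, hκ, fun s hs hsc => ?_⟩
  have hT0 : 0 < |s.im| + 2 := by positivity
  have hn : (|s.im| + 2) / 3 ≤ ‖s + 1‖ := by
    rcases le_total |s.im| 1 with ht | ht
    · have h2 := Complex.abs_re_le_norm (s + 1)
      simp only [add_re, one_re] at h2
      rw [abs_of_nonneg (by linarith)] at h2
      linarith
    · have h2 := Complex.abs_im_le_norm (s + 1)
      simp only [add_im, one_im, add_zero] at h2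
      linarith
  rw [norm_div]
  calc ‖KK s‖ / ‖s + 1‖ ≤ (|C| * (|s.im| + 2) ^ (-κ)) / ((|s.im| + 2) / 3) := by
        have h3 := hb s hs hsc
        have h4 : C * (|s.im| + 2) ^ (-κ) ≤ |C| * (|s.im| + 2) ^ (-κ) := by
          gcongr
          exact le_abs_self C
        gcongr
        exact h3.trans h4
    _ = 3 * |C| * (|s.im| + 2) ^ (-1 - κ) := by
        have h5 : (|s.im| + 2) ^ (-1 - κ) = (|s.im| + 2) ^ (-κ) / (|s.im| + 2) := by
          have : (-1 - κ : ℝ) = -κ - 1 := by ring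
          rw [this, Real.rpow_sub hT0, Real.rpow_one]
        rw [h5]
        field_simp

end Pool.Agent.SqF9
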