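import Pool.Agent.SqFull.ZetaLeft

/-!
# The factor of the functional equation in the strip `0 ≤ Re s ≤ 1 / 2`
-/

set_option autoImplicit false

open Complex Filter Topology Set Pool.Agent.Hadamard Pool.Agent.ANT Pool.Agent.SqFull

namespace Pool.Agent.SqF9

/-- the line `Re s = 0` -/
theorem chi_zero (t : ℝ) :
    ‖Complex.Gamma (1 - t * I)‖ * ‖Complex.cos (Real.pi * (1 - t * I) / 2)‖ ≤
      2 * (|t| + 2) ^ (1 / 2 : ℝ) := by
  have e1 : ((Real.pi:ℂ) * (1 - t * I) / 2) = Real.pi / 2 - (((Real.pi * t / 2 : ℝ) : ℂ)) * I := by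
    push_cast; ring
  have e2 : ‖Complex.cos ((Real.pi:ℂ) * (1 - t * I) / 2)‖ = |Real.sinh (Real.pi * t / 2)| := by
    rw [e1, Complex.cos_pi_div_two_sub, Complex.sin_mul_I, norm_mul, Complex.norm_I, mul_one,
      ← Complex.ofReal_sinh, Complex.norm_real, Real.norm_eq_abs]
  rw [e2]
  have h1 := norm_Gamma_sinh t
  have h2 : ‖Complex.Gamma (1 - t * I)‖ * |Real.sinh (Real.pi * t / 2)| ≤
      √(Real.pi * |t| / 2) := Real.le_sqrt_of_sq_le h1
  refine h2.trans ?_
  rw [Real.sqrt_eq_rpow]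
  have h3 : (Real.pi * |t| / 2) ≤ 4 * (|t| + 2) := by
    nlinarith [Real.pi_lt_four, abs_nonneg t, Real.pi_pos]
  calc (Real.pi * |t| / 2) ^ (1 / 2 : ℝ) ≤ (4 * (|t| + 2)) ^ (1 / 2 : ℝ) :=
        Real.rpow_le_rpow (by positivity) h3 (by norm_num)
    _ = 4 ^ (1 / 2 : ℝ) * (|t| + 2) ^ (1 / 2 : ℝ) := Real.mul_rpow (by norm_num) (by positivity)
    _ = 2 * (|t| + 2) ^ (1 / 2 : ℝ) := by
        congr 1
        rw [← Real.sqrt_eq_rpow]
        rw [show (4 : ℝ) = 2 ^ 2 by norm_num, Real.sqrt_sq (by norm_num)]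

/-- the line `Re s = 1 / 2` -/
theorem chi_half (t : ℝ) :
    ‖Complex.Gamma (1 - (1 / 2 + t * I))‖ * ‖Complex.cos (Real.pi * (1 - (1 / 2 + t * I)) / 2)‖ ≤
      2 := by
  have e1 : (1 - (1 / 2 + t * I) : ℂ) = 1 / 2 - t * I := by ring
  rw [e1]
  -- the gamma factor
  have h1 := Complex.Gamma_mul_Gamma_one_sub (1 / 2 + t * I)
  have e2 : (1 - (1 / 2 + t * I) : ℂ) = (starRingEnd ℂ) (1 / 2 + t * I) := by
    apply Complex.ext
    · simp
      norm_num
    · simp
  have h3 : ‖Complex.Gamma (1 / 2 - t * I)‖ = ‖Complex.Gamma (1 / 2 + t * I)‖ := by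
    rw [← e1, e2, Complex.Gamma_conj, Complex.norm_conj]
  have h4 : Complex.sin (Real.pi * (1 / 2 + t * I)) = (Real.cosh (Real.pi * t) : ℂ) := by
    have : (Real.pi * (1 / 2 + t * I) : ℂ) = Real.pi / 2 - (-(((Real.pi * t : ℝ) : ℂ) * I)) := by
      push_cast; ring
    rw [this, Complex.sin_pi_div_two_sub, Complex.cos_neg, Complex.cos_mul_I]
    push_cast
    rfl
  have hCp : 0 < Real.cosh (Real.pi * t) := Real.cosh_pos _
  have h5 : ‖Complex.Gamma (1 / 2 - t * I)‖ ^ 2 = Real.pi / Real.cosh (Real.pi * t) := by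
    have h6 := congrArg norm h1
    rw [h4, norm_mul, norm_div, Complex.norm_real, Complex.norm_real, Real.norm_eq_abs,
      Real.norm_eq_abs, abs_of_pos Real.pi_pos, abs_of_pos hCp, e1, h3] at h6
    rw [h3, sq, h6]
  -- the cosine
  have h7 : ‖Complex.cos (Real.pi * (1 / 2 - t * I) / 2)‖ ^ 2 = Real.cosh (Real.pi * t) / 2 := by
    have e3 : (Real.pi * (1 / 2 - t * I) / 2 : ℂ) =
        ((Real.pi / 4 : ℝ) : ℂ) + ((-(Real.pi * t / 2) : ℝ) : ℂ) * I := by
      push_cast; ring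
    rw [e3, ← Complex.normSq_eq_norm_sq, Complex.cos_add_mul_I, ← Complex.ofReal_cos,
      ← Complex.ofReal_sin, ← Complex.ofReal_cosh, ← Complex.ofReal_sinh, Real.cos_pi_div_four,
      Real.sin_pi_div_four, Complex.normSq_apply]
    simp only [Complex.sub_re, Complex.sub_im, Complex.mul_re, Complex.mul_im, Complex.ofReal_re,
      Complex.ofReal_im, Complex.I_re, Complex.I_im]
    have h8 : Real.cosh (Real.pi * t) =
        Real.cosh (-(Real.pi * t / 2)) ^ 2 + Real.sinh (-(Real.pi * t / 2)) ^ 2 := by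
      rw [← Real.cosh_two_mul, ← Real.cosh_neg (Real.pi * t)]
      congr 1
      ring
    have h9 : √2 * √2 = (2 : ℝ) := Real.mul_self_sqrt (by norm_num)
    rw [h8]
    ring_nf
    rw [show √2 ^ 2 = (2 : ℝ) by rw [sq, h9]]
    ring
  have h10 : (‖Complex.Gamma (1 / 2 - t * I)‖ *
      ‖Complex.cos (Real.pi * (1 / 2 - t * I) / 2)‖) ^ 2 ≤ 2 ^ 2 := by
    rw [mul_pow, h5, h7]
    have : Real.pi / Real.cosh (Real.pi * t) * (Real.cosh (Real.pi * t) / 2) = Real.pi / 2 := by
      field_simp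
    rw [this]
    linarith [Real.pi_lt_four]
  exact le_of_sq_le_sq h10 (by norm_num)

/-- The factor of the functional equation to the left of the critical line. -/
theorem chi_le : ∃ C : ℝ, 0 < C ∧ ∀ s : ℂ, 0 ≤ s.re → s.re ≤ 1 / 2 →
    2 * (2 * Real.pi) ^ (s.re - 1) * ‖Complex.Gamma (1 - s)‖ *
      ‖Complex.cos (Real.pi * (1 - s) / 2)‖ ≤ C * (|s.im| + 2) ^ (1 / 2 - s.re) := by
  obtain ⟨G, hG⟩ := isCompact_Icc.exists_bound_of_continuousOn (s := Icc (1/2:ℝ) 1)
    (f := Real.Gamma) (fun x hx => (Real.differentiableAt_Gamma (fun m => by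
      have h3 : (0:ℝ) ≤ m := Nat.cast_nonneg m
      intro h
      linarith [hx.1])).continuousAt.continuousWithinAt)
  have hG0 : 0 ≤ G := (norm_nonneg _).trans (hG 1 ⟨by norm_num, le_rfl⟩)
  set g : ℂ → ℂ := fun s => Complex.Gamma (1 - s) * Complex.cos (Real.pi * (1 - s) / 2) with hg
  have hng : ∀ s, ‖g s‖ = ‖Complex.Gamma (1 - s)‖ * ‖Complex.cos (Real.pi * (1 - s) / 2)‖ :=
    fun s => norm_mul _ _
  -- a priori
  have hap : ∀ s : ℂ, 0 ≤ s.re → s.re ≤ 1 / 2 → ‖g s‖ ≤ (G + 1) * Real.exp (4 * |s.im|) := by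
    intro s h0 h1
    rw [hng]
    have h2 : ‖Complex.Gamma (1 - s)‖ ≤ G := by
      refine (norm_Gamma_le (by simp; linarith)).trans ?_
      refine (le_abs_self _).trans (hG _ ⟨?_, ?_⟩) <;> simp <;> linarith
    have h4 : ‖Complex.cos (Real.pi * (1 - s) / 2)‖ ≤ Real.exp (4 * |s.im|) := by
      refine (norm_cos_le _).trans (Real.exp_le_exp.mpr ?_)
      have h5 : (Real.pi * (1 - s) / 2 : ℂ).im = -(Real.pi / 2 * s.im) := by
        have : (Real.pi * (1 - s) / 2 : ℂ) = ((Real.pi / 2 : ℝ) : ℂ) * (1 - s) := by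
          push_cast; ring
        rw [this, Complex.im_ofReal_mul]
        simp
      rw [h5, abs_neg, abs_mul, abs_of_pos (by positivity)]
      have := Real.pi_lt_four
      nlinarith [abs_nonneg s.im]
    calc ‖Complex.Gamma (1 - s)‖ * ‖Complex.cos (Real.pi * (1 - s) / 2)‖
        ≤ (G + 1) * Real.exp (4 * |s.im|) := by
          gcongr
          linarith
      _ = _ := rfl
  set D : ℝ := 4 * Real.exp 1 * 2 with hD
  have hD0 : 0 < D := by positivity
  have key : ∀ z : ℂ, 0 ≤ z.re → z.re ≤ 1 / 2 → ‖g z‖ ≤ D * (|z.im| + 2) ^ (1 / 2 - z.re) := by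
    intro z hz0 hzb
    set τ := z.im with hτ
    set T := |τ| + 2 with hT
    have hT1 : 1 ≤ T := by linarith [abs_nonneg τ]
    have hT0 : 0 < T := by linarith
    set f : ℂ → ℂ := fun s => g s * Complex.exp ((s - τ * I) ^ 2) with hf
    have hnexp : ∀ s : ℂ, ‖Complex.exp ((s - τ * I) ^ 2)‖ =
        Real.exp (s.re ^ 2 - (s.im - τ) ^ 2) := by
      intro s
      rw [Complex.norm_exp]
      congr 1
      simp [sq]
    have hd : DiffContOnCl ℂ f (HadamardThreeLines.verticalStrip 0 (1 / 2)) := by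
      have hdiff : ∀ s : ℂ, s.re ≤ 1 / 2 → DifferentiableAt ℂ f s := by
        intro s hs
        have h1 : DifferentiableAt ℂ (fun s : ℂ => Complex.Gamma (1 - s)) s := by
          have h2 : DifferentiableAt ℂ Complex.Gamma (1 - s) :=
            Complex.differentiableAt_Gamma _ (fun m h => by
              have h3 := congrArg Complex.re h
              simp at h3
              have h4 : (0:ℝ) ≤ m := Nat.cast_nonneg m
              linarith)
          exact h2.comp s (by fun_prop)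
        have h5 : DifferentiableAt ℂ (fun s : ℂ => Complex.cos (Real.pi * (1 - s) / 2)) s := by
          fun_prop
        exact (h1.mul h5).mul (by fun_prop)
      refine DifferentiableOn.diffContOnCl fun s hs => (hdiff s ?_).differentiableWithinAt
      have hcl : IsClosed {s : ℂ | s.re ≤ 1 / 2} :=
        isClosed_le Complex.continuous_re continuous_const
      exact (closure_minimal (fun (s : ℂ) (hs : s ∈ HadamardThreeLines.verticalStrip 0 (1 / 2)) =>
        (le_of_lt hs.2 : s.re ≤ (1 / 2 : ℝ))) hcl) hs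
    have hB : BddAbove ((norm ∘ f) '' HadamardThreeLines.verticalClosedStrip 0 (1 / 2)) := by
      refine ⟨(G + 1) * Real.exp (4 * |τ| + 5), ?_⟩
      rintro _ ⟨s, hs, rfl⟩
      have hs0 : 0 ≤ s.re := hs.1
      have hsb : s.re ≤ 1 / 2 := hs.2
      simp only [Function.comp, hf, norm_mul, hnexp]
      calc ‖g s‖ * Real.exp (s.re ^ 2 - (s.im - τ) ^ 2)
          ≤ ((G + 1) * Real.exp (4 * |s.im|)) * Real.exp (s.re ^ 2 - (s.im - τ) ^ 2) := by
            gcongr
            exact hap s hs0 hsb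
        _ = (G + 1) * Real.exp (4 * |s.im| + (s.re ^ 2 - (s.im - τ) ^ 2)) := by
            rw [Real.exp_add]; ring
        _ ≤ (G + 1) * Real.exp (4 * |τ| + 5) := by
            refine mul_le_mul_of_nonneg_left (Real.exp_le_exp.mpr ?_) (by linarith)
            have h4 : |s.im| ≤ |τ| + |s.im - τ| := by
              have : s.im = τ + (s.im - τ) := by ring
              calc |s.im| = |τ + (s.im - τ)| := by rw [← this]
                _ ≤ _ := abs_add_le _ _
            have h5 : s.re ^ 2 ≤ 1 := by nlinarith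
            have h6 : (s.im - τ) ^ 2 = |s.im - τ| ^ 2 := (sq_abs _).symm
            nlinarith [sq_nonneg (|s.im - τ| - 2)]
    have hleft : ∀ s ∈ re ⁻¹' {(0:ℝ)}, ‖f s‖ ≤ D * T ^ (1 / 2 : ℝ) := by
      intro s hs
      have hs0 : s.re = 0 := hs
      have e1 : s = s.im * I := by
        apply Complex.ext <;> simp [hs0]
      have h4 := chi_zero s.im
      rw [← e1, ← hng] at h4
      simp only [hf, norm_mul, hnexp, hs0]
      calc ‖g s‖ * Real.exp (0 ^ 2 - (s.im - τ) ^ 2)
          ≤ (2 * (|s.im| + 2) ^ (1 / 2 : ℝ)) * Real.exp (-(s.im - τ) ^ 2) := by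
            have : (0:ℝ) ^ 2 - (s.im - τ) ^ 2 = -(s.im - τ) ^ 2 := by ring
            rw [this]
            gcongr
        _ = 2 * ((|s.im| + 2) ^ (1 / 2 : ℝ) * Real.exp (-(s.im - τ) ^ 2)) := by ring
        _ ≤ 2 * (4 * T ^ (1 / 2 : ℝ)) :=
            mul_le_mul_of_nonneg_left (rpow_gauss_le (by norm_num) (by norm_num) _ _) (by norm_num)
        _ = (4 * 1 * 2) * T ^ (1 / 2 : ℝ) := by ring
        _ ≤ D * T ^ (1 / 2 : ℝ) := by
            rw [hD]
            gcongr
            exact Real.one_le_exp zero_le_one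
    have hright : ∀ s ∈ re ⁻¹' {(1 / 2 : ℝ)}, ‖f s‖ ≤ D := by
      intro s hs
      have hs0 : s.re = 1 / 2 := hs
      have e1 : s = 1 / 2 + s.im * I := by
        apply Complex.ext <;> simp [hs0]
      have h4 := chi_half s.im
      rw [← e1, ← hng] at h4
      simp only [hf, norm_mul, hnexp, hs0]
      calc ‖g s‖ * Real.exp ((1 / 2) ^ 2 - (s.im - τ) ^ 2)
          ≤ 2 * Real.exp 1 := by
            gcongr
            nlinarith [sq_nonneg (s.im - τ)]
        _ ≤ D := by
            rw [hD]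
            nlinarith [Real.exp_pos 1]
    have hz : z ∈ HadamardThreeLines.verticalClosedStrip 0 (1 / 2) := ⟨hz0, hzb⟩
    have hmain := HadamardThreeLines.norm_le_interp_of_mem_verticalClosedStrip'
      (by norm_num : (0:ℝ) < 1 / 2) hz hd hB hleft hright
    have e2 : ‖g z‖ ≤ ‖f z‖ := by
      simp only [hf, norm_mul, hnexp]
      have : 1 ≤ Real.exp (z.re ^ 2 - (z.im - τ) ^ 2) := by
        apply Real.one_le_exp
        rw [← hτ]; nlinarith [sq_nonneg z.re]
      exact le_mul_of_one_le_right (norm_nonneg _) this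
    refine e2.trans (hmain.trans (le_of_eq ?_))
    simp only [sub_zero]
    set θ := z.re / (1 / 2) with hθ
    rw [Real.mul_rpow hD0.le (by positivity), ← Real.rpow_mul hT0.le]
    have e3 : D ^ (1 - θ) * T ^ ((1 / 2) * (1 - θ)) * D ^ θ =
        (D ^ (1 - θ) * D ^ θ) * T ^ ((1 / 2) * (1 - θ)) := by ring
    rw [e3, ← Real.rpow_add hD0]
    have e4 : (1 - θ) + θ = 1 := by ring
    have e5 : (1 / 2) * (1 - θ) = 1 / 2 - z.re := by rw [hθ]; ring
    rw [e4, e5, Real.rpow_one]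
  refine ⟨2 * D, by positivity, fun s h0 h1 => ?_⟩
  have h2 := key s h0 h1
  rw [hng] at h2
  have h3 : (2 * Real.pi) ^ (s.re - 1) ≤ 1 :=
    Real.rpow_le_one_of_one_le_of_nonpos (by linarith [Real.pi_gt_three]) (by linarith)
  have h4 : 0 ≤ (2 * Real.pi) ^ (s.re - 1) := by positivity
  calc 2 * (2 * Real.pi) ^ (s.re - 1) * ‖Complex.Gamma (1 - s)‖ *
        ‖Complex.cos (Real.pi * (1 - s) / 2)‖
      = 2 * (2 * Real.pi) ^ (s.re - 1) * (‖Complex.Gamma (1 - s)‖ *
        ‖Complex.cos (Real.pi * (1 - s) / 2)‖) := by ring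
    _ ≤ 2 * 1 * (D * (|s.im| + 2) ^ (1 / 2 - s.re)) := by gcongr
    _ = _ := by ring

end Pool.Agent.SqF9
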