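import Pool.Agent.SqFull.Gen

/-!
# The two hypotheses
-/

open MeasureTheory Pool.Agent.SqFull

namespace Pool.Agent.SqF9

/-- The zeta function has no zeros with real part greater than `3/5`. -/
def NZ : Prop := ∀ s : ℂ, 3 / 5 < s.re → s.re < 1 → riemannZeta s ≠ 0

/-- The exponent `1/10` in mean square. -/
def MSq : Prop := ∀ ε : ℝ, 0 < ε → ∃ C : ℝ, ∀ X : ℝ, 1 ≤ X →
  ∫ x in (1:ℝ)..X, Delta x ^ 2 ≤ C * X ^ (6 / 5 + ε)

end Pool.Agent.SqF9
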