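import Pool.Agent.SqF9.Conv3

/-!
# The first mean of `Δ` and the Riemann hypothesis
-/

open Complex Filter Topology Set MeasureTheory Pool.Agent.Hadamard Pool.Agent.ANT
  Pool.Agent.SqFull

namespace Pool.Agent.SqF9

/-- The converse, for every exponent. -/
theorem nzb_of_mn4 {κ : ℝ} (hM : MN κ) (h10 : 0 ≤ κ)
    (hR : ∀ s : ℂ, 2 * (1 - 6 * κ) ≤ s.re → s.re < 1 → riemannZeta s ≠ 0) :
    ∀ s : ℂ, 6 * κ < s.re → s.re < 1 → riemannZeta s ≠ 0 := by
  intro ρ h h1 h0
  have hρ : ρ ∈ ntz := ⟨h0, by linarith, h1⟩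
  set A : Set ntz := {σ : ntz | 6 * κ < (σ:ℂ).re ∧ |(σ:ℂ).im| ≤ |ρ.im|} with hA
  have hfin : A.Finite := by
    refine (finite_ntz (1 + |ρ.im|)).subset fun σ hσ => ?_
    obtain ⟨h1, h3⟩ := hσ
    have h4 := Complex.norm_le_abs_re_add_abs_im (σ:ℂ)
    have h6 := σ.2.2.2
    have h5 : |(σ:ℂ).re| ≤ 1 := abs_le.mpr ⟨by linarith, by linarith⟩
    simp only [mem_ofPred_eq]
    linarith
  have hne : A.Nonempty := ⟨⟨ρ, hρ⟩, h, le_rfl⟩
  obtain ⟨a, ha, hmin⟩ := Set.exists_min_image A (fun σ => |(σ:ℂ).im|) hfin hne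
  obtain ⟨a1, a3⟩ := ha
  have a2 : (a:ℂ).re < 2 * (1 - 6 * κ) := by
    by_contra hcon
    push Not at hcon
    exact hR a hcon a.2.2.2 a.2.1
  have him : 0 < |(a:ℂ).im| := abs_pos.mpr (ntz_im_ne_zero a.2)
  have key : ∀ b : ℂ, b ∈ ntz → 6 * κ < b.re → |b.im| ≤ |(a:ℂ).im| / 2 → False := by
    intro b hb b1 b3
    have h1 := hmin ⟨b, hb⟩ ⟨b1, by simp only; linarith⟩
    simp only at h1
    linarith
  rcases zero_halvesf hM (by linarith) (by linarith) a.2 a1 with h2 | h3
  · refine key (1 - (a:ℂ) / 2) (ntz_one_sub.mpr h2) ?_ ?_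
    · have : (1 - (a:ℂ) / 2).re = 1 - (a:ℂ).re / 2 := by simp
      rw [this]; linarith
    · have : (1 - (a:ℂ) / 2).im = -((a:ℂ).im / 2) := by simp
      rw [this, abs_neg, abs_div, abs_of_pos (by norm_num : (0:ℝ) < 2)]
  · refine key (1 - (a:ℂ) / 3) (ntz_one_sub.mpr h3) ?_ ?_
    · have : (1 - (a:ℂ) / 3).re = 1 - (a:ℂ).re / 3 := by simp
      rw [this]; linarith
    · have : (1 - (a:ℂ) / 3).im = -((a:ℂ).im / 3) := by simp
      rw [this, abs_neg, abs_div, abs_of_pos (by norm_num : (0:ℝ) < 3)]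
      linarith

/-- The Riemann hypothesis from the zero-free half plane. -/
theorem rh_of_nzb (h : ∀ s : ℂ, 1 / 2 < s.re → s.re < 1 → riemannZeta s ≠ 0) :
    RiemannHypothesis := by
  intro s hs htriv hs1
  have hre1 : s.re < 1 := by
    by_contra hcon
    push Not at hcon
    exact riemannZeta_ne_zero_of_one_le_re hcon hs
  have hs0 : s ≠ 0 := by
    rintro rfl
    rw [riemannZeta_zero] at hs
    norm_num at hs
  have hre0 : 0 < s.re := by
    by_contra hcon
    push Not at hcon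
    set w := 1 - s with hw
    have hwre : 1 ≤ w.re := by rw [hw]; simp; linarith
    have hsw : s = 1 - w := by rw [hw]; ring
    have hw1 : w ≠ 1 := by
      intro h1
      apply hs0
      rw [hsw, h1]; ring
    have hwn : ∀ n : ℕ, w ≠ -n := by
      intro n hn
      rw [hn] at hwre
      simp at hwre
      have : (0:ℝ) ≤ n := n.cast_nonneg
      linarith
    have hfe := riemannZeta_one_sub hwn hw1
    rw [← hsw, hs] at hfe
    have hz : riemannZeta w ≠ 0 := riemannZeta_ne_zero_of_one_le_re hwre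
    have hG : Complex.Gamma w ≠ 0 := Complex.Gamma_ne_zero hwn
    have h2pi : (2 * (Real.pi : ℂ)) ≠ 0 := by
      have := Real.pi_pos.ne'
      simp [this]
    have hpow : (2 * (Real.pi : ℂ)) ^ (-w) ≠ 0 := by
      rw [Complex.cpow_ne_zero_iff]
      exact Or.inl h2pi
    have hcos : Complex.cos (Real.pi * w / 2) = 0 := by
      by_contra hc
      exact (mul_ne_zero (mul_ne_zero (mul_ne_zero (mul_ne_zero two_ne_zero hpow) hG) hc) hz)
        hfe.symm
    rw [Complex.cos_eq_zero_iff] at hcos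
    obtain ⟨k, hk⟩ := hcos
    have hpi : (Real.pi : ℂ) ≠ 0 := by exact_mod_cast Real.pi_pos.ne'
    have hwk : w = 2 * k + 1 := by
      field_simp at hk
      linear_combination hk
    have hk0 : 0 ≤ k := by
      rw [hwk] at hwre
      simp at hwre
      exact_mod_cast hwre
    have hk1 : k ≠ 0 := by
      rintro rfl
      apply hw1
      rw [hwk]; simp
    apply htriv
    refine ⟨(k - 1).toNat, ?_⟩
    have h3 : (((k - 1).toNat : ℤ) : ℂ) = (k:ℂ) - 1 := by
      rw [Int.toNat_of_nonneg (by omega)]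
      push_cast; ring
    have h4 : (((k - 1).toNat : ℕ) : ℂ) = (k:ℂ) - 1 := by
      rw [← h3]; simp
    rw [h4, hsw, hwk]
    ring
  have hmem : s ∈ ntz := ⟨hs, hre0, hre1⟩
  rcases lt_trichotomy s.re (1 / 2) with h1 | h1 | h1
  · exfalso
    have h2 : (1 - s) ∈ ntz := ntz_one_sub.mpr hmem
    exact h (1 - s) (by simp; linarith) (by simp; linarith) h2.1
  · exact h1
  · exact absurd hs (h s h1 hre1)

/-- The exponent `1/12` for the first mean implies the Riemann hypothesis. -/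
theorem rh_of_mn (hM : MN (1 / 12)) : RiemannHypothesis := by
  refine rh_of_nzb fun s h1 h2 => ?_
  refine nzb_of_mn4 hM (by norm_num) (fun s h3 h4 => ?_) s (by linarith) h2
  exfalso
  linarith

end Pool.Agent.SqF9
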