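import Pool.Agent.SqFull.RHBound2
import Pool.Agent.SqF9.Defs

/-!
# Bounds for `ζ` and `1/ζ` to the right of the line `Re s = b`, if there are no zeros there
-/

open Complex Filter Topology Set Pool.Agent.Hadamard

namespace Pool.Agent.SqF9

open Pool.Agent.SqFull

/-- `ζ` has no zeros with `b < Re s < 1`. -/
def NZb (b : ℝ) : Prop := ∀ s : ℂ, b < s.re → s.re < 1 → riemannZeta s ≠ 0

lemma ntz_le {b : ℝ} (hNZ : NZb b) {ρ : ℂ} (h : ρ ∈ ntz) : ρ.re ≤ b := by
  by_contra hlt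
  exact hNZ ρ (not_le.1 hlt) h.2.2 h.1

lemma xiF_ne_zero9 {b : ℝ} (hb0 : 1 / 2 ≤ b) (hb1 : b < 1) (hNZ : NZb b) {s : ℂ} (hs : b < s.re) : xiF s ≠ 0 := by
  intro h
  have := ntz_le hNZ (xiF_eq_zero_iff.mp h)
  linarith

lemma ZZ_ne_zero9 {b : ℝ} (hb0 : 1 / 2 ≤ b) (hb1 : b < 1) (hNZ : NZb b) {s : ℂ} (hs : b < s.re) : ZZ s ≠ 0 := by
  have h0 : s ≠ 0 := by rintro rfl; simp at hs; linarith
  have hG : Gammaℝ s ≠ 0 := Gammaℝ_ne_zero_of_re_pos (by linarith)
  exact div_ne_zero (xiF_ne_zero9 hb0 hb1 hNZ hs) (mul_ne_zero h0 hG)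

lemma logDeriv_ZZ9 {b : ℝ} (hb0 : 1 / 2 ≤ b) (hb1 : b < 1) (hNZ : NZb b) {s : ℂ} (hs : b < s.re) :
    logDeriv ZZ s = QQ s := by
  have hs0 : 0 < s.re := by linarith
  have h0 : s ≠ 0 := by rintro rfl; simp at hs0
  have hG : Gammaℝ s ≠ 0 := Gammaℝ_ne_zero_of_re_pos hs0
  have h2 := Gammaℝ_differentiableAt hs0
  have h3 : ZZ = fun s => xiF s / (s * Gammaℝ s) := rfl
  rw [h3, logDeriv_div (f := xiF) (g := fun s => s * Gammaℝ s) s (xiF_ne_zero9 hb0 hb1 hNZ hs)
    (mul_ne_zero h0 hG) (xiF_differentiable s)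
    (by fun_prop), logDeriv_mul (f := fun s : ℂ => s) s h0 hG (by fun_prop) h2,
    logDeriv_Gammaℝ hs0]
  have e1 : logDeriv (fun s : ℂ => s) s = 1 / s := by
    rw [logDeriv_apply]; simp
  rw [e1, QQ]
  ring

lemma norm_xi_diff_le9 {b : ℝ} (hb0 : 1 / 2 ≤ b) (hb1 : b < 1) (hNZ : NZb b) {η : ℝ} (hη : 0 < η) (hη1 : η ≤ 1) : ∃ C : ℝ,
    0 < C ∧ ∀ s : ℂ, b + η ≤ s.re → s.re ≤ 3 →
    ‖logDeriv xiF s - logDeriv xiF (pt s.im)‖ ≤ C * Real.log (|s.im| + 2) := by
  obtain ⟨C, hC, hw⟩ := tsum_weight_le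
  refine ⟨2 / η * C, by positivity, fun s hs hs3 => ?_⟩
  have hsn : s ∉ ntz := fun h => by have := ntz_le hNZ h; linarith
  have hwn : pt s.im ∉ ntz := fun h => by have := h.2.2; simp at this
  have h1 := hasSum_complex_zeros hsn hwn
  have hb : ∀ ρ : ntz, ‖(mult ρ : ℂ) * (1 / (s - ρ) - 1 / (pt s.im - ρ))‖ ≤
      2 / η * ((mult ρ : ℝ) / (1 + (s.im - (ρ:ℂ).im) ^ 2)) := by
    intro ρ
    have hρ := ntz_le hNZ ρ.2
    have hρ1 := ρ.2.2.2
    set v := s.im - (ρ:ℂ).im with hv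
    have n1 : η ^ 2 * (1 + v ^ 2) ≤ ‖s - ρ‖ ^ 2 := by
      rw [Complex.sq_norm, Complex.normSq_apply]
      simp only [sub_re, sub_im, ← hv]
      have : η ^ 2 ≤ 1 := by nlinarith
      have h8 : η ≤ s.re - (ρ:ℂ).re := by linarith
      have h9 : η ^ 2 ≤ (s.re - (ρ:ℂ).re) * (s.re - (ρ:ℂ).re) := by nlinarith
      nlinarith [sq_nonneg v]
    have n2 : 1 + v ^ 2 ≤ ‖pt s.im - ρ‖ ^ 2 := by
      rw [Complex.sq_norm, Complex.normSq_apply]
      simp only [sub_re, sub_im, pt_re, pt_im, ← hv]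
      have h8 : 1 ≤ 2 - (ρ:ℂ).re := by linarith
      nlinarith [sq_nonneg v]
    have hs0 : s - ρ ≠ 0 := by
      intro h; rw [h] at n1; simp at n1; nlinarith [sq_nonneg v, sq_pos_of_pos hη]
    have hw0 : pt s.im - ρ ≠ 0 := by
      intro h; rw [h] at n2; simp at n2; nlinarith [sq_nonneg v]
    have e1 : 1 / (s - ρ) - 1 / (pt s.im - ρ) = (pt s.im - s) / ((s - ρ) * (pt s.im - ρ)) := by
      field_simp
      ring
    have e2 : ‖pt s.im - s‖ ≤ 2 := by
      have : pt s.im - s = ((2 - s.re : ℝ) : ℂ) := by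
        apply Complex.ext <;> simp
      rw [this, Complex.norm_real, Real.norm_eq_abs, abs_le]
      constructor <;> linarith
    have n3 : η * (1 + v ^ 2) ≤ ‖s - ρ‖ * ‖pt s.im - ρ‖ := by
      refine abs_le_of_sq_le_sq' ?_ (by positivity) |>.2
      rw [mul_pow, mul_pow]
      calc η ^ 2 * (1 + v ^ 2) ^ 2 = (η ^ 2 * (1 + v ^ 2)) * (1 + v ^ 2) := by ring
        _ ≤ ‖s - ρ‖ ^ 2 * ‖pt s.im - ρ‖ ^ 2 := by gcongr
    rw [norm_mul, e1, norm_div, norm_mul]
    have hm : ‖(mult ρ : ℂ)‖ = (mult ρ : ℝ) := by simp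
    rw [hm]
    have : ‖pt s.im - s‖ / (‖s - ρ‖ * ‖pt s.im - ρ‖) ≤ 2 / (η * (1 + v ^ 2)) :=
      div_le_div₀ (by norm_num) e2 (by positivity) n3
    calc (mult ρ : ℝ) * (‖pt s.im - s‖ / (‖s - ρ‖ * ‖pt s.im - ρ‖))
        ≤ (mult ρ : ℝ) * (2 / (η * (1 + v ^ 2))) := by gcongr
      _ = _ := by field_simp
  have h2 := (summable_weight s.im).mul_left (2 / η)
  have h3 := tsum_of_norm_bounded (h2.hasSum) hb
  rw [h1.tsum_eq, tsum_mul_left] at h3
  refine h3.trans ?_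
  rw [mul_assoc]
  gcongr
  exact hw s.im

/-- `Z'/Z ≪ log` to the right of the critical line. -/
lemma norm_QQ_le9 {b : ℝ} (hb0 : 1 / 2 ≤ b) (hb1 : b < 1) (hNZ : NZb b) {η : ℝ} (hη : 0 < η) (hη1 : η ≤ 1) : ∃ C : ℝ,
    0 < C ∧ ∀ s : ℂ, b + η ≤ s.re → s.re ≤ 3 → ‖QQ s‖ ≤ C * Real.log (|s.im| + 2) := by
  obtain ⟨C, hC, h1⟩ := norm_xi_diff_le9 hb0 hb1 hNZ hη hη1
  obtain ⟨B, hB, h2⟩ := norm_logDeriv_zeta_two
  refine ⟨C + 2 * B + 200, by positivity, fun s hs hs3 => ?_⟩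
  have h3 := h1 s hs hs3
  have h4 := h2 s.im
  have hL : (1:ℝ) / 2 ≤ Real.log (|s.im| + 2) := one_half_le_log s.im
  have h5 := logDeriv_xiF_pt s.im
  have h6 := norm_digamma_half_le (s := s) (by linarith) hs3
  have h7 := norm_digamma_half_le (s := pt s.im) (by simp; norm_num) (by simp; norm_num)
  rw [pt_im] at h7
  have h8 := norm_one_div_pt s.im
  have h9 := norm_one_div_pt_sub s.im
  have h10 : ‖1 / s‖ ≤ 2 := by
    rw [norm_div, norm_one]
    have hge : (1:ℝ) / 2 ≤ ‖s‖ := by have := re_le_norm s; linarith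
    rw [div_le_iff₀ (by linarith)]; linarith
  have key : QQ s = (logDeriv xiF s - logDeriv xiF (pt s.im)) + 1 / pt s.im + 1 / (pt s.im - 1) +
      logDeriv Complex.Gamma (pt s.im / 2) / 2 + logDeriv riemannZeta (pt s.im) - 1 / s
      - logDeriv Complex.Gamma (s / 2) / 2 := by
    rw [QQ, h5]; ring
  rw [key]
  have n1 : ‖logDeriv Complex.Gamma (s / 2) / 2‖ ≤ 50 * Real.log (|s.im| + 2) := by
    rw [norm_div]; simp only [Complex.norm_ofNat]; linarith
  have n2 : ‖logDeriv Complex.Gamma (pt s.im / 2) / 2‖ ≤ 50 * Real.log (|s.im| + 2) := by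
    rw [norm_div]; simp only [Complex.norm_ofNat]; linarith
  refine (norm_sub_le _ _).trans ?_
  refine (add_le_add_left (norm_sub_le _ _) _).trans ?_
  refine (add_le_add_left (add_le_add_left (norm_add_le _ _) _) _).trans ?_
  refine (add_le_add_left (add_le_add_left (add_le_add_left (norm_add_le _ _) _) _) _).trans ?_
  refine (add_le_add_left (add_le_add_left (add_le_add_left (add_le_add_left
    (norm_add_le _ _) _) _) _) _).trans ?_
  refine (add_le_add_left (add_le_add_left (add_le_add_left (add_le_add_left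
    (add_le_add_left (norm_add_le _ _) _) _) _) _) _).trans ?_
  nlinarith

lemma QQ_differentiableAt9 {b : ℝ} (hb0 : 1 / 2 ≤ b) (hb1 : b < 1) (hNZ : NZb b) {s : ℂ} (hs : b < s.re) :
    DifferentiableAt ℂ QQ s := by
  have ho : IsOpen {z : ℂ | b < z.re} := isOpen_lt continuous_const continuous_re
  have hd : DifferentiableOn ℂ ZZ {z : ℂ | b < z.re} := fun z hz =>
    (ZZ_differentiableAt (by have : b < z.re := hz; linarith)).differentiableWithinAt
  have h1 : DifferentiableAt ℂ (fun z => deriv ZZ z / ZZ z) s := by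
    have h2 := (hd.deriv ho).differentiableAt (ho.mem_nhds hs)
    exact h2.div (ZZ_differentiableAt (by linarith)) (ZZ_ne_zero9 hb0 hb1 hNZ hs)
  refine h1.congr_of_eventuallyEq ?_
  filter_upwards [ho.mem_nhds hs] with z hz
  rw [← logDeriv_ZZ9 hb0 hb1 hNZ hz, logDeriv_apply]

lemma norm_QQ_two9 : ∃ C : ℝ, 0 < C ∧ ∀ t : ℝ, ‖QQ (pt t)‖ ≤ C := by
  obtain ⟨B, hB, h2⟩ := norm_logDeriv_zeta_two
  refine ⟨1 + B, by positivity, fun t => ?_⟩
  have h5 := logDeriv_xiF_pt t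
  have key : QQ (pt t) = 1 / (pt t - 1) + logDeriv riemannZeta (pt t) := by
    rw [QQ, h5]; ring
  rw [key]
  exact (norm_add_le _ _).trans (add_le_add (norm_one_div_pt_sub t) (h2 t))

/-- `Z'/Z = O((log t)^(1-θ))` to the right of the critical line. -/
lemma norm_QQ_le_rpow9 {b : ℝ} (hb0 : 1 / 2 ≤ b) (hb1 : b < 1) (hNZ : NZb b) {η : ℝ} (hη : 0 < η) (hη1 : η ≤ 1) : ∃ C θ : ℝ,
    0 < C ∧ 0 < θ ∧ θ < 1 ∧ ∀ s : ℂ, b + η ≤ s.re → s.re ≤ 2 →
      ‖QQ s‖ ≤ C * Real.log (|s.im| + 2) ^ (1 - θ) := by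
  obtain ⟨C, hC, h1⟩ := norm_QQ_le9 hb0 hb1 hNZ (η := η / 2) (by positivity) (by linarith)
  obtain ⟨B, hB, h2⟩ := norm_QQ_two9
  set l : ℝ := b + η / 2 with hl
  -- the constant for the line `Re = l`
  set a : ℝ → ℝ := fun T => Real.exp 9 * (3 * C) * Real.log (|T| + 2) with ha
  set bb : ℝ := Real.exp 9 * (B + 1) with hbb
  have hul : l < 2 := by rw [hl]; linarith
  have hlogadd : ∀ y T : ℝ, Real.log (|y + T| + 2) ≤ 3 * Real.log (|T| + 2) * Real.exp (y ^ 2) := by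
    intro y T
    have hL : (1:ℝ) / 2 ≤ Real.log (|T| + 2) := one_half_le_log T
    have e1 : |y + T| + 2 ≤ (|T| + 2) * (1 + |y|) := by
      have := abs_add_le y T
      have h3 := abs_nonneg y
      have h4 := abs_nonneg T
      nlinarith
    have e2 : Real.log (|y + T| + 2) ≤ Real.log (|T| + 2) + Real.log (1 + |y|) := by
      rw [← Real.log_mul (by positivity) (by positivity)]
      exact Real.log_le_log (by positivity) e1
    have e3 : Real.log (1 + |y|) ≤ |y| := by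
      have := Real.log_le_sub_one_of_pos (show (0:ℝ) < 1 + |y| by positivity)
      linarith
    have e4 : 1 + y ^ 2 ≤ Real.exp (y ^ 2) := by
      have := Real.add_one_le_exp (y ^ 2); linarith
    have e5 : |y| ≤ 1 / 2 * (1 + y ^ 2) := by
      rw [← sq_abs y]; nlinarith [sq_nonneg (|y| - 1)]
    have e6 : 1 ≤ Real.exp (y ^ 2) := Real.one_le_exp (sq_nonneg y)
    nlinarith
  refine ⟨Real.exp 9 * (3 * C + B + 1) * 2 , η / 4, by positivity, by positivity, by linarith,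
    fun s hs hs2 => ?_⟩
  set T := s.im with hT
  set f : ℂ → ℂ := fun z => QQ (z + T * I) * Complex.exp (z ^ 2) with hf
  have hre : ∀ z : ℂ, (z + T * I).re = z.re := fun z => by simp
  have him : ∀ z : ℂ, (z + T * I).im = z.im + T := fun z => by simp
  have hexp : ∀ z : ℂ, ‖Complex.exp (z ^ 2)‖ = Real.exp (z.re ^ 2 - z.im ^ 2) := by
    intro z
    rw [Complex.norm_exp]
    congr 1
    simp [sq]
  have hbound : ∀ z : ℂ, l ≤ z.re → z.re ≤ 2 → ‖f z‖ ≤ a T := by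
    intro z hz1 hz2
    have h3 := h1 (z + T * I) (by rw [hre]; exact hz1) (by rw [hre]; linarith)
    rw [him] at h3
    simp only [hf, norm_mul, hexp]
    have h4 := hlogadd z.im T
    have h5 : Real.exp (z.re ^ 2 - z.im ^ 2) ≤ Real.exp 9 * Real.exp (-(z.im ^ 2)) := by
      rw [← Real.exp_add]
      apply Real.exp_le_exp.mpr
      have : z.re ^ 2 ≤ 4 := by
        have : 0 ≤ z.re := by rw [hl] at hz1; linarith
        nlinarith
      linarith
    have hL : (1:ℝ) / 2 ≤ Real.log (|T| + 2) := one_half_le_log T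
    calc ‖QQ (z + T * I)‖ * Real.exp (z.re ^ 2 - z.im ^ 2)
        ≤ (C * (3 * Real.log (|T| + 2) * Real.exp (z.im ^ 2))) *
            (Real.exp 9 * Real.exp (-(z.im ^ 2))) := by
          gcongr
          exact h3.trans (by gcongr)
      _ = Real.exp 9 * (3 * C) * Real.log (|T| + 2) * (Real.exp (z.im ^ 2) *
            Real.exp (-(z.im ^ 2))) := by ring
      _ = a T := by rw [← Real.exp_add]; simp [ha]
  have hboundr : ∀ z : ℂ, z.re = 2 → ‖f z‖ ≤ bb := by
    intro z hz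
    have e1 : z + T * I = pt (z.im + T) := by
      apply Complex.ext <;> simp [hz]
    simp only [hf, norm_mul, hexp]
    rw [e1]
    have h3 := h2 (z.im + T)
    have h5 : Real.exp (z.re ^ 2 - z.im ^ 2) ≤ Real.exp 9 := by
      apply Real.exp_le_exp.mpr
      rw [hz]
      have := sq_nonneg z.im
      norm_num; linarith
    calc ‖QQ (pt (z.im + T))‖ * Real.exp (z.re ^ 2 - z.im ^ 2) ≤ B * Real.exp 9 := by gcongr
      _ ≤ bb := by rw [hbb]; nlinarith [Real.exp_pos (9:ℝ)]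
  have hmem : (s.re : ℂ) ∈ Complex.HadamardThreeLines.verticalClosedStrip l 2 := by
    simp only [Complex.HadamardThreeLines.verticalClosedStrip, mem_preimage, ofReal_re, mem_Icc]
    constructor
    · rw [hl]; linarith
    · exact hs2
  have hdiff : DifferentiableOn ℂ f {z : ℂ | b < z.re} := by
    intro z hz
    have h3 : DifferentiableAt ℂ QQ (z + T * I) := QQ_differentiableAt9 hb0 hb1 hNZ (by rw [hre]; exact hz)
    have h4 : DifferentiableAt ℂ (fun z : ℂ => QQ (z + T * I)) z := by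
      have h5 : DifferentiableAt ℂ (fun z : ℂ => z + T * I) z := by fun_prop
      exact DifferentiableAt.comp z h3 h5
    exact (h4.mul (by fun_prop)).differentiableWithinAt
  have hsub : Complex.HadamardThreeLines.verticalClosedStrip l 2 ⊆ {z : ℂ | b < z.re} := by
    intro z hz
    simp only [Complex.HadamardThreeLines.verticalClosedStrip, mem_preimage, mem_Icc] at hz
    simp only [mem_setOf_eq]
    rw [hl] at hz; linarith [hz.1]
  have hd : DiffContOnCl ℂ f (Complex.HadamardThreeLines.verticalStrip l 2) := by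
    refine ⟨hdiff.mono fun z hz => hsub ?_, ?_⟩
    · simp only [Complex.HadamardThreeLines.verticalStrip, mem_preimage, mem_Ioo] at hz
      simp only [Complex.HadamardThreeLines.verticalClosedStrip, mem_preimage, mem_Icc]
      exact ⟨hz.1.le, hz.2.le⟩
    · refine hdiff.continuousOn.mono fun z hz => hsub ?_
      have hcl : IsClosed (Complex.HadamardThreeLines.verticalClosedStrip l 2) :=
        isClosed_Icc.preimage continuous_re
      refine closure_minimal ?_ hcl hz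
      intro w hw
      simp only [Complex.HadamardThreeLines.verticalStrip, mem_preimage, mem_Ioo] at hw
      simp only [Complex.HadamardThreeLines.verticalClosedStrip, mem_preimage, mem_Icc]
      exact ⟨hw.1.le, hw.2.le⟩
  have hB' : BddAbove ((norm ∘ f) '' Complex.HadamardThreeLines.verticalClosedStrip l 2) := by
    refine ⟨a T, ?_⟩
    rintro _ ⟨z, hz, rfl⟩
    simp only [Complex.HadamardThreeLines.verticalClosedStrip, mem_preimage, mem_Icc] at hz
    exact hbound z hz.1 hz.2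
  have h3 := Complex.HadamardThreeLines.norm_le_interp_of_mem_verticalClosedStrip' hul hmem hd hB'
    (a := a T) (b := bb) (fun z hz => by
      simp only [mem_preimage, mem_singleton_iff] at hz
      exact hbound z (by rw [hz]) (by rw [hz]; linarith))
    (fun z hz => by
      simp only [mem_preimage, mem_singleton_iff] at hz
      exact hboundr z hz)
  rw [ofReal_re] at h3
  have hfs : ‖QQ s‖ ≤ ‖f s.re‖ := by
    simp only [hf, norm_mul, hexp, ofReal_re, ofReal_im]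
    have e1 : (s.re : ℂ) + T * I = s := by rw [hT]; exact Complex.re_add_im s
    rw [e1]
    have : 1 ≤ Real.exp (s.re ^ 2 - 0 ^ 2) := Real.one_le_exp (by nlinarith [sq_nonneg s.re])
    nlinarith [norm_nonneg (QQ s)]
  refine hfs.trans (h3.trans ?_)
  have hL : (1:ℝ) / 2 ≤ Real.log (|T| + 2) := one_half_le_log T
  set x := (s.re - l) / (2 - l) with hx
  have hx0 : η / 4 ≤ x := by
    rw [hx, le_div_iff₀ (by linarith)]
    rw [hl]
    nlinarith
  have hx1 : x ≤ 1 := by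
    rw [hx, div_le_one (by linarith)]; linarith
  set K := Real.exp 9 * (3 * C + B + 1) with hK
  have hK1 : 1 ≤ K := by
    have : 1 ≤ Real.exp 9 := Real.one_le_exp (by norm_num)
    rw [hK]; nlinarith
  have hlp : 0 < Real.log (|T| + 2) := by linarith
  have hKp : 0 < K := by linarith
  have hKL : 0 < K * Real.log (|T| + 2) := by positivity
  have e1 : a T ^ (1 - x) ≤ (K * Real.log (|T| + 2)) ^ (1 - x) := by
    apply Real.rpow_le_rpow (by simp only [ha]; positivity) _ (by linarith)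
    simp only [ha, hK]
    gcongr
    linarith
  have e2 : bb ^ x ≤ K ^ x := by
    apply Real.rpow_le_rpow (by positivity) _ (by linarith)
    simp only [hbb, hK]
    gcongr
    linarith
  have e3 : Real.log (|T| + 2) ^ (1 - x) ≤ 2 * Real.log (|T| + 2) ^ (1 - η / 4) := by
    have : Real.log (|T| + 2) ^ (1 - x) = Real.log (|T| + 2) ^ (1 - η / 4) *
        Real.log (|T| + 2) ^ (η / 4 - x) := by
      rw [← Real.rpow_add (by linarith)]; congr 1; ring
    rw [this]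
    have e4 : Real.log (|T| + 2) ^ (η / 4 - x) ≤ 2 := by
      have e5 : Real.log (|T| + 2) ^ (η / 4 - x) ≤ (1 / 2 : ℝ) ^ (η / 4 - x) := by
        apply Real.rpow_le_rpow_of_nonpos (by norm_num) hL (by linarith)
      refine e5.trans ?_
      rw [one_div, Real.inv_rpow (by norm_num), ← Real.rpow_neg (by norm_num)]
      calc (2:ℝ) ^ (-(η / 4 - x)) ≤ 2 ^ (1:ℝ) :=
            Real.rpow_le_rpow_of_exponent_le (by norm_num) (by linarith)
        _ = 2 := by simp
    have : 0 ≤ Real.log (|T| + 2) ^ (1 - η / 4) := Real.rpow_nonneg (by linarith) _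
    nlinarith
  calc a T ^ (1 - x) * bb ^ x ≤ (K * Real.log (|T| + 2)) ^ (1 - x) * K ^ x := by gcongr
    _ = K * Real.log (|T| + 2) ^ (1 - x) := by
        rw [Real.mul_rpow hKp.le hlp.le, mul_right_comm, ← Real.rpow_add hKp]
        simp
    _ ≤ K * (2 * Real.log (|T| + 2) ^ (1 - η / 4)) := by gcongr
    _ = _ := by ring

/-- `Z(s)` and `1/Z(s)` have the expected size up to `t^ε` to the right of the
line `Re s = b`. -/
theorem ZZ_bounds9 {b : ℝ} (hb0 : 1 / 2 ≤ b) (hb1 : b < 1) (hNZ : NZb b) {η ε : ℝ} (hη : 0 < η) (hη1 : η ≤ 1) (hε : 0 < ε) :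
    ∃ C : ℝ, 0 < C ∧ ∀ s : ℂ, b + η ≤ s.re → s.re ≤ 2 →
      ‖ZZ s‖ ≤ C * (|s.im| + 2) ^ (1 + ε) ∧ ‖ZZ s‖⁻¹ ≤ C * (|s.im| + 2) ^ (ε - 1) := by
  obtain ⟨C, θ, hC, hθ, hθ1, h1⟩ := norm_QQ_le_rpow9 hb0 hb1 hNZ hη hη1
  obtain ⟨K, hK, h2⟩ := exp_rpow_le (C := 2 * C) (θ := θ) (ε := ε) (by positivity) hθ hθ1 hε
  refine ⟨16 * K, by positivity, fun s hs hs2 => ?_⟩
  set t := s.im with ht
  set L := Real.log (|t| + 2) with hL
  have hLh : (1:ℝ) / 2 ≤ L := one_half_le_log t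
  have hLp : 0 < L := by linarith
  set f : ℝ → ℂ := fun x => ZZ (x + t * I) with hf
  have hd : ∀ x ∈ Icc s.re 2, HasDerivAt f (QQ (x + t * I) * f x) x := by
    intro x hx
    have hre : ((x:ℂ) + t * I).re = x := by simp
    have hpos : b < ((x:ℂ) + t * I).re := by rw [hre]; linarith [hx.1]
    have h3 : HasDerivAt ZZ (deriv ZZ (x + t * I)) (x + t * I) :=
      (ZZ_differentiableAt (by linarith)).hasDerivAt
    have h4 : HasDerivAt (fun x : ℝ => (x:ℂ) + t * I) 1 x := by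
      simpa using (Complex.ofRealCLM.hasDerivAt (x := x)).add_const (t * I)
    have h5 := h3.comp x h4
    rw [mul_one] at h5
    have h6 : deriv ZZ (x + t * I) = QQ (x + t * I) * f x := by
      rw [← logDeriv_ZZ9 hb0 hb1 hNZ hpos, logDeriv_apply]
      simp only [hf]
      rw [div_mul_cancel₀ _ (ZZ_ne_zero9 hb0 hb1 hNZ hpos)]
    rw [h6] at h5
    exact h5
  have hM : ∀ x ∈ Icc s.re 2, ‖QQ (x + t * I) * f x‖ ≤ (C * L ^ (1 - θ)) * ‖f x‖ := by
    intro x hx
    rw [norm_mul]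
    have h3 := h1 (x + t * I) (by simp; linarith [hx.1]) (by simpa using hx.2)
    have him : ((x:ℂ) + t * I).im = t := by simp
    rw [him] at h3
    gcongr
  obtain ⟨r1, r2⟩ := norm_ratio hs2 hd hM
  have e1 : f s.re = ZZ s := by simp only [hf, ht, Complex.re_add_im]
  have e2 : f 2 = (pt t - 1) * riemannZeta (pt t) := by
    have : f 2 = ZZ (pt t) := by simp only [hf]; unfold pt; push_cast; rfl
    rw [this, ZZ_eq (by simp) (pt_ne_one t)]
  have e3 : Real.exp (C * L ^ (1 - θ) * (2 - s.re)) ≤ K * (|t| + 2) ^ ε := by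
    refine le_trans ?_ (h2 t)
    apply Real.exp_le_exp.mpr
    have h3 : 0 ≤ C * L ^ (1 - θ) := by positivity
    nlinarith
  obtain ⟨z1, z2⟩ := norm_zeta_two_bounds t
  obtain ⟨p1, p2⟩ := norm_pt_sub_one_bounds t
  have hx0 : 0 < |t| + 2 := by positivity
  have hKt : 0 < K * (|t| + 2) ^ ε := by positivity
  rw [e1, e2, norm_mul] at r1 r2
  constructor
  · calc ‖ZZ s‖ ≤ ‖pt t - 1‖ * ‖riemannZeta (pt t)‖ * Real.exp (C * L ^ (1 - θ) * (2 - s.re)) := r2
      _ ≤ (|t| + 2) * 2 * (K * (|t| + 2) ^ ε) := by gcongr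
      _ = 2 * K * (|t| + 2) ^ (1 + ε) := by
          rw [Real.rpow_add hx0, Real.rpow_one]; ring
      _ ≤ 16 * K * (|t| + 2) ^ (1 + ε) := by
          gcongr
          norm_num
  · have hZ : 0 < ‖ZZ s‖ := norm_pos_iff.mpr (ZZ_ne_zero9 hb0 hb1 hNZ (by linarith))
    have h3 : (|t| + 2) / 16 ≤ ‖ZZ s‖ * (K * (|t| + 2) ^ ε) := by
      calc (|t| + 2) / 16 = (|t| + 2) / 4 * (1 / 4) := by ring
        _ ≤ ‖pt t - 1‖ * ‖riemannZeta (pt t)‖ := by gcongr
        _ ≤ ‖ZZ s‖ * Real.exp (C * L ^ (1 - θ) * (2 - s.re)) := r1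
        _ ≤ _ := by gcongr
    rw [inv_le_iff_one_le_mul₀ hZ]
    have h4 : (|t| + 2) ^ (ε - 1) = (|t| + 2) ^ ε / (|t| + 2) := by
      rw [Real.rpow_sub hx0, Real.rpow_one]
    rw [h4]
    have h5 : 16 * K * ((|t| + 2) ^ ε / (|t| + 2)) * ‖ZZ s‖ =
        16 * (‖ZZ s‖ * (K * (|t| + 2) ^ ε)) / (|t| + 2) := by ring
    rw [h5, le_div_iff₀ hx0]
    linarith

theorem ZZ_ne_zero' (h : NZ) {s : ℂ} (hs : 3 / 5 < s.re) : ZZ s ≠ 0 :=
  ZZ_ne_zero9 (b := 3 / 5) (by norm_num) (by norm_num) h hs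

theorem ZZ_bounds' (h : NZ) {η ε : ℝ} (hη : 0 < η) (hη1 : η ≤ 1) (hε : 0 < ε) :
    ∃ C : ℝ, 0 < C ∧ ∀ s : ℂ, 3 / 5 + η ≤ s.re → s.re ≤ 2 →
      ‖ZZ s‖ ≤ C * (|s.im| + 2) ^ (1 + ε) ∧ ‖ZZ s‖⁻¹ ≤ C * (|s.im| + 2) ^ (ε - 1) :=
  ZZ_bounds9 (b := 3 / 5) (by norm_num) (by norm_num) h hη hη1 hε

end Pool.Agent.SqF9
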