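import Pool.Agent.SqFull.Main
import Pool.Agent.SqF9.RHB
import Pool.Agent.SqF9.Chi

/-!
# The mean square of the error term for square-full integers, from a zero-free half plane

This file follows `Pool.Agent.SqFull.ZetaLeft` and `Pool.Agent.SqFull.Main`; the Riemann
hypothesis is replaced by the absence of zeros in `3/5 < Re s < 1`.
-/

open Complex Filter Topology Set MeasureTheory Pool.Agent.Hadamard Pool.Agent.SqFull

namespace Pool.Agent.SqF9

/-- `ζ` on the imaginary axis. -/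
lemma norm_zeta_left' (h : NZ) {ε : ℝ} (hε : 0 < ε) :
    ∃ C : ℝ, 0 < C ∧ ∀ t : ℝ, ‖riemannZeta (t * I)‖ ≤ C * (|t| + 2) ^ (1 / 2 + ε) := by
  obtain ⟨C, hC, h1⟩ := ZZ_bounds' h (η := 2/5) (by norm_num) (by norm_num) hε
  obtain ⟨K, hK⟩ := isCompact_Icc.exists_bound_of_continuousOn (s := Icc (-1:ℝ) 1)
    (f := fun t : ℝ => riemannZeta (t * I)) (by
      intro t _
      have h2 : ContinuousAt riemannZeta (t * I) := by
        refine (differentiableAt_riemannZeta ?_).continuousAt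
        intro h
        have := congrArg Complex.re h
        simp at this
      have h3 : ContinuousAt (fun t : ℝ => (t * I : ℂ)) t := by fun_prop
      exact (ContinuousAt.comp (f := fun t : ℝ => (t * I : ℂ)) h2 h3).continuousWithinAt)
  have hK0 : 0 ≤ K := (norm_nonneg _).trans (hK 0 (by constructor <;> norm_num))
  refine ⟨K + 3 * C, by positivity, fun t => ?_⟩
  have hT : (1:ℝ) ≤ |t| + 2 := by linarith [abs_nonneg t]
  have hT0 : 0 < |t| + 2 := by linarith
  rcases le_total |t| 1 with h' | h'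
  · calc ‖riemannZeta (t * I)‖ ≤ K := hK t (abs_le.mp h')
      _ ≤ (K + 3 * C) * 1 := by linarith
      _ ≤ _ := by
        gcongr
        exact Real.one_le_rpow hT (by positivity)
  · have ht : t ≠ 0 := by rintro rfl; simp at h'; linarith
    have h2 := (h1 (1 - t * I) (by simp; norm_num) (by simp)).1
    have hne : (1 - t * I : ℂ) ≠ 1 := by
      intro h3
      have := congrArg Complex.im h3
      simp at this
      exact ht this
    rw [ZZ_eq (by simp) hne, norm_mul] at h2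
    have e1 : ‖(1 - t * I - 1 : ℂ)‖ = |t| := by
      have : (1 - t * I - 1 : ℂ) = -(t * I) := by ring
      rw [this, norm_neg]; simp
    have e2 : |(1 - t * I : ℂ).im| = |t| := by simp
    rw [e1, e2] at h2
    have ht0 : 0 < |t| := by linarith
    have h3 : ‖riemannZeta (1 - t * I)‖ ≤ 3 * C * (|t| + 2) ^ ε := by
      have h4 : |t| * ‖riemannZeta (1 - t * I)‖ ≤ |t| * (3 * C * (|t| + 2) ^ ε) := by
        refine h2.trans ?_
        rw [Real.rpow_add hT0, Real.rpow_one]
        have h5 : |t| + 2 ≤ 3 * |t| := by linarith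
        calc C * ((|t| + 2) * (|t| + 2) ^ ε) ≤ C * ((3 * |t|) * (|t| + 2) ^ ε) := by gcongr
          _ = _ := by ring
      exact le_of_mul_le_mul_left h4 ht0
    have h5 : √|t| ≤ (|t| + 2) ^ (1 / 2 : ℝ) := by
      rw [Real.sqrt_eq_rpow]
      exact Real.rpow_le_rpow (abs_nonneg t) (by linarith) (by norm_num)
    calc ‖riemannZeta (t * I)‖ ≤ √|t| * ‖riemannZeta (1 - t * I)‖ := norm_zeta_I_le ht
      _ ≤ (|t| + 2) ^ (1 / 2 : ℝ) * (3 * C * (|t| + 2) ^ ε) := by gcongr
      _ = 3 * C * (|t| + 2) ^ (1 / 2 + ε) := by rw [Real.rpow_add hT0]; ring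
      _ ≤ _ := by
        gcongr
        linarith

/-- Convexity bound to the left of the critical line, from a zero-free half plane. -/
lemma norm_zeta_strip' (h : NZ) {η ε : ℝ} (hη : 0 < η) (hη1 : η < 2 / 5)
    (hε : 0 < ε) (hε1 : ε ≤ 1) :
    ∃ C : ℝ, 0 < C ∧ ∀ s : ℂ, 0 ≤ s.re → s.re ≤ 3 / 5 + η →
      ‖riemannZeta s‖ ≤ C * (|s.im| + 2) ^ (1 / 2 * (1 - s.re / (3 / 5 + η)) + ε) := by
  set b := 3 / 5 + η with hb
  have hb0 : 0 < b := by linarith
  have hb1 : b < 1 := by linarith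
  obtain ⟨C1, hC1, h1⟩ := norm_zeta_left' h hε
  obtain ⟨C2, hC2, h2⟩ := ZZ_bounds' h hη (by linarith) hε
  obtain ⟨M, hM, h3⟩ := norm_zeta_apriori hb1
  -- the right line
  have hr : ∀ s : ℂ, s.re = b → ‖riemannZeta s‖ ≤ 3 / (1 - b) * C2 * (|s.im| + 2) ^ ε := by
    intro s hs
    have hs1 : s ≠ 1 := by
      rintro rfl; simp at hs; linarith
    have h4 := (h2 s (by rw [hs]) (by rw [hs]; linarith)).1
    rw [ZZ_eq (by rw [hs]; exact hb0) hs1, norm_mul] at h4
    have hT0 : 0 < |s.im| + 2 := by positivity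
    have h5 : (|s.im| + 2) * (1 - b) / 3 ≤ ‖s - 1‖ := by
      have h6 : |s.im| ≤ ‖s - 1‖ := by
        have := Complex.abs_im_le_norm (s - 1)
        simpa using this
      have h7 : 1 - b ≤ ‖s - 1‖ := by
        have := Complex.abs_re_le_norm (s - 1)
        simp only [sub_re, one_re, hs] at this
        rw [abs_sub_comm, abs_of_nonneg (by linarith)] at this
        exact this
      nlinarith [abs_nonneg s.im]
    have h8 : (|s.im| + 2) * (1 - b) / 3 * ‖riemannZeta s‖ ≤ C2 * (|s.im| + 2) ^ (1 + ε) :=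
      (mul_le_mul_of_nonneg_right h5 (norm_nonneg _)).trans h4
    rw [Real.rpow_add hT0, Real.rpow_one] at h8
    have h9 : 0 < (|s.im| + 2) * (1 - b) / 3 := by
      have : 0 < 1 - b := by linarith
      positivity
    refine le_of_mul_le_mul_left ?_ h9
    refine h8.trans (le_of_eq ?_)
    have : (1 - b) ≠ 0 := by linarith
    field_simp
  set D := 4 * Real.exp 1 * (C1 + 3 / (1 - b) * C2) with hD
  have h1b : 0 < 1 - b := by linarith
  have hD0 : 0 < D := by positivity
  refine ⟨D, hD0, fun z hz0 hzb => ?_⟩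
  set τ := z.im with hτ
  set T := |τ| + 2 with hT
  have hT1 : 1 ≤ T := by linarith [abs_nonneg τ]
  have hT0 : 0 < T := by linarith
  set f : ℂ → ℂ := fun s => riemannZeta s * Complex.exp ((s - τ * I) ^ 2) with hf
  have hnexp : ∀ s : ℂ, ‖Complex.exp ((s - τ * I) ^ 2)‖ = Real.exp (s.re ^ 2 - (s.im - τ) ^ 2) := by
    intro s
    rw [Complex.norm_exp]
    congr 1
    simp [sq]
  have hd : DiffContOnCl ℂ f (HadamardThreeLines.verticalStrip 0 b) := by
    have hdiff : ∀ s : ℂ, s.re ≤ b → DifferentiableAt ℂ f s := by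
      intro s hs
      have hs1 : s ≠ 1 := by
        rintro rfl; simp at hs; linarith
      exact (differentiableAt_riemannZeta hs1).mul (by fun_prop)
    refine DifferentiableOn.diffContOnCl fun s hs => (hdiff s ?_).differentiableWithinAt
    have hcl : IsClosed {s : ℂ | s.re ≤ b} := isClosed_le Complex.continuous_re continuous_const
    exact (closure_minimal (fun s hs => (le_of_lt hs.2 : s.re ≤ b)) hcl) hs
  have hB : BddAbove ((norm ∘ f) '' HadamardThreeLines.verticalClosedStrip 0 b) := by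
    refine ⟨M * Real.exp (4 * |τ| + 5), ?_⟩
    rintro _ ⟨s, hs, rfl⟩
    have hs0 : 0 ≤ s.re := hs.1
    have hsb : s.re ≤ b := hs.2
    simp only [Function.comp, hf, norm_mul, hnexp]
    calc ‖riemannZeta s‖ * Real.exp (s.re ^ 2 - (s.im - τ) ^ 2)
        ≤ (M * Real.exp (4 * |s.im|)) * Real.exp (s.re ^ 2 - (s.im - τ) ^ 2) := by
          gcongr
          exact h3 s hs0 hsb
      _ = M * Real.exp (4 * |s.im| + (s.re ^ 2 - (s.im - τ) ^ 2)) := by
          rw [Real.exp_add]; ring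
      _ ≤ M * Real.exp (4 * |τ| + 5) := by
          refine mul_le_mul_of_nonneg_left (Real.exp_le_exp.mpr ?_) hM.le
          have h4 : |s.im| ≤ |τ| + |s.im - τ| := by
            have : s.im = τ + (s.im - τ) := by ring
            calc |s.im| = |τ + (s.im - τ)| := by rw [← this]
              _ ≤ _ := abs_add_le _ _
          have h5 : s.re ^ 2 ≤ 1 := by nlinarith
          have h6 : (s.im - τ) ^ 2 = |s.im - τ| ^ 2 := (sq_abs _).symm
          nlinarith [sq_nonneg (|s.im - τ| - 2)]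
  have hleft : ∀ s ∈ re ⁻¹' {(0:ℝ)}, ‖f s‖ ≤ D * T ^ (1 / 2 + ε) := by
    intro s hs
    have hs0 : s.re = 0 := hs
    have e1 : s = s.im * I := by
      apply Complex.ext <;> simp [hs0]
    have h4 := h1 s.im
    rw [← e1] at h4
    simp only [hf, norm_mul, hnexp, hs0]
    calc ‖riemannZeta s‖ * Real.exp (0 ^ 2 - (s.im - τ) ^ 2)
        ≤ (C1 * (|s.im| + 2) ^ (1 / 2 + ε)) * Real.exp (-(s.im - τ) ^ 2) := by
          have : (0:ℝ) ^ 2 - (s.im - τ) ^ 2 = -(s.im - τ) ^ 2 := by ring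
          rw [this]
          gcongr
      _ = C1 * ((|s.im| + 2) ^ (1 / 2 + ε) * Real.exp (-(s.im - τ) ^ 2)) := by ring
      _ ≤ C1 * (4 * T ^ (1 / 2 + ε)) :=
          mul_le_mul_of_nonneg_left (rpow_gauss_le (by positivity) (by linarith) _ _) hC1.le
      _ = (4 * 1 * C1) * T ^ (1 / 2 + ε) := by ring
      _ ≤ D * T ^ (1 / 2 + ε) := by
          rw [hD]
          gcongr
          · exact Real.one_le_exp zero_le_one
          · have : 0 < 3 / (1 - b) * C2 := by positivity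
            linarith
  have hright : ∀ s ∈ re ⁻¹' {b}, ‖f s‖ ≤ D * T ^ ε := by
    intro s hs
    have hs0 : s.re = b := hs
    have h4 := hr s hs0
    simp only [hf, norm_mul, hnexp, hs0]
    calc ‖riemannZeta s‖ * Real.exp (b ^ 2 - (s.im - τ) ^ 2)
        ≤ (3 / (1 - b) * C2 * (|s.im| + 2) ^ ε) * (Real.exp 1 * Real.exp (-(s.im - τ) ^ 2)) := by
          rw [← Real.exp_add]
          gcongr
          nlinarith
      _ = Real.exp 1 * (3 / (1 - b) * C2) * ((|s.im| + 2) ^ ε * Real.exp (-(s.im - τ) ^ 2)) := by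
          ring
      _ ≤ Real.exp 1 * (3 / (1 - b) * C2) * (4 * T ^ ε) :=
          mul_le_mul_of_nonneg_left (rpow_gauss_le hε.le (by linarith) _ _) (by positivity)
      _ = (4 * Real.exp 1 * (3 / (1 - b) * C2)) * T ^ ε := by ring
      _ ≤ D * T ^ ε := by
          rw [hD]
          gcongr
          linarith
  have hz : z ∈ HadamardThreeLines.verticalClosedStrip 0 b := ⟨hz0, hzb⟩
  have hmain := HadamardThreeLines.norm_le_interp_of_mem_verticalClosedStrip' hb0 hz hd hB
    hleft hright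
  have e2 : ‖riemannZeta z‖ ≤ ‖f z‖ := by
    simp only [hf, norm_mul, hnexp]
    have : 1 ≤ Real.exp (z.re ^ 2 - (z.im - τ) ^ 2) := by
      apply Real.one_le_exp
      rw [← hτ]; nlinarith [sq_nonneg z.re]
    exact le_mul_of_one_le_right (norm_nonneg _) this
  refine e2.trans (hmain.trans (le_of_eq ?_))
  simp only [sub_zero]
  set θ := z.re / b with hθ
  rw [Real.mul_rpow hD0.le (by positivity), Real.mul_rpow hD0.le (by positivity),
    ← Real.rpow_mul hT0.le, ← Real.rpow_mul hT0.le]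
  have e3 : D ^ (1 - θ) * T ^ ((1 / 2 + ε) * (1 - θ)) * (D ^ θ * T ^ (ε * θ)) =
      (D ^ (1 - θ) * D ^ θ) * (T ^ ((1 / 2 + ε) * (1 - θ)) * T ^ (ε * θ)) := by ring
  rw [e3, ← Real.rpow_add hD0, ← Real.rpow_add hT0]
  have e4 : (1 - θ) + θ = 1 := by ring
  have e5 : (1 / 2 + ε) * (1 - θ) + ε * θ = 1 / 2 * (1 - θ) + ε := by ring
  rw [e4, e5, Real.rpow_one]

/-- Upper bound for `ζ` in `x0 ≤ Re s`. -/
lemma zeta_upper' (h : NZ) {x0 ε : ℝ} (h0 : 1 / 5 ≤ x0) (h1 : x0 ≤ 31 / 100)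
    (hε : 0 < ε) (hε1 : ε ≤ 1) :
    ∃ C : ℝ, 0 < C ∧ ∀ s : ℂ, x0 ≤ s.re → 1 ≤ |s.im| →
      ‖riemannZeta s‖ ≤ C * (|s.im| + 2) ^ (1 / 2 - x0 + ε) := by
  obtain ⟨C1, hC1, H1⟩ := norm_zeta_strip' h (η := 1 / 100) (by norm_num) (by norm_num) hε hε1
  obtain ⟨C2, hC2, H2⟩ := ZZ_bounds' h (η := 1 / 100) (by norm_num) (by norm_num) (ε := ε) hε
  obtain ⟨C3, hC3, H3⟩ := chi_le
  refine ⟨C1 + 3 * C2 + C3 * (3 * C2) + 2, by positivity, fun s hs ht => ?_⟩
  set T := |s.im| + 2 with hT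
  have hT1 : 1 ≤ T := by linarith
  have hT0 : 0 < T := by linarith
  have hTp : 1 ≤ T ^ (1 / 2 - x0 + ε) := Real.one_le_rpow hT1 (by linarith)
  have hright : ∀ z : ℂ, 61 / 100 ≤ z.re → z.re ≤ 2 → |z.im| = |s.im| →
      ‖riemannZeta z‖ ≤ 3 * C2 * T ^ ε := by
    intro z hz1 hz2 hzi
    have h3 := (H2 z (by linarith) hz2).1
    have hs1 : z ≠ 1 := by
      rintro rfl; simp at hzi; linarith
    rw [ZZ_eq (by linarith) hs1, norm_mul, hzi, ← hT] at h3
    have h4 : T / 3 ≤ ‖z - 1‖ := by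
      have := Complex.abs_im_le_norm (z - 1)
      simp only [sub_im, one_im, sub_zero] at this
      linarith
    have h5 : T / 3 * ‖riemannZeta z‖ ≤ T / 3 * (3 * C2 * T ^ ε) := by
      refine (mul_le_mul_of_nonneg_right h4 (norm_nonneg _)).trans (h3.trans (le_of_eq ?_))
      rw [Real.rpow_add hT0, Real.rpow_one]
      ring
    exact le_of_mul_le_mul_left h5 (by positivity)
  rcases le_total s.re (39 / 100) with hA | hA
  · have hs0 : s ≠ 0 := by
      rintro rfl; simp at ht; linarith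
    have h3 := H3 s (by linarith) (by linarith)
    have h4 := hright (1 - s) (by simp; linarith) (by simp; linarith) (by simp)
    rw [norm_zeta_fe hs0 (by linarith)]
    calc 2 * (2 * Real.pi) ^ (s.re - 1) * ‖Complex.Gamma (1 - s)‖ *
          ‖Complex.cos (Real.pi * (1 - s) / 2)‖ * ‖riemannZeta (1 - s)‖
        ≤ (C3 * T ^ (1 / 2 - s.re)) * (3 * C2 * T ^ ε) := by gcongr
      _ ≤ (C3 * T ^ (1 / 2 - x0)) * (3 * C2 * T ^ ε) := by
          gcongr
      _ = C3 * (3 * C2) * T ^ (1 / 2 - x0 + ε) := by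
          rw [Real.rpow_add hT0]; ring
      _ ≤ (C1 + 3 * C2 + C3 * (3 * C2) + 2) * T ^ (1 / 2 - x0 + ε) := by
          gcongr
          linarith
  · rcases le_total s.re (3 / 5 + 1 / 100) with hB | hB
    · calc ‖riemannZeta s‖ ≤ C1 * T ^ (1 / 2 * (1 - s.re / (3 / 5 + 1 / 100)) + ε) :=
            H1 s (by linarith) hB
        _ ≤ C1 * T ^ (1 / 2 - x0 + ε) := by
            refine mul_le_mul_of_nonneg_left (Real.rpow_le_rpow_of_exponent_le hT1 ?_) hC1.le
            have h4 : (39 / 61 : ℝ) ≤ s.re / (3 / 5 + 1 / 100) := by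
              rw [le_div_iff₀ (by norm_num)]
              linarith
            linarith
        _ ≤ (C1 + 3 * C2 + C3 * (3 * C2) + 2) * T ^ (1 / 2 - x0 + ε) := by
            gcongr
            have : 0 < C3 * (3 * C2) := by positivity
            linarith
    · rcases le_total s.re 2 with h2 | h2
      · calc ‖riemannZeta s‖ ≤ 3 * C2 * T ^ ε := hright s (by linarith) h2 rfl
          _ ≤ 3 * C2 * T ^ (1 / 2 - x0 + ε) :=
              mul_le_mul_of_nonneg_left (Real.rpow_le_rpow_of_exponent_le hT1 (by linarith))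
                (by positivity)
          _ ≤ (C1 + 3 * C2 + C3 * (3 * C2) + 2) * T ^ (1 / 2 - x0 + ε) := by
              gcongr
              have : 0 < C3 * (3 * C2) := by positivity
              linarith
      · calc ‖riemannZeta s‖ ≤ 2 := (norm_zeta_bounds_two h2).2
          _ ≤ 2 * T ^ (1 / 2 - x0 + ε) := by linarith
          _ ≤ (C1 + 3 * C2 + C3 * (3 * C2) + 2) * T ^ (1 / 2 - x0 + ε) := by
              gcongr
              have : 0 < C3 * (3 * C2) := by positivity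
              linarith

/-- Upper bound for `1/ζ`. -/
lemma zeta_lower' (h : NZ) {x1 ε : ℝ} (h1 : 3 / 5 < x1) (hε : 0 < ε) :
    ∃ C : ℝ, 0 < C ∧ ∀ s : ℂ, x1 ≤ s.re → 1 ≤ |s.im| →
      ‖riemannZeta s‖⁻¹ ≤ C * (|s.im| + 2) ^ ε := by
  set η := min (x1 - 3 / 5) 1 with hη
  have hη0 : 0 < η := lt_min (by linarith) one_pos
  obtain ⟨C2, hC2, H2⟩ := ZZ_bounds' h hη0 (min_le_right _ _) (ε := ε) hε
  refine ⟨C2 + 4, by positivity, fun s hs ht => ?_⟩
  set T := |s.im| + 2 with hT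
  have hT1 : 1 ≤ T := by linarith
  have hT0 : 0 < T := by linarith
  have hTp : 1 ≤ T ^ ε := Real.one_le_rpow hT1 hε.le
  rcases le_total s.re 2 with h2 | h2
  · have h3 := (H2 s (by have := min_le_left (x1 - 3 / 5) 1; linarith) h2).2
    have hs1 : s ≠ 1 := by
      rintro rfl; simp at ht; linarith
    have hn : 0 < ‖s - 1‖ := norm_pos_iff.mpr (sub_ne_zero.mpr hs1)
    rw [ZZ_eq (by linarith) hs1, norm_mul, mul_inv] at h3
    have h4 : ‖s - 1‖ ≤ T := by
      refine (Complex.norm_le_abs_re_add_abs_im _).trans ?_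
      simp only [sub_re, one_re, sub_im, one_im, sub_zero]
      have : |s.re - 1| ≤ 1 := abs_le.mpr ⟨by linarith, by linarith⟩
      linarith
    calc ‖riemannZeta s‖⁻¹ = ‖s - 1‖ * (‖s - 1‖⁻¹ * ‖riemannZeta s‖⁻¹) := by
          field_simp
      _ ≤ T * (C2 * T ^ (ε - 1)) := by gcongr
      _ = C2 * T ^ ε := by
          rw [Real.rpow_sub hT0, Real.rpow_one]
          field_simp
      _ ≤ (C2 + 4) * T ^ ε := by
          gcongr
          linarith
  · have h3 := (norm_zeta_bounds_two h2).1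
    calc ‖riemannZeta s‖⁻¹ ≤ (1 / 4)⁻¹ := inv_anti₀ (by norm_num) h3
      _ = 4 * 1 := by norm_num
      _ ≤ (C2 + 4) * T ^ ε := by
          gcongr
          linarith

lemma PP_differentiableAt' (h : NZ) {s : ℂ} (hs : 1 / 10 < s.re) :
    DifferentiableAt ℂ PP s := by
  have h0 : s ≠ 0 := by
    rintro rfl; simp at hs; linarith
  have e2 : 0 < (2 * s).re := by simp; linarith
  have e3 : 0 < (3 * s).re := by simp; linarith
  have e6 : 3 / 5 < (6 * s).re := by simp; linarith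
  have h2 : DifferentiableAt ℂ (fun s => ZZ (2 * s)) s :=
    (ZZ_differentiableAt e2).comp s (by fun_prop : DifferentiableAt ℂ (fun s => 2 * s) s)
  have h3 : DifferentiableAt ℂ (fun s => ZZ (3 * s)) s :=
    (ZZ_differentiableAt e3).comp s (by fun_prop : DifferentiableAt ℂ (fun s => 3 * s) s)
  have h6 : DifferentiableAt ℂ (fun s => ZZ (6 * s)) s :=
    (ZZ_differentiableAt (by linarith)).comp s (by fun_prop : DifferentiableAt ℂ (fun s => 6 * s) s)
  unfold PP
  exact DifferentiableAt.div ((h2.mul h3).mul (by fun_prop)) (DifferentiableAt.mul (by fun_prop) h6)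
    (mul_ne_zero h0 (ZZ_ne_zero' h e6))

lemma KK_differentiableAt' (h : NZ) {s : ℂ} (hs : 1 / 10 < s.re) :
    DifferentiableAt ℂ KK s := by
  have hO : IsOpen {z : ℂ | 1 / 10 < z.re} := isOpen_lt continuous_const Complex.continuous_re
  have hP : DifferentiableOn ℂ PP {z : ℂ | 1 / 10 < z.re} := fun z hz =>
    (PP_differentiableAt' h hz).differentiableWithinAt
  have h1 : DifferentiableOn ℂ (dslope PP (1 / 2)) {z : ℂ | 1 / 10 < z.re} :=
    (Complex.differentiableOn_dslope (hO.mem_nhds (by norm_num))).mpr hP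
  have h2 : DifferentiableOn ℂ (dslope PP (1 / 3)) {z : ℂ | 1 / 10 < z.re} :=
    (Complex.differentiableOn_dslope (hO.mem_nhds (by norm_num))).mpr hP
  exact (h1.sub h2).differentiableAt (hO.mem_nhds hs)

lemma KK_eq' (h : NZ) {s : ℂ} (hs : 1 / 10 < s.re) (h2 : s ≠ 1 / 2)
    (h3 : s ≠ 1 / 3) (h6 : s ≠ 1 / 6) :
    KK s = riemannZeta (2 * s) * riemannZeta (3 * s) / riemannZeta (6 * s) / s -
        c₁ / (s - 1 / 2) - c₂ / (s - 1 / 3) := by
  have h0 : s ≠ 0 := by
    rintro rfl; simp at hs; linarith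
  have a2 : s - 1 / 2 ≠ 0 := sub_ne_zero.mpr h2
  have a3 : s - 1 / 3 ≠ 0 := sub_ne_zero.mpr h3
  have a6 : 6 * s - 1 ≠ 0 := by
    intro h
    apply h6
    linear_combination h / 6
  have n2 : 2 * s ≠ 1 := fun h => h2 (by linear_combination h / 2)
  have n3 : 3 * s ≠ 1 := fun h => h3 (by linear_combination h / 3)
  have n6 : 6 * s ≠ 1 := fun h => h6 (by linear_combination h / 6)
  have hz6 : ZZ (6 * s) ≠ 0 := ZZ_ne_zero' h (by simp; linarith)
  have hP : PP s = (2 * s - 1) * (3 * s - 1) *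
      (riemannZeta (2 * s) * riemannZeta (3 * s) / riemannZeta (6 * s) / s) := by
    unfold PP
    rw [ZZ_eq (s := 6 * s) (by simp; linarith) n6] at hz6 ⊢
    rw [ZZ_eq (s := 2 * s) (by simp; linarith) n2, ZZ_eq (s := 3 * s) (by simp; linarith) n3]
    have hz : riemannZeta (6 * s) ≠ 0 := right_ne_zero_of_mul hz6
    generalize riemannZeta (6 * s) = z6 at hz ⊢
    generalize riemannZeta (2 * s) = z2
    generalize riemannZeta (3 * s) = z3
    generalize 6 * s - 1 = b6 at a6 ⊢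
    field_simp
  have key : ∀ (u v A c1 c2 : ℂ), u ≠ 0 → v ≠ 0 → v = u + 1 / 6 →
      (2 * u * (3 * v) * A - c1) / u - (2 * u * (3 * v) * A - -c2) / v = A - c1 / u - c2 / v := by
    intro u v A c1 c2 hu hv huv
    field_simp
    rw [huv]
    ring
  unfold KK
  rw [dslope_of_ne _ h2, dslope_of_ne _ h3, slope_def_field, slope_def_field, PP_half, PP_third, hP,
    ← key (s - 1 / 2) (s - 1 / 3) _ c₁ c₂ a2 a3 (by ring)]
  have e1 : 2 * s - 1 = 2 * (s - 1 / 2) := by ring
  have e2 : 3 * s - 1 = 3 * (s - 1 / 3) := by ring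
  rw [e1, e2]


/-- The bound for the transform of `Δ` in the strip. -/
lemma KK_bound' (h : NZ) {σ c : ℝ} (h1 : 1 / 10 < σ) (h2 : σ ≤ 31 / 300) :
    ∃ C κ : ℝ, 0 < κ ∧ ∀ s : ℂ, σ ≤ s.re → s.re ≤ c →
      ‖KK s‖ ≤ C * (|s.im| + 2) ^ (-(1 / 2) - κ) := by
  set ε := (5 * σ - 1 / 2) / 6 with hε
  have hε0 : 0 < ε := by rw [hε]; linarith
  have hε1 : ε ≤ 1 / 18 := by rw [hε]; linarith
  set κ := 3 * ε with hκ
  have hκσ : κ = 5 * σ - 1 / 2 - 3 * ε := by rw [hκ, hε]; ring
  obtain ⟨C2, hC2, H2⟩ := zeta_upper' h (x0 := 2 * σ) (ε := ε) (by linarith) (by linarith) hε0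
    (by linarith)
  obtain ⟨C3, hC3, H3⟩ := zeta_upper' h (x0 := 3 * σ) (ε := ε) (by linarith) (by linarith) hε0
    (by linarith)
  obtain ⟨C6, hC6, H6⟩ := zeta_lower' h (x1 := 6 * σ) (ε := ε) (by linarith) hε0
  obtain ⟨M, hM⟩ := ((isCompact_Icc (a := σ) (b := c)).reProdIm
    (isCompact_Icc (a := (-1:ℝ)) (b := 1))).exists_bound_of_continuousOn (f := KK) (fun z hz =>
      (KK_differentiableAt' h (by
        have h : σ ≤ z.re := hz.1.1
        linarith)).continuousAt.continuousWithinAt)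
  set A := C2 * 2 ^ (1 / 2 - 2 * σ + ε) * (C3 * 3 ^ (1 / 2 - 3 * σ + ε)) * (C6 * 6 ^ ε) * 3 +
    3 * (‖c₁‖ + ‖c₂‖) with hA
  have hA0 : 0 ≤ A := by positivity
  refine ⟨A + 3 * |M|, κ, by positivity, fun s hs hsc => ?_⟩
  set T := |s.im| + 2 with hT
  have hT2 : 2 ≤ T := by rw [hT]; linarith [abs_nonneg s.im]
  have hT0 : 0 < T := by linarith
  rcases le_total |s.im| 1 with ht | ht
  · have h3 := hM s ⟨⟨hs, hsc⟩, ⟨(abs_le.mp ht).1, (abs_le.mp ht).2⟩⟩
    have h4 : 1 ≤ 3 * T ^ (-(1 / 2) - κ) := by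
      have h5 : T ^ (-1 : ℝ) ≤ T ^ (-(1 / 2) - κ) :=
        Real.rpow_le_rpow_of_exponent_le (by linarith) (by rw [hκ]; linarith)
      have h6 : (1:ℝ) / 3 ≤ T ^ (-1 : ℝ) := by
        rw [Real.rpow_neg_one, ← one_div]
        exact one_div_le_one_div_of_le hT0 (by rw [hT]; linarith)
      linarith
    calc ‖KK s‖ ≤ M := h3
      _ ≤ |M| * 1 := by rw [mul_one]; exact le_abs_self M
      _ ≤ |M| * (3 * T ^ (-(1 / 2) - κ)) := by gcongr
      _ = 3 * |M| * T ^ (-(1 / 2) - κ) := by ring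
      _ ≤ (A + 3 * |M|) * T ^ (-(1 / 2) - κ) := by
        gcongr
        linarith
  · have him : s.im ≠ 0 := by
      intro h; rw [h] at ht; simp at ht; linarith
    have hne : ∀ x : ℝ, s ≠ (x : ℂ) := by
      rintro x rfl
      exact him (by simp)
    have n2 : s ≠ 1 / 2 := by have := hne (1 / 2); push_cast at this; exact this
    have n3 : s ≠ 1 / 3 := by have := hne (1 / 3); push_cast at this; exact this
    have n6 : s ≠ 1 / 6 := by have := hne (1 / 6); push_cast at this; exact this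
    rw [KK_eq' h (by linarith) n2 n3 n6]
    have hnorm : ∀ x : ℝ, T / 3 ≤ ‖s - x‖ := by
      intro x
      have := Complex.abs_im_le_norm (s - x)
      simp only [sub_im, ofReal_im, sub_zero] at this
      linarith
    have hn0 : T / 3 ≤ ‖s‖ := by simpa using hnorm 0
    have hn2 : T / 3 ≤ ‖s - 1 / 2‖ := by have := hnorm (1 / 2); push_cast at this; exact this
    have hn3 : T / 3 ≤ ‖s - 1 / 3‖ := by have := hnorm (1 / 3); push_cast at this; exact this
    have b2 := H2 (2 * s) (by simp; linarith) (by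
      have : |(2 * s).im| = 2 * |s.im| := by simp [abs_mul]
      rw [this]; linarith)
    have b3 := H3 (3 * s) (by simp; linarith) (by
      have : |(3 * s).im| = 3 * |s.im| := by simp [abs_mul]
      rw [this]; linarith)
    have b6 := H6 (6 * s) (by simp; linarith) (by
      have : |(6 * s).im| = 6 * |s.im| := by simp [abs_mul]
      rw [this]; linarith)
    have r2 : (|(2 * s).im| + 2) ^ (1 / 2 - 2 * σ + ε) ≤
        2 ^ (1 / 2 - 2 * σ + ε) * T ^ (1 / 2 - 2 * σ + ε) := by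
      have : |(2 * s).im| = 2 * |s.im| := by simp [abs_mul]
      rw [this, ← Real.mul_rpow (by norm_num) hT0.le]
      exact Real.rpow_le_rpow (by positivity) (by rw [hT]; linarith) (by linarith)
    have r3 : (|(3 * s).im| + 2) ^ (1 / 2 - 3 * σ + ε) ≤
        3 ^ (1 / 2 - 3 * σ + ε) * T ^ (1 / 2 - 3 * σ + ε) := by
      have : |(3 * s).im| = 3 * |s.im| := by simp [abs_mul]
      rw [this, ← Real.mul_rpow (by norm_num) hT0.le]
      exact Real.rpow_le_rpow (by positivity) (by rw [hT]; linarith) (by linarith)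
    have r6 : (|(6 * s).im| + 2) ^ ε ≤ 6 ^ ε * T ^ ε := by
      have : |(6 * s).im| = 6 * |s.im| := by simp [abs_mul]
      rw [this, ← Real.mul_rpow (by norm_num) hT0.le]
      exact Real.rpow_le_rpow (by positivity) (by rw [hT]; linarith) hε0.le
    have m1 : ‖riemannZeta (2 * s) * riemannZeta (3 * s) / riemannZeta (6 * s) / s‖ ≤
        (C2 * 2 ^ (1 / 2 - 2 * σ + ε) * (C3 * 3 ^ (1 / 2 - 3 * σ + ε)) * (C6 * 6 ^ ε) * 3) *
          T ^ (-(1 / 2) - κ) := by
      rw [norm_div, norm_div, norm_mul, div_eq_mul_inv, div_eq_mul_inv]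
      have hinv : ‖s‖⁻¹ ≤ 3 * T ^ (-1 : ℝ) := by
        rw [Real.rpow_neg_one, ← div_eq_mul_inv]
        have : (3:ℝ) / T = (T / 3)⁻¹ := by field_simp
        rw [this]
        exact inv_anti₀ (by positivity) hn0
      calc ‖riemannZeta (2 * s)‖ * ‖riemannZeta (3 * s)‖ * ‖riemannZeta (6 * s)‖⁻¹ * ‖s‖⁻¹
          ≤ (C2 * (2 ^ (1 / 2 - 2 * σ + ε) * T ^ (1 / 2 - 2 * σ + ε))) *
            (C3 * (3 ^ (1 / 2 - 3 * σ + ε) * T ^ (1 / 2 - 3 * σ + ε))) *
            (C6 * (6 ^ ε * T ^ ε)) * (3 * T ^ (-1 : ℝ)) := by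
            refine mul_le_mul (mul_le_mul (mul_le_mul (b2.trans ?_) (b3.trans ?_) (norm_nonneg _)
              (by positivity)) (b6.trans ?_) (by positivity) (by positivity)) hinv (by positivity)
              (by positivity)
            · exact mul_le_mul_of_nonneg_left r2 hC2.le
            · exact mul_le_mul_of_nonneg_left r3 hC3.le
            · exact mul_le_mul_of_nonneg_left r6 hC6.le
        _ = (C2 * 2 ^ (1 / 2 - 2 * σ + ε) * (C3 * 3 ^ (1 / 2 - 3 * σ + ε)) * (C6 * 6 ^ ε) * 3) *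
          (T ^ (1 / 2 - 2 * σ + ε) * T ^ (1 / 2 - 3 * σ + ε) * T ^ ε * T ^ (-1 : ℝ)) := by ring
        _ = _ := by
            rw [← Real.rpow_add hT0, ← Real.rpow_add hT0, ← Real.rpow_add hT0]
            congr 2
            rw [hκσ]; ring
    have hTm : T ^ (-1 : ℝ) ≤ T ^ (-(1 / 2) - κ) :=
      Real.rpow_le_rpow_of_exponent_le (by linarith) (by rw [hκ]; linarith)
    have hpole : ∀ (a z : ℂ), T / 3 ≤ ‖z‖ → ‖a / z‖ ≤ 3 * ‖a‖ * T ^ (-(1 / 2) - κ) := by
      intro a z hz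
      rw [norm_div]
      calc ‖a‖ / ‖z‖ ≤ ‖a‖ / (T / 3) := by gcongr
        _ = 3 * ‖a‖ * T ^ (-1 : ℝ) := by
            rw [Real.rpow_neg_one]
            field_simp
        _ ≤ _ := by gcongr
    have m2 := hpole c₁ _ hn2
    have m3 := hpole c₂ _ hn3
    calc ‖riemannZeta (2 * s) * riemannZeta (3 * s) / riemannZeta (6 * s) / s -
          c₁ / (s - 1 / 2) - c₂ / (s - 1 / 3)‖
        ≤ ‖riemannZeta (2 * s) * riemannZeta (3 * s) / riemannZeta (6 * s) / s‖ +
          ‖c₁ / (s - 1 / 2)‖ + ‖c₂ / (s - 1 / 3)‖ :=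
          (norm_sub_le _ _).trans (add_le_add_left (norm_sub_le _ _) _)
      _ ≤ (C2 * 2 ^ (1 / 2 - 2 * σ + ε) * (C3 * 3 ^ (1 / 2 - 3 * σ + ε)) * (C6 * 6 ^ ε) * 3) *
          T ^ (-(1 / 2) - κ) + 3 * ‖c₁‖ * T ^ (-(1 / 2) - κ) + 3 * ‖c₂‖ * T ^ (-(1 / 2) - κ) :=
          add_le_add (add_le_add m1 m2) m3
      _ = A * T ^ (-(1 / 2) - κ) := by rw [hA]; ring
      _ ≤ (A + 3 * |M|) * T ^ (-(1 / 2) - κ) := by
          gcongr
          linarith [abs_nonneg M]


/-- The weighted mean square of `Δ`. -/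
theorem integrableOn_Delta' (hNZ : NZ) {σ : ℝ} (h1 : 1 / 10 < σ)
    (h2 : σ ≤ 31 / 300) :
    IntegrableOn (fun x : ℝ => Delta x ^ 2 * x ^ (-(2 * σ + 1))) (Ioi 1) := by
  obtain ⟨C, κ, hκ, hb⟩ := KK_bound' hNZ (c := 3 / 5) h1 h2
  have hmain := sq_integrable_of_strip (w := ww) (K := KK) (σ := σ) (c := 3 / 5) (C := C) (κ := κ)
    (by linarith) hκ integrable_ww ww_continuousAt (fun t => by
      rw [ww_transform, mellin_Delta (by simp; norm_num)]
      refine KK_eq' hNZ (by simp; norm_num) ?_ ?_ ?_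
      · intro h
        have := congrArg Complex.re h
        norm_num at this
      · intro h
        have := congrArg Complex.re h
        norm_num at this
      · intro h
        have := congrArg Complex.re h
        norm_num at this)
    (fun s hs _ => KK_differentiableAt' hNZ (by linarith)) hb
  rw [← image_exp_Ioi, integrableOn_image_iff_integrableOn_abs_deriv_smul (f' := Real.exp)
    measurableSet_Ioi (fun x _ => (Real.hasDerivAt_exp x).hasDerivWithinAt)
    Real.exp_injective.injOn]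
  refine (hmain.integrableOn (s := Ioi 0)).congr_fun ?_ measurableSet_Ioi
  intro v hv
  simp only [abs_of_pos (Real.exp_pos v), smul_eq_mul]
  unfold ww
  rw [indicator_of_mem hv, Complex.norm_real, Real.norm_eq_abs, sq_abs, mul_pow, ← Real.exp_mul]
  have e1 : Real.exp (-(3 / 5) * v) ^ 2 * Real.exp (2 * (3 / 5 - σ) * v) =
      Real.exp v * Real.exp (v * -(2 * σ + 1)) := by
    rw [sq, ← Real.exp_add, ← Real.exp_add, ← Real.exp_add]
    congr 1
    ring
  calc Delta (Real.exp v) ^ 2 * Real.exp (-(3 / 5) * v) ^ 2 * Real.exp (2 * (3 / 5 - σ) * v)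
      = Delta (Real.exp v) ^ 2 *
        (Real.exp (-(3 / 5) * v) ^ 2 * Real.exp (2 * (3 / 5 - σ) * v)) := by ring
    _ = _ := by rw [e1]; ring

/-- The mean square bound from the zero-free half plane. -/
theorem MSq_of_NZ (hNZ : NZ) : MSq := by
  intro ε hε
  set e := min ε (1 / 150) with he
  have he0 : 0 < e := lt_min hε (by norm_num)
  have he1 : e ≤ 1 / 150 := min_le_right _ _
  have heε : e ≤ ε := min_le_left _ _
  have hI := integrableOn_Delta' hNZ (σ := 1 / 10 + e / 2) (by linarith) (by linarith)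
  have hexp : -(2 * (1 / 10 + e / 2) + 1) = -(6 / 5 + e) := by ring
  rw [hexp] at hI
  set J := ∫ x in Ioi (1:ℝ), Delta x ^ 2 * x ^ (-(6 / 5 + e)) with hJ
  have hnn : ∀ x : ℝ, x ∈ Ioi (1:ℝ) → 0 ≤ Delta x ^ 2 * x ^ (-(6 / 5 + e)) := by
    intro x hx
    have : (0:ℝ) < x := lt_trans zero_lt_one hx
    positivity
  have hJ0 : 0 ≤ J := setIntegral_nonneg measurableSet_Ioi hnn
  have hpart : ∀ X : ℝ, 1 ≤ X → ∫ x in Ioc 1 X, Delta x ^ 2 * x ^ (-(6 / 5 + e)) ≤ J := by
    intro X _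
    exact setIntegral_mono_set hI ((ae_restrict_iff' measurableSet_Ioi).mpr
      (Eventually.of_forall hnn)) (Eventually.of_forall fun x hx => hx.1)
  refine ⟨J, fun X hX => ?_⟩
  have hX0 : 0 < X := by linarith
  rw [intervalIntegral.integral_of_le hX]
  have h1 : ∫ x in Ioc 1 X, Delta x ^ 2 ≤
      ∫ x in Ioc 1 X, X ^ (6 / 5 + e) * (Delta x ^ 2 * x ^ (-(6 / 5 + e))) := by
    refine integral_mono_of_nonneg (Eventually.of_forall fun x => sq_nonneg _) ?_ ?_
    · exact (hI.mono_set fun x hx => hx.1).const_mul _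
    · refine (ae_restrict_iff' measurableSet_Ioc).mpr (Eventually.of_forall fun x hx => ?_)
      have hx0 : 0 < x := lt_trans zero_lt_one hx.1
      have h2 : 1 ≤ X ^ (6 / 5 + e) * x ^ (-(6 / 5 + e)) := by
        rw [Real.rpow_neg hx0.le, ← div_eq_mul_inv, one_le_div (by positivity)]
        exact Real.rpow_le_rpow hx0.le hx.2 (by linarith)
      calc Delta x ^ 2 = Delta x ^ 2 * 1 := (mul_one _).symm
        _ ≤ Delta x ^ 2 * (X ^ (6 / 5 + e) * x ^ (-(6 / 5 + e))) :=
          mul_le_mul_of_nonneg_left h2 (sq_nonneg _)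
        _ = _ := by ring
  rw [integral_const_mul] at h1
  have h3 : X ^ (6 / 5 + e) ≤ X ^ (6 / 5 + ε) :=
    Real.rpow_le_rpow_of_exponent_le hX (by linarith)
  calc ∫ x in Ioc 1 X, Delta x ^ 2
      ≤ X ^ (6 / 5 + e) * ∫ x in Ioc 1 X, Delta x ^ 2 * x ^ (-(6 / 5 + e)) := h1
    _ ≤ X ^ (6 / 5 + e) * J := mul_le_mul_of_nonneg_left (hpart X hX) (by positivity)
    _ ≤ X ^ (6 / 5 + ε) * J := mul_le_mul_of_nonneg_right h3 hJ0
    _ = _ := by ring

end Pool.Agent.SqF9
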