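import Pool.Agent.SqFull.PW

/-!
# A pointwise bound from an integrable transform in a strip
-/

open Complex Filter Topology Set MeasureTheory Pool.Agent.SqFull

namespace Pool.Agent.SqF9

/-- If the transform of `w` on the line `Re s = c` extends to `σ ≤ Re s ≤ c` with a bound
that is integrable on vertical lines, then `w(v) e^{(c-σ)v}` is bounded. -/
theorem bdd_of_strip {w : ℝ → ℂ} {K : ℂ → ℂ} {σ c C κ : ℝ} (hσc : σ ≤ c) (hκ : 0 < κ)
    (hw : Integrable w)
    (hK : ∀ t : ℝ, K (c + t * I) = ∫ v : ℝ, cexp (-(t * v) * I) * w v)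
    (hd : ∀ s : ℂ, σ ≤ s.re → s.re ≤ c → DifferentiableAt ℂ K s)
    (hb : ∀ s : ℂ, σ ≤ s.re → s.re ≤ c → ‖K s‖ ≤ C * (|s.im| + 2) ^ (-1 - κ)) :
    ∃ M : ℝ, ∀ v : ℝ, ContinuousAt w v → ‖w v‖ ≤ M * Real.exp (-(v * (c - σ))) := by
  have hpi := Real.pi_pos
  have hC0 : 0 ≤ C := by
    have h1 := (norm_nonneg _).trans (hb σ (by simp) (by simpa using hσc))
    exact nonneg_of_mul_nonneg_left h1 (by positivity)
  have hb1 : ∀ s : ℂ, σ ≤ s.re → s.re ≤ c → ‖K s‖ ≤ C := by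
    intro s h1 h2
    refine (hb s h1 h2).trans (mul_le_of_le_one_right hC0 ?_)
    exact Real.rpow_le_one_of_one_le_of_nonpos (by linarith [abs_nonneg s.im]) (by linarith)
  -- the shifted functions
  set d : ℝ := (c - σ) / (2 * Real.pi) with hdd
  set φ : ℕ → ℝ → ℂ := fun N ξ => K (σ + ((2 * Real.pi * ξ : ℝ) : ℂ) * I) *
    cexp (((N:ℂ) + 1)⁻¹ * (-(d:ℂ) + I * ξ) ^ 2) with hφ
  have hKcont : Continuous (fun ξ : ℝ => K (σ + ((2 * Real.pi * ξ : ℝ) : ℂ) * I)) := by
    rw [continuous_iff_continuousAt]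
    intro t
    have h1 : ContinuousAt K (σ + ((2 * Real.pi * t : ℝ) : ℂ) * I) :=
      (hd _ (by simp) (by simpa using hσc)).continuousAt
    exact ContinuousAt.comp (f := fun t : ℝ => (σ + ((2 * Real.pi * t : ℝ) : ℂ) * I : ℂ)) h1
      (by fun_prop)
  have hφcont : ∀ N, Continuous (φ N) := fun N => hKcont.mul (by fun_prop)
  have hφn : ∀ N ξ, ‖φ N ξ‖ = ‖K (σ + ((2 * Real.pi * ξ : ℝ) : ℂ) * I)‖ *
      (Real.exp (((N:ℝ) + 1)⁻¹ * d ^ 2) * Real.exp (-((N:ℝ) + 1)⁻¹ * ξ ^ 2)) := by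
    intro N ξ
    simp only [hφ, norm_mul, Complex.norm_exp]
    congr 1
    rw [← Real.exp_add]
    congr 1
    have : (((N:ℂ) + 1)⁻¹ * (-(d:ℂ) + I * ξ) ^ 2) =
        ((((N:ℝ) + 1)⁻¹ * (d ^ 2 - ξ ^ 2) : ℝ) : ℂ) + ((-(((N:ℝ) + 1)⁻¹ * (2 * d * ξ)) : ℝ) : ℂ) * I := by
      push_cast
      ring_nf
      rw [I_sq]
      ring
    rw [this, Complex.add_re, Complex.ofReal_re, Complex.re_ofReal_mul, Complex.I_re]
    ring
  have hφ1 : ∀ N, Integrable (φ N) := by
    intro N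
    have h1 : Integrable (fun ξ : ℝ => C * (Real.exp (((N:ℝ) + 1)⁻¹ * d ^ 2) *
        Real.exp (-((N:ℝ) + 1)⁻¹ * ξ ^ 2))) :=
      ((integrable_exp_neg_mul_sq (by positivity)).const_mul _).const_mul _
    refine h1.mono' (hφcont N).aestronglyMeasurable (Eventually.of_forall fun ξ => ?_)
    rw [hφn]
    gcongr
    exact hb1 _ (by simp) (by simpa using hσc)
  set M : ℝ := Real.exp (d ^ 2) * (C * ∫ ξ : ℝ, (2 * Real.pi * |ξ| + 2) ^ (-1 - 2 * (κ / 2)))
    with hM
  have hφle : ∀ N ξ, ‖φ N ξ‖ ≤ Real.exp (d ^ 2) * (C *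
      (2 * Real.pi * |ξ| + 2) ^ (-1 - 2 * (κ / 2))) := by
    intro N ξ
    rw [hφn]
    have h2 := hb (σ + ((2 * Real.pi * ξ : ℝ) : ℂ) * I) (by simp) (by simpa using hσc)
    have h3 : |(σ + ((2 * Real.pi * ξ : ℝ) : ℂ) * I : ℂ).im| = 2 * Real.pi * |ξ| := by
      simp [abs_mul, abs_of_pos hpi]
    rw [h3] at h2
    have h4 : Real.exp (((N:ℝ) + 1)⁻¹ * d ^ 2) * Real.exp (-((N:ℝ) + 1)⁻¹ * ξ ^ 2) ≤
        Real.exp (d ^ 2) := by
      rw [← Real.exp_add]
      apply Real.exp_le_exp.mpr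
      have h5 : ((N:ℝ) + 1)⁻¹ ≤ 1 := by
        apply inv_le_one_of_one_le₀
        have : (0:ℝ) ≤ N := Nat.cast_nonneg N
        linarith
      have h6 : 0 ≤ ((N:ℝ) + 1)⁻¹ := by positivity
      nlinarith [sq_nonneg d, sq_nonneg ξ, mul_nonneg h6 (sq_nonneg ξ),
        mul_le_mul_of_nonneg_right h5 (sq_nonneg d)]
    have h7 : (-1 - 2 * (κ / 2) : ℝ) = -1 - κ := by ring
    rw [h7, mul_comm (Real.exp (d ^ 2))]
    gcongr
  have hφM : ∀ N, ∫ ξ, ‖φ N ξ‖ ≤ M := by
    intro N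
    rw [hM, ← integral_const_mul, ← integral_const_mul]
    exact integral_mono (hφ1 N).norm
      (((integrable_rpow_abs (half_pos hκ)).const_mul _).const_mul _) (hφle N)
  -- the Fourier transform of `w`
  have hF : ∀ ξ : ℝ, FourierTransform.fourier w ξ = K (c + ((2 * Real.pi * ξ : ℝ) : ℂ) * I) := by
    intro ξ
    rw [hK, Real.fourier_real_eq_integral_exp_smul]
    refine integral_congr_ae (Eventually.of_forall fun v => ?_)
    simp only [smul_eq_mul]
    congr 2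
    push_cast
    ring
  -- the contour shift
  have hshift : ∀ (N : ℕ) (v : ℝ), ∫ ξ : ℝ, cexp (-(((N:ℝ) + 1 : ℝ) : ℂ)⁻¹ * ξ ^ 2 +
      2 * Real.pi * I * v * ξ) * FourierTransform.fourier w ξ =
      cexp (-(v * (c - σ) : ℝ)) * ∫ ξ : ℝ, cexp (2 * Real.pi * I * v * ξ) * φ N ξ := by
    intro N v
    set n : ℝ := (N:ℝ) + 1 with hn
    have hn1 : 1 ≤ n := by
      have : (0:ℝ) ≤ N := Nat.cast_nonneg N
      linarith
    have hn0 : 0 < n := by linarith
    have hpC : (Real.pi : ℂ) ≠ 0 := by exact_mod_cast hpi.ne'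
    have hnC : (n : ℂ) ≠ 0 := by exact_mod_cast hn0.ne'
    set Φ : ℂ → ℂ := fun s => K s * cexp ((n:ℂ)⁻¹ * ((s - c) / (2 * Real.pi)) ^ 2 + v * (s - c))
      with hΦ
    have hv := vert_shift (Φ := Φ) (a := σ) (b := c)
      (C := C * Real.exp (n⁻¹ * d ^ 2 + |v| * (c - σ)) * (4 * Real.pi ^ 2 * n)) hσc
      (fun s h1 h2 => (hd s h1 h2).mul (by fun_prop)) (by
        intro s h1 h2
        simp only [hΦ, norm_mul, Complex.norm_exp]
        have e1 : ((n:ℂ)⁻¹ * ((s - c) / (2 * Real.pi)) ^ 2 + v * (s - c)).re =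
            n⁻¹ * (((c - s.re) / (2 * Real.pi)) ^ 2 - s.im ^ 2 / (4 * Real.pi ^ 2)) +
              v * (s.re - c) := by
          have e2 : ((n:ℂ)⁻¹ * ((s - c) / (2 * Real.pi)) ^ 2 + v * (s - c)) =
              ((n⁻¹ / (4 * Real.pi ^ 2) : ℝ) : ℂ) * ((s - c) ^ 2) + (v:ℂ) * (s - c) := by
            push_cast
            field_simp
            ring
          rw [e2, Complex.add_re, Complex.re_ofReal_mul, Complex.re_ofReal_mul]
          have e3 : ((s - c) ^ 2 : ℂ).re = (s.re - c) ^ 2 - s.im ^ 2 := by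
            rw [sq, Complex.mul_re]; simp; ring
          rw [e3]
          simp
          field_simp
          ring
        rw [e1]
        have h3 : ((c - s.re) / (2 * Real.pi)) ^ 2 ≤ d ^ 2 := by
          rw [hdd]
          have h4 : 0 ≤ (c - s.re) / (2 * Real.pi) := div_nonneg (by linarith) (by positivity)
          gcongr
        have h5 : v * (s.re - c) ≤ |v| * (c - σ) := by
          calc v * (s.re - c) = (-v) * (c - s.re) := by ring
            _ ≤ |v| * (c - s.re) :=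
              mul_le_mul_of_nonneg_right (neg_le_abs v) (by linarith)
            _ ≤ |v| * (c - σ) := mul_le_mul_of_nonneg_left (by linarith) (abs_nonneg v)
        have h6 : Real.exp (n⁻¹ * (((c - s.re) / (2 * Real.pi)) ^ 2 -
            s.im ^ 2 / (4 * Real.pi ^ 2)) + v * (s.re - c)) ≤
            Real.exp (n⁻¹ * d ^ 2 + |v| * (c - σ)) *
              Real.exp (-(s.im ^ 2 / (4 * Real.pi ^ 2 * n))) := by
          rw [← Real.exp_add]
          apply Real.exp_le_exp.mpr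
          have h7 : n⁻¹ * (((c - s.re) / (2 * Real.pi)) ^ 2 - s.im ^ 2 / (4 * Real.pi ^ 2)) =
              n⁻¹ * ((c - s.re) / (2 * Real.pi)) ^ 2 - s.im ^ 2 / (4 * Real.pi ^ 2 * n) := by
            field_simp
          rw [h7]
          have h8 := mul_le_mul_of_nonneg_left h3 (inv_nonneg.mpr hn0.le)
          linarith
        have h9 : Real.exp (-(s.im ^ 2 / (4 * Real.pi ^ 2 * n))) ≤
            (4 * Real.pi ^ 2 * n) * (1 + s.im ^ 2)⁻¹ := by
          have h10 : 1 + s.im ^ 2 / (4 * Real.pi ^ 2 * n) ≤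
              Real.exp (s.im ^ 2 / (4 * Real.pi ^ 2 * n)) := by
            have := Real.add_one_le_exp (s.im ^ 2 / (4 * Real.pi ^ 2 * n))
            linarith
          have h11 : (1:ℝ) ≤ 4 * Real.pi ^ 2 * n := by
            have := Real.pi_gt_three
            nlinarith
          have h12 : 0 < 4 * Real.pi ^ 2 * n := by linarith
          rw [Real.exp_neg, ← div_eq_mul_inv, ← one_div, div_le_div_iff₀ (Real.exp_pos _)
            (by positivity)]
          have h13 : (4 * Real.pi ^ 2 * n) * (1 + s.im ^ 2 / (4 * Real.pi ^ 2 * n)) =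
              4 * Real.pi ^ 2 * n + s.im ^ 2 := by field_simp
          have h14 := mul_le_mul_of_nonneg_left h10 h12.le
          rw [h13] at h14
          linarith
        calc ‖K s‖ * Real.exp (n⁻¹ * (((c - s.re) / (2 * Real.pi)) ^ 2 -
              s.im ^ 2 / (4 * Real.pi ^ 2)) + v * (s.re - c))
            ≤ C * (Real.exp (n⁻¹ * d ^ 2 + |v| * (c - σ)) *
              ((4 * Real.pi ^ 2 * n) * (1 + s.im ^ 2)⁻¹)) := by
              refine mul_le_mul (hb1 s h1 h2) (h6.trans ?_) (Real.exp_pos _).le hC0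
              exact mul_le_mul_of_nonneg_left h9 (Real.exp_pos _).le
          _ = _ := by ring)
    have hcov : ∀ x : ℝ, ∫ ξ : ℝ, Φ (x + ((2 * Real.pi * ξ : ℝ) : ℂ) * I) =
        |(2 * Real.pi)⁻¹| • ∫ t : ℝ, Φ (x + t * I) := by
      intro x
      exact Measure.integral_comp_mul_left (fun t : ℝ => Φ (x + t * I)) (2 * Real.pi)
    have h1 : ∫ ξ : ℝ, cexp (-((n:ℝ) : ℂ)⁻¹ * ξ ^ 2 +
        2 * Real.pi * I * v * ξ) * FourierTransform.fourier w ξ =
        ∫ ξ : ℝ, Φ (c + ((2 * Real.pi * ξ : ℝ) : ℂ) * I) := by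
      refine integral_congr_ae (Eventually.of_forall fun ξ => ?_)
      simp only [hΦ]
      rw [hF, mul_comm]
      congr 2
      push_cast
      field_simp
      ring_nf
      rw [I_sq]
      ring
    have h2 : ∫ ξ : ℝ, Φ (σ + ((2 * Real.pi * ξ : ℝ) : ℂ) * I) =
        cexp (-(v * (c - σ) : ℝ)) * ∫ ξ : ℝ, cexp (2 * Real.pi * I * v * ξ) * φ N ξ := by
      rw [← integral_const_mul]
      refine integral_congr_ae (Eventually.of_forall fun ξ => ?_)
      simp only [hΦ, hφ]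
      have e1 : cexp ((n:ℂ)⁻¹ * (((σ:ℂ) + ((2 * Real.pi * ξ : ℝ) : ℂ) * I - c) /
          (2 * Real.pi)) ^ 2 + v * ((σ:ℂ) + ((2 * Real.pi * ξ : ℝ) : ℂ) * I - c)) =
          cexp (-(v * (c - σ) : ℝ)) * (cexp (2 * Real.pi * I * v * ξ) *
            cexp (((N:ℂ) + 1)⁻¹ * (-(d:ℂ) + I * ξ) ^ 2)) := by
        rw [← Complex.exp_add, ← Complex.exp_add]
        congr 1
        rw [hdd, hn]
        push_cast
        have h3 : ((N:ℂ) + 1) ≠ 0 := by
          have : (n:ℂ) = (N:ℂ) + 1 := by rw [hn]; push_cast; ring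
          rw [← this]; exact hnC
        field_simp
        ring
      rw [e1]
      ring
    rw [h1, hcov, ← hv, ← hcov, h2]
  refine ⟨M, fun v hv => ?_⟩
  have h1 := tendsto_gauss hw hv
  have h2 : Tendsto (fun N : ℕ => (N:ℝ) + 1) atTop atTop :=
    tendsto_atTop_add_const_right _ _ tendsto_natCast_atTop_atTop
  have h3 := (h1.comp h2).norm
  refine le_of_tendsto h3 (Eventually.of_forall fun N => ?_)
  simp only [Function.comp]
  rw [hshift N v, norm_mul, mul_comm]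
  have e1 : ‖cexp (-(v * (c - σ) : ℝ))‖ = Real.exp (-(v * (c - σ))) := by
    rw [Complex.norm_exp]
    simp
  rw [e1]
  refine mul_le_mul_of_nonneg_right ?_ (Real.exp_pos _).le
  refine (norm_integral_le_integral_norm _).trans (le_trans (le_of_eq ?_) (hφM N))
  refine integral_congr_ae (Eventually.of_forall fun ξ => ?_)
  simp only
  rw [norm_mul]
  have e : (2 * Real.pi * I * v * ξ) = ((2 * Real.pi * v * ξ : ℝ) : ℂ) * I := by
    push_cast; ring
  rw [e, Complex.norm_exp_ofReal_mul_I, one_mul]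

end Pool.Agent.SqF9
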