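import Pool.Agent.SqF9.W1

/-!
# The first mean of `Δ` in logarithmic variables: size and continuity
-/

open Complex Filter Topology Set MeasureTheory Pool.Agent.SqFull

namespace Pool.Agent.SqF9

lemma intervalIntegrable_Delta {a b : ℝ} (ha : 1 ≤ a) (hb : 1 ≤ b) :
    IntervalIntegrable Delta volume a b := by
  obtain ⟨B, hB, h⟩ := Delta_le
  have hc : IntervalIntegrable (fun _ : ℝ => B * (max a b) ^ (11 / 20 : ℝ)) volume a b :=
    intervalIntegrable_const
  refine hc.mono_fun measurable_Delta.aestronglyMeasurable ?_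
  refine (ae_restrict_iff' measurableSet_uIoc).mpr (Eventually.of_forall fun x hx => ?_)
  have h1 : 1 ≤ x := by
    rcases le_total a b with hab | hab
    · rw [uIoc_of_le hab] at hx
      linarith [hx.1]
    · rw [uIoc_of_ge hab] at hx
      linarith [hx.1]
  have h2 : x ≤ max a b := by
    rcases le_total a b with hab | hab
    · rw [uIoc_of_le hab] at hx
      exact hx.2.trans (le_max_right _ _)
    · rw [uIoc_of_ge hab] at hx
      exact hx.2.trans (le_max_left _ _)
  show |Delta x| ≤ |B * (max a b) ^ (11 / 20 : ℝ)|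
  refine (h x h1).trans (le_trans ?_ (le_abs_self _))
  refine mul_le_mul_of_nonneg_left ?_ hB.le
  exact Real.rpow_le_rpow (by linarith) h2 (by norm_num)

lemma D0_le : ∃ B : ℝ, 0 < B ∧ ∀ x : ℝ, 1 ≤ x →
    |∫ t in (1:ℝ)..x, Delta t| ≤ B * x ^ (31 / 20 : ℝ) := by
  obtain ⟨B, hB, h⟩ := Delta_le
  refine ⟨B, hB, fun x hx => ?_⟩
  have hx0 : 0 < x := by linarith
  have h1 := intervalIntegral.norm_integral_le_of_norm_le_const (a := 1) (b := x)
    (f := Delta) (C := B * x ^ (11 / 20 : ℝ)) (by
      intro t ht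
      rw [uIoc_of_le hx] at ht
      rw [Real.norm_eq_abs]
      refine (h t ht.1.le).trans (mul_le_mul_of_nonneg_left ?_ hB.le)
      exact Real.rpow_le_rpow (by linarith [ht.1]) ht.2 (by norm_num))
  rw [Real.norm_eq_abs] at h1
  refine h1.trans ?_
  rw [abs_of_nonneg (by linarith)]
  calc B * x ^ (11 / 20 : ℝ) * (x - 1) ≤ B * x ^ (11 / 20 : ℝ) * x := by
        refine mul_le_mul_of_nonneg_left (by linarith) (by positivity)
    _ = B * x ^ (31 / 20 : ℝ) := by
        rw [mul_assoc, ← Real.rpow_add_one hx0.ne']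
        norm_num

lemma integrable_w1 : Integrable w1 := by
  obtain ⟨B, hB, h⟩ := D0_le
  have h1 : Integrable (indicator (Ioi (0:ℝ)) (fun v : ℝ => B * Real.exp (-1 * v))) := by
    rw [integrable_indicator_iff measurableSet_Ioi]
    exact (exp_neg_integrableOn_Ioi 0 (by norm_num)).const_mul B
  refine h1.mono' measurable_w1.aestronglyMeasurable (Eventually.of_forall fun v => ?_)
  unfold w1
  by_cases hv : v ∈ Ioi (0:ℝ)
  · rw [indicator_of_mem hv, indicator_of_mem hv, Complex.norm_real, Real.norm_eq_abs, abs_mul,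
      abs_div, abs_of_pos (Real.exp_pos v), abs_of_pos (Real.exp_pos (-2 * v))]
    have h2 := h (Real.exp v) (Real.one_le_exp (le_of_lt hv))
    calc |∫ t in (1:ℝ)..Real.exp v, Delta t| / Real.exp v * Real.exp (-2 * v)
        ≤ (B * Real.exp v ^ (31 / 20 : ℝ)) / Real.exp v * Real.exp (-2 * v) := by gcongr
      _ = B * Real.exp (-(29 / 20) * v) := by
          rw [← Real.exp_mul, div_eq_mul_inv, ← Real.exp_neg, mul_assoc, mul_assoc,
            ← Real.exp_add, ← Real.exp_add]
          congr 2
          ring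
      _ ≤ B * Real.exp (-1 * v) := by
          refine mul_le_mul_of_nonneg_left (Real.exp_le_exp.mpr ?_) hB.le
          have : (0:ℝ) < v := hv
          nlinarith
  · rw [indicator_of_notMem hv, indicator_of_notMem hv]
    simp

lemma continuousOn_D0 : ContinuousOn (fun x : ℝ => ∫ t in (1:ℝ)..x, Delta t) (Ici 1) := by
  intro x hx
  have hx1 : (1:ℝ) ≤ x := hx
  have h1 := intervalIntegral.continuousOn_primitive_interval' (a := 1) (b₁ := 1) (b₂ := x + 1)
    (intervalIntegrable_Delta le_rfl (by linarith)) left_mem_uIcc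
  rw [uIcc_of_le (by linarith)] at h1
  have h2 := h1 x ⟨hx1, by linarith⟩
  refine h2.mono_of_mem_nhdsWithin ?_
  have : Icc (1:ℝ) (x + 1) = Ici 1 ∩ Iic (x + 1) := rfl
  rw [this]
  exact inter_mem_nhdsWithin _ (Iic_mem_nhds (by linarith))

lemma w1_continuous : Continuous w1 := by
  have e : w1 = fun v : ℝ => (((∫ t in (1:ℝ)..Real.exp (max v 0), Delta t) /
      Real.exp v * Real.exp (-2 * v) : ℝ) : ℂ) := by
    funext v
    unfold w1
    by_cases hv : v ∈ Ioi (0:ℝ)
    · rw [indicator_of_mem hv, max_eq_left (le_of_lt hv)]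
    · rw [indicator_of_notMem hv, max_eq_right (not_lt.mp hv)]
      simp
  rw [e]
  refine Complex.continuous_ofReal.comp ?_
  refine Continuous.mul (Continuous.div ?_ Real.continuous_exp fun v => (Real.exp_pos v).ne')
    (by fun_prop)
  refine ContinuousOn.comp_continuous continuousOn_D0 (by fun_prop) fun v => ?_
  exact Real.one_le_exp (le_max_right _ _)

end Pool.Agent.SqF9
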