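import Pool.Agent.SqF9.Bd
import Pool.Agent.SqF9.PWB
import Pool.Agent.SqF9.W1d
import Pool.Agent.SqF9.Conv4

/-!
# The first mean of `Δ` from a zero-free half plane
-/

open Complex Filter Topology Set MeasureTheory Pool.Agent.SqFull

namespace Pool.Agent.SqF9

/-- If `ζ` has no zeros to the right of `b` then the first mean has exponent `b/6`. -/
theorem mn_of_nzb {b : ℝ} (hb0 : 1 / 2 ≤ b) (hb1 : b < 1) (h : NZb b) : MN (b / 6) := by
  intro ε hε
  set e := min ε 1 with he
  have he0 : 0 < e := lt_min hε one_pos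
  have he1 : e ≤ 1 := min_le_right _ _
  have heε : e ≤ ε := min_le_left _ _
  set σ := b / 6 + e with hσ
  obtain ⟨C, κ, hκ, hB⟩ := KK_bound_mean hb0 hb1 h (σ := σ) (c := 2) (by rw [hσ]; linarith)
  obtain ⟨M, hM⟩ := bdd_of_strip (w := w1) (K := fun s => KK s / (s + 1)) (σ := σ) (c := 2)
    (C := C) (κ := κ) (by rw [hσ]; linarith) hκ integrable_w1 (fun t => by
      rw [w1_transform]
      have e2 : (((2:ℝ) : ℂ) + t * I) = 2 + t * I := by norm_num
      simp only [e2]
      have h1 : ∫ x in Ioi (1:ℝ), (Delta x : ℂ) * (x:ℂ) ^ (-((2 + t * I : ℂ) + 1)) =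
          KK (2 + t * I) := by
        rw [mellin_Delta (s := 2 + t * I) (by simp; norm_num)]
        refine (KK_eq9 hb0 hb1 h (by simp; linarith) ?_ ?_ ?_).symm
        · intro h
          have := congrArg Complex.re h
          norm_num at this
        · intro h
          have := congrArg Complex.re h
          norm_num at this
        · intro h
          have := congrArg Complex.re h
          norm_num at this
      rw [h1])
    (fun s hs _ => by
      have hs0 : b / 6 < s.re := by linarith
      refine (KK_differentiableAt9 hb0 hb1 h hs0).div (by fun_prop) ?_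
      intro h0
      have := congrArg Complex.re h0
      simp at this
      linarith) hB
  have hM0 : 0 ≤ M := by
    have h1 := hM 0 w1_continuous.continuousAt
    simp only [zero_mul, neg_zero, Real.exp_zero, mul_one] at h1
    exact (norm_nonneg _).trans h1
  refine ⟨M, fun X hX => ?_⟩
  have hX0 : 0 < X := by linarith
  rcases eq_or_lt_of_le hX with h1 | h1
  · rw [← h1]
    simpa using hM0
  · have hv : Real.log X ∈ Ioi (0:ℝ) := Real.log_pos h1
    have h2 := hM (Real.log X) w1_continuous.continuousAt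
    unfold w1 at h2
    rw [indicator_of_mem hv, Complex.norm_real, Real.norm_eq_abs, Real.exp_log hX0, abs_mul,
      abs_div, abs_of_pos hX0, abs_of_pos (Real.exp_pos _)] at h2
    have e1 : Real.exp (-2 * Real.log X) = X ^ (-2 : ℝ) := by
      rw [Real.rpow_def_of_pos hX0, mul_comm]
    have e2 : Real.exp (-(Real.log X * (2 - σ))) = X ^ (σ - 2) := by
      rw [Real.rpow_def_of_pos hX0]
      congr 1
      ring
    rw [e1, e2] at h2
    have e3 : |∫ t in (1:ℝ)..X, Delta t| =
        |∫ t in (1:ℝ)..X, Delta t| / X * X ^ (-2 : ℝ) * X ^ (3 : ℝ) := by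
      have e4 : X ^ (3:ℝ) = X * X ^ (2:ℝ) := by
        rw [← Real.rpow_one_add' hX0.le (by norm_num)]
        norm_num
      have e5 : X ^ (-2:ℝ) * X ^ (2:ℝ) = 1 := by
        rw [← Real.rpow_add hX0]
        norm_num
      rw [e4]
      have : |∫ t in (1:ℝ)..X, Delta t| / X * X ^ (-2 : ℝ) * (X * X ^ (2:ℝ)) =
          |∫ t in (1:ℝ)..X, Delta t| / X * X * (X ^ (-2 : ℝ) * X ^ (2:ℝ)) := by ring
      rw [this, e5, mul_one, div_mul_cancel₀ _ hX0.ne']
    rw [e3]
    calc |∫ t in (1:ℝ)..X, Delta t| / X * X ^ (-2 : ℝ) * X ^ (3 : ℝ)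
        ≤ M * X ^ (σ - 2) * X ^ (3 : ℝ) := by gcongr
      _ = M * X ^ (1 + σ) := by
          rw [mul_assoc, ← Real.rpow_add hX0]
          congr 2
          ring
      _ ≤ M * X ^ (1 + b / 6 + ε) := by
          refine mul_le_mul_of_nonneg_left ?_ hM0
          exact Real.rpow_le_rpow_of_exponent_le hX (by rw [hσ]; linarith)

end Pool.Agent.SqF9
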