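import Pool.Agent.SqFull.Main
import Pool.Agent.SqF9.RHB
import Pool.Agent.SqF9.Chi

/-!
# Convexity bounds for `ζ` from a zero-free half plane `Re s > b`

`μ(x) ≤ 1/2 - x` to the left of `1 - b`, `μ(x) ≤ (b - x)/2` between `1 - b` and `b`.
-/

set_option autoImplicit false

open Complex Filter Topology Set MeasureTheory Pool.Agent.Hadamard Pool.Agent.SqFull

namespace Pool.Agent.SqF9

/-- Bound for `ζ` to the right of the zero-free line. -/
lemma zeta_rightB {b : ℝ} (hb0 : 1 / 2 ≤ b) (hb1 : b < 1) (hNZ : NZb b) {η ε : ℝ} (hη : 0 < η)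
    (hη1 : η ≤ 1) (hε : 0 < ε) :
    ∃ C : ℝ, 0 < C ∧ ∀ z : ℂ, b + η ≤ z.re → z.re ≤ 2 → 1 ≤ |z.im| →
      ‖riemannZeta z‖ ≤ C * (|z.im| + 2) ^ ε := by
  obtain ⟨C2, hC2, H2⟩ := ZZ_bounds9 hb0 hb1 hNZ hη hη1 hε
  refine ⟨3 * C2, by positivity, fun z hz1 hz2 ht => ?_⟩
  have hT0 : 0 < |z.im| + 2 := by positivity
  have h3 := (H2 z hz1 hz2).1
  have hs1 : z ≠ 1 := by
    rintro rfl; simp at ht; linarith
  rw [ZZ_eq (by linarith) hs1, norm_mul] at h3
  have h4 : (|z.im| + 2) / 3 ≤ ‖z - 1‖ := by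
    have := Complex.abs_im_le_norm (z - 1)
    simp only [sub_im, one_im, sub_zero] at this
    linarith
  have h5 : (|z.im| + 2) / 3 * ‖riemannZeta z‖ ≤
      (|z.im| + 2) / 3 * (3 * C2 * (|z.im| + 2) ^ ε) := by
    refine (mul_le_mul_of_nonneg_right h4 (norm_nonneg _)).trans (h3.trans (le_of_eq ?_))
    rw [Real.rpow_add hT0, Real.rpow_one]
    ring
  exact le_of_mul_le_mul_left h5 (by positivity)

/-- Bound for `ζ` on vertical lines to the left of `1 - b`. -/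
lemma zeta_leftB {b : ℝ} (hb0 : 1 / 2 ≤ b) (hb1 : b < 1) (hNZ : NZb b) {η ε : ℝ} (hη : 0 < η)
    (hη1 : η ≤ 1) (hε : 0 < ε) :
    ∃ C : ℝ, 0 < C ∧ ∀ z : ℂ, 0 ≤ z.re → z.re ≤ 1 - (b + η) → 1 ≤ |z.im| →
      ‖riemannZeta z‖ ≤ C * (|z.im| + 2) ^ (1 / 2 - z.re + ε) := by
  obtain ⟨C2, hC2, H2⟩ := zeta_rightB hb0 hb1 hNZ hη hη1 hε
  obtain ⟨C3, hC3, H3⟩ := chi_le
  refine ⟨C3 * C2, by positivity, fun s hs0 hs ht => ?_⟩
  have hT0 : 0 < |s.im| + 2 := by positivity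
  have hsne : s ≠ 0 := by
    rintro rfl; simp at ht; linarith
  have h3 := H3 s hs0 (by linarith)
  have h4 := H2 (1 - s) (by simp; linarith) (by simp; linarith) (by simpa using ht)
  have e : |(1 - s).im| = |s.im| := by simp
  rw [e] at h4
  rw [norm_zeta_fe hsne (by linarith)]
  calc 2 * (2 * Real.pi) ^ (s.re - 1) * ‖Complex.Gamma (1 - s)‖ *
        ‖Complex.cos (Real.pi * (1 - s) / 2)‖ * ‖riemannZeta (1 - s)‖
      ≤ (C3 * (|s.im| + 2) ^ (1 / 2 - s.re)) * (C2 * (|s.im| + 2) ^ ε) := by gcongr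
    _ = C3 * C2 * (|s.im| + 2) ^ (1 / 2 - s.re + ε) := by
        rw [Real.rpow_add hT0]; ring

/-- A bound on a vertical line for `|Im s| ≥ 1` extends to the whole line. -/
lemma line_ext {x p C : ℝ} (hx : x < 1) (hp : 0 ≤ p) (hC : 0 < C)
    (h : ∀ z : ℂ, z.re = x → 1 ≤ |z.im| → ‖riemannZeta z‖ ≤ C * (|z.im| + 2) ^ p) :
    ∃ D : ℝ, 0 < D ∧ ∀ z : ℂ, z.re = x → ‖riemannZeta z‖ ≤ D * (|z.im| + 2) ^ p := by
  obtain ⟨K, hK⟩ := isCompact_Icc.exists_bound_of_continuousOn (s := Icc (-1:ℝ) 1)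
    (f := fun t : ℝ => riemannZeta (x + t * I)) (by
      intro t _
      have h2 : ContinuousAt riemannZeta (x + t * I) := by
        refine (differentiableAt_riemannZeta ?_).continuousAt
        intro h
        have := congrArg Complex.re h
        simp at this
        linarith
      have h3 : ContinuousAt (fun t : ℝ => (x + t * I : ℂ)) t := by fun_prop
      exact (ContinuousAt.comp (f := fun t : ℝ => (x + t * I : ℂ)) h2 h3).continuousWithinAt)
  have hK0 : 0 ≤ K := (norm_nonneg _).trans (hK 0 (by constructor <;> norm_num))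
  refine ⟨C + K, by positivity, fun z hz => ?_⟩
  have hT1 : 1 ≤ |z.im| + 2 := by linarith [abs_nonneg z.im]
  have hTp : 1 ≤ (|z.im| + 2) ^ p := Real.one_le_rpow hT1 hp
  rcases le_total |z.im| 1 with h1 | h1
  · have h2 := hK z.im (abs_le.mp h1)
    have e1 : (x:ℂ) + z.im * I = z := by rw [← hz]; exact Complex.re_add_im z
    simp only [e1] at h2
    calc ‖riemannZeta z‖ ≤ K := h2
      _ ≤ (C + K) * 1 := by linarith
      _ ≤ _ := by gcongr
  · calc ‖riemannZeta z‖ ≤ C * (|z.im| + 2) ^ p := h z hz h1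
      _ ≤ _ := by
        gcongr
        linarith

/-- Three lines between `Re s = 1 - β` and `Re s = β`. -/
lemma strip_middle {β ε : ℝ} (hβ : 1 / 2 < β) (hβ1 : β < 1) (hε : 0 < ε) (hε1 : ε ≤ 1)
    {C1 C2 : ℝ} (hC1 : 0 < C1) (hC2 : 0 < C2)
    (h1 : ∀ z : ℂ, z.re = 1 - β → ‖riemannZeta z‖ ≤ C1 * (|z.im| + 2) ^ (β - 1 / 2 + ε))
    (h2 : ∀ z : ℂ, z.re = β → ‖riemannZeta z‖ ≤ C2 * (|z.im| + 2) ^ ε) :
    ∃ C : ℝ, 0 < C ∧ ∀ s : ℂ, 1 - β ≤ s.re → s.re ≤ β →
      ‖riemannZeta s‖ ≤ C * (|s.im| + 2) ^ ((β - s.re) / 2 + ε) := by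
  set a := 1 - β with ha
  have ha0 : 0 < a := by linarith
  have hab : a < β := by linarith
  obtain ⟨M, hM, h3⟩ := norm_zeta_apriori hβ1
  set D := 4 * Real.exp 1 * (C1 + C2) with hD
  have hD0 : 0 < D := by positivity
  refine ⟨D, hD0, fun z hz0 hzb => ?_⟩
  set τ := z.im with hτ
  set T := |τ| + 2 with hT
  have hT1 : 1 ≤ T := by linarith [abs_nonneg τ]
  have hT0 : 0 < T := by linarith
  set f : ℂ → ℂ := fun s => riemannZeta s * Complex.exp ((s - τ * I) ^ 2) with hf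
  have hnexp : ∀ s : ℂ, ‖Complex.exp ((s - τ * I) ^ 2)‖ = Real.exp (s.re ^ 2 - (s.im - τ) ^ 2) := by
    intro s
    rw [Complex.norm_exp]
    congr 1
    simp [sq]
  have hd : DiffContOnCl ℂ f (HadamardThreeLines.verticalStrip a β) := by
    have hdiff : ∀ s : ℂ, s.re ≤ β → DifferentiableAt ℂ f s := by
      intro s hs
      have hs1 : s ≠ 1 := by
        rintro rfl; simp at hs; linarith
      exact (differentiableAt_riemannZeta hs1).mul (by fun_prop)
    refine DifferentiableOn.diffContOnCl fun s hs => (hdiff s ?_).differentiableWithinAt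
    have hcl : IsClosed {s : ℂ | s.re ≤ β} := isClosed_le Complex.continuous_re continuous_const
    exact (closure_minimal (fun s hs => (le_of_lt hs.2 : s.re ≤ β)) hcl) hs
  have hB : BddAbove ((norm ∘ f) '' HadamardThreeLines.verticalClosedStrip a β) := by
    refine ⟨M * Real.exp (4 * |τ| + 5), ?_⟩
    rintro _ ⟨s, hs, rfl⟩
    have hs0 : 0 ≤ s.re := ha0.le.trans hs.1
    have hsb : s.re ≤ β := hs.2
    simp only [Function.comp, hf, norm_mul, hnexp]
    calc ‖riemannZeta s‖ * Real.exp (s.re ^ 2 - (s.im - τ) ^ 2)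
        ≤ (M * Real.exp (4 * |s.im|)) * Real.exp (s.re ^ 2 - (s.im - τ) ^ 2) := by
          gcongr
          exact h3 s hs0 hsb
      _ = M * Real.exp (4 * |s.im| + (s.re ^ 2 - (s.im - τ) ^ 2)) := by
          rw [Real.exp_add]; ring
      _ ≤ M * Real.exp (4 * |τ| + 5) := by
          refine mul_le_mul_of_nonneg_left (Real.exp_le_exp.mpr ?_) hM.le
          have h4 : |s.im| ≤ |τ| + |s.im - τ| := by
            have : s.im = τ + (s.im - τ) := by ring
            calc |s.im| = |τ + (s.im - τ)| := by rw [← this]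
              _ ≤ _ := abs_add_le _ _
          have h5 : s.re ^ 2 ≤ 1 := by nlinarith
          have h6 : (s.im - τ) ^ 2 = |s.im - τ| ^ 2 := (sq_abs _).symm
          nlinarith [sq_nonneg (|s.im - τ| - 2)]
  have hline : ∀ (x p c : ℝ), 0 ≤ x → x ≤ 1 → 0 ≤ p → p ≤ 2 → 0 < c → c ≤ C1 + C2 →
      (∀ z : ℂ, z.re = x → ‖riemannZeta z‖ ≤ c * (|z.im| + 2) ^ p) →
      ∀ s ∈ re ⁻¹' {x}, ‖f s‖ ≤ D * T ^ p := by
    intro x p c hx0 hx1 hp0 hp2 hc hcC hl s hs
    have hs0 : s.re = x := hs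
    have h4 := hl s hs0
    simp only [hf, norm_mul, hnexp, hs0]
    calc ‖riemannZeta s‖ * Real.exp (x ^ 2 - (s.im - τ) ^ 2)
        ≤ (c * (|s.im| + 2) ^ p) * (Real.exp 1 * Real.exp (-(s.im - τ) ^ 2)) := by
          rw [← Real.exp_add]
          gcongr
          nlinarith
      _ = Real.exp 1 * c * ((|s.im| + 2) ^ p * Real.exp (-(s.im - τ) ^ 2)) := by
          ring
      _ ≤ Real.exp 1 * c * (4 * T ^ p) :=
          mul_le_mul_of_nonneg_left (rpow_gauss_le hp0 hp2 _ _) (by positivity)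
      _ = (4 * Real.exp 1 * c) * T ^ p := by ring
      _ ≤ D * T ^ p := by
          rw [hD]
          gcongr
  have hleft := hline a (β - 1 / 2 + ε) C1 ha0.le (by linarith) (by linarith) (by linarith) hC1
    (by linarith) h1
  have hright := hline β ε C2 (by linarith) hβ1.le hε.le (by linarith) hC2 (by linarith) h2
  have hz : z ∈ HadamardThreeLines.verticalClosedStrip a β := ⟨hz0, hzb⟩
  have hmain := HadamardThreeLines.norm_le_interp_of_mem_verticalClosedStrip' hab hz hd hB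
    hleft hright
  have e2 : ‖riemannZeta z‖ ≤ ‖f z‖ := by
    simp only [hf, norm_mul, hnexp]
    have : 1 ≤ Real.exp (z.re ^ 2 - (z.im - τ) ^ 2) := by
      apply Real.one_le_exp
      rw [← hτ]; nlinarith [sq_nonneg z.re]
    exact le_mul_of_one_le_right (norm_nonneg _) this
  refine e2.trans (hmain.trans (le_of_eq ?_))
  set θ := (z.re - a) / (β - a) with hθ
  rw [Real.mul_rpow hD0.le (by positivity), Real.mul_rpow hD0.le (by positivity),
    ← Real.rpow_mul hT0.le, ← Real.rpow_mul hT0.le]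
  have e3 : D ^ (1 - θ) * T ^ ((β - 1 / 2 + ε) * (1 - θ)) * (D ^ θ * T ^ (ε * θ)) =
      (D ^ (1 - θ) * D ^ θ) * (T ^ ((β - 1 / 2 + ε) * (1 - θ)) * T ^ (ε * θ)) := by ring
  rw [e3, ← Real.rpow_add hD0, ← Real.rpow_add hT0]
  have e4 : (1 - θ) + θ = 1 := by ring
  have e5 : (β - 1 / 2 + ε) * (1 - θ) + ε * θ = (β - z.re) / 2 + ε := by
    have h6 : β - a ≠ 0 := by linarith
    have h7 : θ * (β - a) = z.re - a := by rw [hθ]; field_simp
    have h8 : β - a = 2 * (β - 1 / 2) := by rw [ha]; ring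
    rw [h8] at h7
    have h9 : (β - 1 / 2) * θ = (z.re - a) / 2 := by linarith
    have h10 : (β - 1 / 2 + ε) * (1 - θ) + ε * θ = β - 1 / 2 + ε - (β - 1 / 2) * θ := by ring
    rw [h10, h9, ha]
    ring
  rw [e4, e5, Real.rpow_one]

/-- `ζ(s) ≪ |Im s|^(m + ε)` for `Re s ≥ x0`, if `m` is at least `1/2 - x0` and `(b - x0)/2`. -/
theorem zeta_mu {b : ℝ} (hb0 : 1 / 2 ≤ b) (hb1 : b < 1) (hNZ : NZb b) {x0 m ε : ℝ}
    (h0 : 0 ≤ x0) (hm0 : 0 ≤ m) (hm1 : 1 / 2 - x0 ≤ m) (hm2 : (b - x0) / 2 ≤ m) (hε : 0 < ε)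
    (hε1 : ε ≤ 1) :
    ∃ C : ℝ, 0 < C ∧ ∀ s : ℂ, x0 ≤ s.re → 1 ≤ |s.im| →
      ‖riemannZeta s‖ ≤ C * (|s.im| + 2) ^ (m + ε) := by
  set η := min (ε / 2) ((1 - b) / 2) with hη
  have hη0 : 0 < η := lt_min (by linarith) (by linarith)
  have hηε : η ≤ ε / 2 := min_le_left _ _
  have hηb : η ≤ (1 - b) / 2 := min_le_right _ _
  set β := b + η with hβ
  have hβ0 : 1 / 2 < β := by linarith
  have hβ1 : β < 1 := by linarith
  obtain ⟨CR, hCR, HR⟩ := zeta_rightB hb0 hb1 hNZ hη0 (by linarith) (ε := ε / 2) (by linarith)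
  obtain ⟨CL, hCL, HL⟩ := zeta_leftB hb0 hb1 hNZ hη0 (by linarith) (ε := ε / 2) (by linarith)
  obtain ⟨D1, hD1, H1⟩ := line_ext (x := 1 - β) (p := β - 1 / 2 + ε / 2) (C := CL) (by linarith)
    (by linarith) hCL (fun z hz ht => by
      have h3 := HL z (by rw [hz]; linarith) (by rw [hz]) ht
      have e : 1 / 2 - z.re + ε / 2 = β - 1 / 2 + ε / 2 := by rw [hz]; ring
      rwa [e] at h3)
  obtain ⟨D2, hD2, H2⟩ := line_ext (x := β) (p := ε / 2) (C := CR) hβ1
    (by linarith) hCR (fun z hz ht => HR z (by rw [hz]) (by rw [hz]; linarith) ht)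
  obtain ⟨CM, hCM, HM⟩ := strip_middle hβ0 hβ1 (ε := ε / 2) (by linarith) (by linarith) hD1 hD2
    H1 H2
  refine ⟨CR + CL + CM + 2, by positivity, fun s hs ht => ?_⟩
  set T := |s.im| + 2 with hT
  have hT1 : 1 ≤ T := by linarith
  have hT0 : 0 < T := by linarith
  have hTp : 1 ≤ T ^ (m + ε) := Real.one_le_rpow hT1 (by linarith)
  have hfin : ∀ c p : ℝ, 0 ≤ c → c ≤ CR + CL + CM + 2 → p ≤ m + ε →
      c * T ^ p ≤ (CR + CL + CM + 2) * T ^ (m + ε) := by
    intro c p hc0 hc hp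
    have h1 : T ^ p ≤ T ^ (m + ε) := Real.rpow_le_rpow_of_exponent_le hT1 hp
    gcongr
  rcases le_total s.re (1 - β) with hA | hA
  · exact (HL s (by linarith) hA ht).trans (hfin CL _ hCL.le (by linarith) (by linarith))
  · rcases le_total s.re β with hB | hB
    · refine (HM s hA hB).trans (hfin CM _ hCM.le (by linarith) ?_)
      rcases le_total x0 (1 - β) with h3 | h3
      · linarith
      · linarith
    · rcases le_total s.re 2 with h2 | h2
      · exact (HR s hB h2 ht).trans (hfin CR _ hCR.le (by linarith) (by linarith))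
      · calc ‖riemannZeta s‖ ≤ 2 := (norm_zeta_bounds_two h2).2
          _ = 2 * 1 := by norm_num
          _ ≤ (CR + CL + CM + 2) * T ^ (m + ε) := by
            gcongr
            linarith

end Pool.Agent.SqF9
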