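import Pool.Agent.SqF9.Ces

/-!
# The first mean of `Δ` in logarithmic variables
-/

open Complex Filter Topology Set MeasureTheory Pool.Agent.SqFull

namespace Pool.Agent.SqF9

/-- The first mean of `Δ` in logarithmic variables. -/
noncomputable def w1 (v : ℝ) : ℂ :=
  (Ioi (0:ℝ)).indicator (fun v => (((∫ t in (1:ℝ)..Real.exp v, Delta t) / Real.exp v *
    Real.exp (-2 * v) : ℝ) : ℂ)) v

lemma measurable_w1 : Measurable w1 := by
  unfold w1
  refine Measurable.indicator ?_ measurableSet_Ioi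
  refine Complex.measurable_ofReal.comp ?_
  refine (measurable_D1.comp Real.measurable_exp).mul ?_
  exact Real.measurable_exp.comp (measurable_const.mul measurable_id)

lemma w1_transform (t : ℝ) :
    ∫ v : ℝ, cexp (-(t * v) * I) * w1 v =
      (∫ x in Ioi (1:ℝ), (Delta x : ℂ) * (x:ℂ) ^ (-((2 + t * I : ℂ) + 1))) /
        ((2 + t * I : ℂ) + 1) := by
  have h1 : ∫ v : ℝ, cexp (-(t * v) * I) * w1 v = ∫ v in Ioi (0:ℝ), cexp (-(t * v) * I) *
      (((∫ t in (1:ℝ)..Real.exp v, Delta t) / Real.exp v * Real.exp (-2 * v) : ℝ) : ℂ) := by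
    rw [← integral_indicator measurableSet_Ioi]
    refine integral_congr_ae (Eventually.of_forall fun v => ?_)
    unfold w1
    by_cases hv : v ∈ Ioi (0:ℝ)
    · simp only [indicator_of_mem hv]
    · simp only [indicator_of_notMem hv, mul_zero]
  rw [← cesaro (s := 2 + t * I) (by simp), h1, ← image_exp_Ioi,
    integral_image_eq_integral_abs_deriv_smul (f' := Real.exp)
    measurableSet_Ioi (fun x _ => (Real.hasDerivAt_exp x).hasDerivWithinAt)
    Real.exp_injective.injOn]
  refine setIntegral_congr_fun measurableSet_Ioi fun v _ => ?_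
  have hne : ((Real.exp v : ℝ) : ℂ) ≠ 0 := by exact_mod_cast (Real.exp_pos v).ne'
  have e1 : ((Real.exp v : ℝ) : ℂ) ^ (-((2 + t * I : ℂ) + 1)) =
      cexp (v * (-((2 + t * I : ℂ) + 1))) := by
    rw [Complex.cpow_def_of_ne_zero hne, ← Complex.ofReal_log (Real.exp_pos v).le, Real.log_exp]
  simp only [abs_of_pos (Real.exp_pos v), Complex.real_smul]
  rw [e1]
  rw [Complex.ofReal_mul, Complex.ofReal_exp (-2 * v), Complex.ofReal_exp]
  set D : ℂ := (((∫ t in (1:ℝ)..Real.exp v, Delta t) / Real.exp v : ℝ) : ℂ)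
  have e2 : cexp (v:ℂ) * (D * cexp (v * (-((2 + t * I : ℂ) + 1)))) =
      D * (cexp (v:ℂ) * cexp (v * (-((2 + t * I : ℂ) + 1)))) := by ring
  rw [e2, ← Complex.exp_add]
  have e3 : cexp (-(t * v) * I) * (D * cexp ((-2 * v : ℝ) : ℂ)) =
      D * (cexp (-(t * v) * I) * cexp ((-2 * v : ℝ) : ℂ)) := by ring
  rw [e3, ← Complex.exp_add]
  congr 2
  push_cast
  ring

end Pool.Agent.SqF9
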