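import Pool.Agent.SqF9.W1

/-!
# The first mean in logarithmic variables is continuous and integrable
-/

open Complex Filter Topology Set MeasureTheory Pool.Agent.SqFull

namespace Pool.Agent.SqF9

/-- `Δ` cut at `1`. -/
noncomputable def Dcut (x : ℝ) : ℝ := indicator (Ioi (1:ℝ)) Delta x

lemma measurable_Dcut : Measurable Dcut := measurable_Delta.indicator measurableSet_Ioi

lemma intervalIntegrable_Dcut (a b : ℝ) : IntervalIntegrable Dcut volume a b := by
  obtain ⟨B, hB, h⟩ := Delta_le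
  have hc : Continuous (fun x : ℝ => B * (max x 1) ^ (11 / 20 : ℝ)) :=
    continuous_const.mul ((continuous_id.max continuous_const).rpow_const
      (fun _ => Or.inr (by norm_num)))
  refine (hc.intervalIntegrable a b).mono_fun' measurable_Dcut.aestronglyMeasurable
    (Eventually.of_forall fun x => ?_)
  show ‖Dcut x‖ ≤ B * (max x 1) ^ (11 / 20 : ℝ)
  unfold Dcut
  by_cases hx : x ∈ Ioi (1:ℝ)
  · rw [indicator_of_mem hx, Real.norm_eq_abs, max_eq_left (le_of_lt hx)]
    exact h x (le_of_lt hx)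
  · rw [indicator_of_notMem hx, norm_zero]
    positivity

lemma integral_Dcut {x : ℝ} (hx : 1 ≤ x) : ∫ t in (1:ℝ)..x, Dcut t = ∫ t in (1:ℝ)..x, Delta t := by
  rw [intervalIntegral.integral_of_le hx, intervalIntegral.integral_of_le hx]
  refine setIntegral_congr_fun measurableSet_Ioc fun t ht => ?_
  exact indicator_of_mem (show t ∈ Ioi (1:ℝ) from ht.1) _

lemma integral_Dcut_zero {x : ℝ} (hx : x ≤ 1) : ∫ t in (1:ℝ)..x, Dcut t = 0 := by
  rw [intervalIntegral.integral_of_ge hx, setIntegral_eq_zero_of_forall_eq_zero, neg_zero]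
  intro t ht
  exact indicator_of_notMem (fun h : t ∈ Ioi (1:ℝ) => absurd ht.2 (not_le.mpr h)) _

lemma w1_eq : w1 = fun v : ℝ =>
    (((∫ t in (1:ℝ)..Real.exp v, Dcut t) / Real.exp v * Real.exp (-2 * v) : ℝ) : ℂ) := by
  funext v
  unfold w1
  by_cases hv : v ∈ Ioi (0:ℝ)
  · rw [indicator_of_mem hv, integral_Dcut (Real.one_le_exp (le_of_lt hv))]
  · rw [indicator_of_notMem hv, integral_Dcut_zero (Real.exp_le_one_iff.mpr (not_lt.mp hv))]
    simp

lemma w1_continuous : Continuous w1 := by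
  rw [w1_eq]
  refine Complex.continuous_ofReal.comp ?_
  have h1 : Continuous (fun v : ℝ => ∫ t in (1:ℝ)..Real.exp v, Dcut t) :=
    (intervalIntegral.continuous_primitive intervalIntegrable_Dcut 1).comp Real.continuous_exp
  exact (h1.div Real.continuous_exp (fun v => (Real.exp_pos v).ne')).mul (by fun_prop)

lemma abs_D0_le : ∃ B : ℝ, 0 < B ∧ ∀ x : ℝ, 1 ≤ x →
    |∫ t in (1:ℝ)..x, Delta t| ≤ B * x ^ (31 / 20 : ℝ) := by
  obtain ⟨B, hB, h⟩ := Delta_le
  refine ⟨B, hB, fun x hx => ?_⟩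
  have hx0 : 0 < x := by linarith
  have h1 : ‖∫ t in (1:ℝ)..x, Delta t‖ ≤ B * x ^ (11 / 20 : ℝ) * |x - 1| := by
    refine intervalIntegral.norm_integral_le_of_norm_le_const fun t ht => ?_
    rw [uIoc_of_le hx] at ht
    rw [Real.norm_eq_abs]
    refine (h t ht.1.le).trans (mul_le_mul_of_nonneg_left ?_ hB.le)
    exact Real.rpow_le_rpow (by linarith [ht.1]) ht.2 (by norm_num)
  rw [Real.norm_eq_abs, abs_of_nonneg (show (0:ℝ) ≤ x - 1 by linarith)] at h1
  refine h1.trans ?_
  have e : x ^ (31 / 20 : ℝ) = x ^ (11 / 20 : ℝ) * x := by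
    nth_rewrite 3 [← Real.rpow_one x]
    rw [← Real.rpow_add hx0]
    norm_num
  rw [e, ← mul_assoc]
  exact mul_le_mul_of_nonneg_left (by linarith) (by positivity)

lemma integrable_w1 : Integrable w1 := by
  obtain ⟨B, hB, h⟩ := abs_D0_le
  have h1 : Integrable (indicator (Ioi (0:ℝ)) (fun v : ℝ => B * Real.exp (-(29 / 20) * v))) := by
    rw [integrable_indicator_iff measurableSet_Ioi]
    exact (exp_neg_integrableOn_Ioi 0 (by norm_num)).const_mul B
  refine h1.mono' w1_continuous.aestronglyMeasurable (Eventually.of_forall fun v => ?_)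
  unfold w1
  by_cases hv : v ∈ Ioi (0:ℝ)
  · rw [indicator_of_mem hv, indicator_of_mem hv, Complex.norm_real, Real.norm_eq_abs, abs_mul,
      abs_div, abs_of_pos (Real.exp_pos v), abs_of_pos (Real.exp_pos (-2 * v))]
    have h2 := h (Real.exp v) (Real.one_le_exp (le_of_lt hv))
    calc |∫ t in (1:ℝ)..Real.exp v, Delta t| / Real.exp v * Real.exp (-2 * v)
        ≤ (B * Real.exp v ^ (31 / 20 : ℝ)) / Real.exp v * Real.exp (-2 * v) := by gcongr
      _ = B * Real.exp (-(29 / 20) * v) := by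
          rw [← Real.exp_mul, mul_div_assoc, ← Real.exp_sub, mul_assoc, ← Real.exp_add]
          congr 2
          ring
  · rw [indicator_of_notMem hv, indicator_of_notMem hv]
    simp

end Pool.Agent.SqF9
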